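import Pool.Agent.Run7.h328.ORD.OrdK

/-! # A positive proportion of the places, for a general local property -/

set_option autoImplicit false

namespace Run7.h328.ORD

open NumberField IsDedekindDomain Finset Filter
open Pool.Agent.H921R2.TatePole (nm two_le_nm below deg nm_eq below_le_nm kerPrime card_above)
open Pool.Agent.H341R2 (nm_kerPrime)
open Pool.Agent.Y722.HS (box EM red PR mem_PR EM_const EM_mono)
open Pool.Agent.Y722.LS (EM_add EM_mul)
open Run7.h328.SEP (locK finite_low low_summable count_sq)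
open Run7.h328.SEP.TupK (EM_shift_gen)

/-- the coefficients modulo `v` -/
noncomputable def rvg {K : Type} [Field K] [NumberField K] (v : HeightOneSpectrum (𝓞 K)) {ι : Type} (c : ι → 𝓞 K) :
    ι → 𝓞 K ⧸ v.asIdeal := fun i => Ideal.Quotient.mk v.asIdeal (c i)

section
variable {ι : Type} [Fintype ι] [DecidableEq ι] (Lp : ∀ (k : Type) [Field k], (ι → k) → Prop)

open Classical in
/-- the exact proportion -/
noncomputable def dg (q : ℕ) : ℝ :=
  if h : q.Prime then
    haveI := Fact.mk h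
    EM q (fun r : ι → ZMod q => if Lp (ZMod q) r then (1 : ℝ) else 0) else 0

open Classical in
theorem dg_mem (q : ℕ) : 0 ≤ dg Lp q ∧ dg Lp q ≤ 1 := by
  unfold dg
  split_ifs with h
  · have := Fact.mk h
    constructor
    · have := EM_mono q (fun _ => (0 : ℝ)) (fun r : ι → ZMod q => if Lp (ZMod q) r then (1 : ℝ) else 0)
        (fun r => by split_ifs <;> norm_num)
      rwa [EM_const] at this
    · have := EM_mono q (fun r : ι → ZMod q => if Lp (ZMod q) r then (1 : ℝ) else 0) (fun _ => (1 : ℝ))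
        (fun r => by split_ifs <;> norm_num)
      rwa [EM_const] at this
  · exact ⟨le_rfl, zero_le_one⟩

open Classical in
/-- the local term -/
noncomputable def Gg {K : Type} [Field K] [NumberField K] (c : ι → 𝓞 K) (v : HeightOneSpectrum (𝓞 K)) : ℝ :=
  if (nm v).Prime then (if Lp (𝓞 K ⧸ v.asIdeal) (rvg v c) then 1 else 0) - dg Lp (nm v) else 0

theorem Gg_le {K : Type} [Field K] [NumberField K] (c : ι → 𝓞 K) (v : HeightOneSpectrum (𝓞 K)) : |Gg Lp c v| ≤ 1 := by
  unfold Gg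
  have h1 := dg_mem Lp (nm v)
  split_ifs
  · rw [abs_le]; constructor <;> linarith
  · rw [abs_le]; constructor <;> linarith
  · rw [abs_zero]; exact zero_le_one

open Classical in
/-- the local function -/
noncomputable def Sg (p : ℕ) [Fact p.Prime] (s r : ι → ZMod p) : ℝ := (if Lp (ZMod p) (r + s) then 1 else 0) - dg Lp p

theorem Sg_le (p : ℕ) [Fact p.Prime] (s r : ι → ZMod p) : |Sg Lp p s r| ≤ 1 := by
  unfold Sg
  have h1 := dg_mem Lp p
  split_ifs
  · rw [abs_le]; constructor <;> linarith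
  · rw [abs_le]; constructor <;> linarith

open Classical in
theorem Sg_mean (p : ℕ) [hp : Fact p.Prime] (s : ι → ZMod p) : EM p (Sg Lp p s) = 0 := by
  have h1 := EM_shift_gen p s (fun r : ι → ZMod p => if Lp (ZMod p) r then (1 : ℝ) else 0)
  have e : Sg Lp p s = fun r => (if Lp (ZMod p) (r + s) then (1 : ℝ) else 0) + (- dg Lp p) := by
    funext r
    rfl
  rw [e, EM_add p (fun r => if Lp (ZMod p) (r + s) then (1 : ℝ) else 0) (fun _ => - dg Lp p), EM_const, h1]
  unfold dg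
  rw [dif_pos hp.out]
  ring

/-- **A positive proportion of the places.** -/
theorem propK (d : ℕ) (δ B : ℝ) (hδ : δ ≤ 1) (hB : 0 ≤ B)
    (hiso : ∀ (k k' : Type) [Field k] [Field k'] (e : k ≃+* k') (c : ι → k), Lp k' (fun i => e (c i)) ↔ Lp k c)
    (hcount : ∀ q : ℕ, q.Prime → δ - B / q ≤ dg Lp q) :
    ∃ C : ℝ, 0 < C ∧ ∀ ε : ℝ, 0 < ε → ε ≤ 1 → ∀ᶠ H : ℕ in Filter.atTop,
    ∀ (K : Type) [Field K] [NumberField K], Module.finrank ℚ K = d → ∀ α : ι → 𝓞 K,
    ∀ 𝒮 : Finset (Set (HeightOneSpectrum (𝓞 K))), (𝒮.card : ℝ) ≤ (H : ℝ) ^ (ε / 500) →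
    ∃ Ex ⊆ box ι H, (Ex.card : ℝ) ≤ (H : ℝ) ^ (-(ε / 500)) * (box ι H).card ∧
      ∀ c ∈ box ι H \ Ex, ∀ S ∈ 𝒮, ∀ X : ℕ, (X : ℝ) ≤ (H : ℝ) ^ (ε / 200) →
        δ * Nat.card {v : HeightOneSpectrum (𝓞 K) // v ∈ S ∧ nm v ≤ X} -
          C * ((X : ℝ) ^ (1 / 2 + ε) + Real.log H ^ (4 / ε)) ≤
        Nat.card {v : HeightOneSpectrum (𝓞 K) // (v ∈ S ∧ nm v ≤ X) ∧ Lp (𝓞 K ⧸ v.asIdeal) (rvg v (fun i => α i + (c i : 𝓞 K)))} := by
  classical
  refine ⟨50 * (d + 1) + d * (4 * (B + 1)), by positivity, fun ε hε hε1 => ?_⟩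
  filter_upwards [locK (Fintype.card ι) d 1 1 ε le_rfl hε hε1, eventually_ge_atTop 1] with H h hH1
  intro K _ _ hK α 𝒮 h𝒮
  have hHr : (1 : ℝ) ≤ H := by exact_mod_cast hH1
  set ind : Set (HeightOneSpectrum (𝓞 K)) → HeightOneSpectrum (𝓞 K) → ℂ := fun S v => if v ∈ S then 1 else 0 with hind
  obtain ⟨Ex, hE1, hE2, hE3⟩ := h K hK ι rfl Unit {()} (by simp)
    (fun _ p _ φ r => Sg Lp p (fun i => φ (α i)) r) (fun _ _ p _ φ r => Sg_le Lp p _ r)
    (fun _ _ p _ φ => by
      have h := Sg_mean Lp p (fun i => φ (α i))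
      refine (le_of_eq (congrArg abs h)).trans ?_
      rw [abs_zero]
      positivity) (𝒮.image ind)
    (by
      intro w hw v
      rw [Finset.mem_image] at hw
      obtain ⟨S, _, rfl⟩ := hw
      rw [hind]
      simp only
      split_ifs
      · rw [norm_one]
      · rw [norm_zero]
        exact zero_le_one)
    (le_trans (by exact_mod_cast Finset.card_image_le) h𝒮)
  refine ⟨Ex, hE1, hE2, fun c hc S hS X hX => ?_⟩
  set c' : ι → 𝓞 K := fun i => α i + (c i : 𝓞 K) with hc'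
  have h1 := hE3 c hc (ind S) (Finset.mem_image_of_mem ind hS) () (Finset.mem_singleton_self _) (Gg Lp c') (Gg_le Lp c')
    (fun p hfp φ => by
      have hpr : (nm (kerPrime p φ).1.1).Prime := by
        rw [nm_kerPrime]
        exact hfp.out
      unfold Gg Sg
      rw [if_pos hpr, nm_kerPrime]
      set v := (kerPrime p φ).1.1 with hv
      let e : (𝓞 K ⧸ v.asIdeal) ≃+* ZMod (p : ℕ) := RingHom.quotientKerEquivOfSurjective (ZMod.ringHom_surjective φ)
      have h2 := hiso _ _ e (rvg v c')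
      have h3 : (fun i => e (rvg v c' i)) = red (p : ℕ) c + fun i => φ (α i) := by
        have h4 : (fun i => e (rvg v c' i)) = fun i => φ (c' i) := rfl
        rw [h4]
        funext i
        rw [hc', Pi.add_apply]
        simp only [map_add, map_intCast]
        rw [add_comm]
        rfl
      rw [h3] at h2
      by_cases h4 : Lp (𝓞 K ⧸ v.asIdeal) (rvg v c')
      · rw [if_pos h4, if_pos (h2.2 h4)]
      · rw [if_neg h4, if_neg (fun h' => h4 (h2.1 h'))]) X hX 0 (by
      rw [abs_zero]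
      positivity)
  set V : Finset (HeightOneSpectrum (𝓞 K)) := (finite_low (K := K) X).toFinset with hV
  have hmemV : ∀ v, v ∈ V ↔ nm v ≤ X := by
    intro v
    rw [hV, Set.Finite.mem_toFinset]
    exact Iff.rfl
  have h2 : (∑' v : HeightOneSpectrum (𝓞 K), if nm v ≤ X then
      ind S v * (Gg Lp c' v : ℂ) * ((nm v : ℕ) : ℂ) ^ (-(((0 : ℝ) : ℂ) * Complex.I)) else 0) =
      ((∑ v ∈ V.filter (fun v => v ∈ S), Gg Lp c' v : ℝ) : ℂ) := by
    rw [tsum_eq_sum (s := V)]
    · rw [Finset.sum_filter]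
      push_cast
      refine Finset.sum_congr rfl fun v hv => ?_
      rw [if_pos ((hmemV v).1 hv), hind]
      simp only [Complex.ofReal_zero, zero_mul, neg_zero, Complex.cpow_zero, mul_one]
      split_ifs
      · rw [one_mul]
      · simp
    · intro v hv
      rw [hmemV] at hv
      rw [if_neg hv]
  rw [h2, Complex.norm_real, Real.norm_eq_abs] at h1
  set Q : ℝ := (X : ℝ) ^ (1 / 2 + ε) + Real.log H ^ (4 / ε) with hQ
  have hXQ : Real.sqrt X ≤ Q := by
    have hL0 : 0 ≤ Real.log H ^ (4 / ε) := by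
      have : 0 ≤ Real.log H := Real.log_natCast_nonneg H
      positivity
    have hX2 : Real.sqrt X ≤ (X : ℝ) ^ (1 / 2 + ε) := by
      rcases Nat.eq_zero_or_pos X with h0 | h0
      · rw [h0]
        simp only [Nat.cast_zero, Real.sqrt_zero]
        positivity
      · rw [Real.sqrt_eq_rpow]
        exact Real.rpow_le_rpow_of_exponent_le (by exact_mod_cast h0) (by linarith)
    rw [hQ]
    linarith
  have hQ0 : 0 ≤ Q := (Real.sqrt_nonneg _).trans hXQ
  have h3 : -(50 * (d : ℝ) * Q) ≤ ∑ v ∈ V.filter (fun v => v ∈ S), Gg Lp c' v := by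
    have := (abs_le.1 h1).1
    linarith
  -- the counts
  set VS := V.filter (fun v => v ∈ S) with hVS
  have hcA : (Nat.card {v : HeightOneSpectrum (𝓞 K) // v ∈ S ∧ nm v ≤ X} : ℝ) = VS.card := by
    have : Nat.card {v : HeightOneSpectrum (𝓞 K) // v ∈ S ∧ nm v ≤ X} = VS.card := by
      refine Nat.subtype_card VS fun v => ?_
      rw [hVS, Finset.mem_filter, hmemV]
      exact and_comm
    exact_mod_cast this
  have hcB : (Nat.card {v : HeightOneSpectrum (𝓞 K) // (v ∈ S ∧ nm v ≤ X) ∧ Lp (𝓞 K ⧸ v.asIdeal) (rvg v c')} : ℝ) =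
      (VS.filter (fun v => Lp (𝓞 K ⧸ v.asIdeal) (rvg v c'))).card := by
    have : Nat.card {v : HeightOneSpectrum (𝓞 K) // (v ∈ S ∧ nm v ≤ X) ∧ Lp (𝓞 K ⧸ v.asIdeal) (rvg v c')} =
        (VS.filter (fun v => Lp (𝓞 K ⧸ v.asIdeal) (rvg v c'))).card := by
      refine Nat.subtype_card (VS.filter (fun v => Lp (𝓞 K ⧸ v.asIdeal) (rvg v c'))) fun v => ?_
      rw [Finset.mem_filter, hVS, Finset.mem_filter, hmemV, and_comm (a := v ∈ S)]
    exact_mod_cast this
  rw [hcA, hcB]
  have h4 : ∀ v ∈ VS, Gg Lp c' v ≤ (if Lp (𝓞 K ⧸ v.asIdeal) (rvg v c') then (1 : ℝ) else 0) - δ +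
      (B + 1) * (if (nm v).Prime then (1 : ℝ) / nm v else 1) := by
    intro v _
    have h5 : (0 : ℝ) ≤ if Lp (𝓞 K ⧸ v.asIdeal) (rvg v c') then (1 : ℝ) else 0 := by split_ifs <;> norm_num
    unfold Gg
    by_cases hp : (nm v).Prime
    · rw [if_pos hp, if_pos hp]
      have h6 := hcount (nm v) hp
      have e : (B + 1) * (1 / (nm v : ℝ)) = B / nm v + 1 / nm v := by ring
      have h7 : (0 : ℝ) ≤ 1 / nm v := by positivity
      rw [e]
      linarith
    · rw [if_neg hp, if_neg hp]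
      linarith
  have h5 := Finset.sum_le_sum h4
  rw [Finset.sum_add_distrib, Finset.sum_sub_distrib, Finset.sum_const, nsmul_eq_mul, ← Finset.mul_sum, Finset.sum_boole] at h5
  have h6 := small_sum (K := K) X VS (fun v hv => by
    rw [hVS, Finset.mem_filter, hmemV] at hv
    exact hv.1)
  rw [hK] at h6
  have h7 : (B + 1) * ∑ v ∈ VS, (if (nm v).Prime then (1 : ℝ) / nm v else 1) ≤ (B + 1) * (d * (4 * Q)) := by
    apply mul_le_mul_of_nonneg_left _ (by positivity)
    refine h6.trans ?_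
    gcongr
  have h8 : (50 * ((d : ℝ) + 1) + d * (4 * (B + 1))) * Q = 50 * d * Q + (B + 1) * (d * (4 * Q)) + 50 * Q := by ring
  rw [h8]
  linarith

end

end Run7.h328.ORD
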