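import Pool.Agent.Run7.h328.ORD.Lead

/-! # The leading monomial of the Hasse-Witt determinant of a general double cover of a toric variety -/

set_option autoImplicit false

namespace Run7.h328.ORD.Dbl

open Finset
open Run7.h328.ORD

variable {ρ : Type} [Fintype ρ] {ι : Type} [Fintype ι] [DecidableEq ι] {κ : Type} [Fintype κ] [DecidableEq κ]

/-- the square of the length -/
def sq (a : ρ → ℝ) : ℝ := ∑ s, a s ^ 2

theorem sq_nonneg (a : ρ → ℝ) : 0 ≤ sq a := Finset.sum_nonneg fun s _ => _root_.sq_nonneg _

/-- the real exponents -/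
def rl (a : ρ →₀ ℕ) : ρ → ℝ := fun s => (a s : ℝ)

/-- the large constant -/
noncomputable def W0 (ex : ι → ρ →₀ ℕ) : ℝ := 1 + ∑ i, sq (rl (ex i))

/-- the weights -/
noncomputable def wD (ex : ι → ρ →₀ ℕ) (i : ι) : ℝ := W0 ex - sq (rl (ex i))

theorem wD_pos (ex : ι → ρ →₀ ℕ) (i : ι) : 0 < wD ex i := by
  unfold wD W0
  have h := Finset.single_le_sum (f := fun i => sq (rl (ex i))) (fun i _ => sq_nonneg _) (Finset.mem_univ i)
  linarith

section K
variable {K : Type} [Field K] (ex : ι → ρ →₀ ℕ) (n : ℕ)

/-- the general polynomial -/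
noncomputable def genD : MvPolynomial ρ (MvPolynomial ι K) := ∑ i, MvPolynomial.monomial (ex i) (MvPolynomial.X i)

/-- the term of the multinomial expansion -/
noncomputable def termD (e : ι → ℕ) : MvPolynomial ι K :=
  (Nat.multinomial univ e : MvPolynomial ι K) * ∏ i, MvPolynomial.X i ^ e i

open Classical in
/-- the exponents of the terms -/
noncomputable def EE (N : ρ →₀ ℕ) : Finset (ι → ℕ) :=
  ((univ : Finset ι).piAntidiag n).filter (fun e => ∑ i, e i • ex i = N)

theorem mem_EE {N : ρ →₀ ℕ} {e : ι → ℕ} : e ∈ EE ex n N ↔ ∑ i, e i = n ∧ ∑ i, e i • ex i = N := by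
  unfold EE
  simp only [Finset.mem_filter, Finset.mem_piAntidiag, Finset.mem_univ, implies_true, and_true]

theorem coeff_genD (N : ρ →₀ ℕ) : MvPolynomial.coeff N (genD (K := K) ex ^ n) = ∑ e ∈ EE ex n N, termD e := by
  classical
  unfold genD EE
  rw [Finset.sum_pow_eq_sum_piAntidiag, MvPolynomial.coeff_sum, Finset.sum_filter]
  refine Finset.sum_congr rfl fun e _ => ?_
  have e1 : ∏ i, (MvPolynomial.monomial (ex i) (MvPolynomial.X i : MvPolynomial ι K)) ^ e i =
      MvPolynomial.C (∏ i, MvPolynomial.X i ^ e i) * MvPolynomial.monomial (∑ i, e i • ex i) 1 := by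
    rw [MvPolynomial.monomial_sum_one, map_prod, ← Finset.prod_mul_distrib]
    refine Finset.prod_congr rfl fun i _ => ?_
    rw [MvPolynomial.monomial_pow, MvPolynomial.C_mul_monomial, mul_one]
  have e2 : ((Nat.multinomial univ e : ℕ) : MvPolynomial ρ (MvPolynomial ι K)) =
      MvPolynomial.C ((Nat.multinomial univ e : ℕ) : MvPolynomial ι K) := by simp
  rw [e1, e2, ← mul_assoc, ← MvPolynomial.C_mul, MvPolynomial.coeff_C_mul, MvPolynomial.coeff_monomial]
  unfold termD
  split_ifs
  · rw [mul_one]
  · rw [mul_zero]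

/-- the exponents of the monomial -/
noncomputable def eb (e : ι → ℕ) : ι →₀ ℕ := Finsupp.equivFunOnFinite.symm e

theorem prod_X (e : ι → ℕ) : ∏ i, (MvPolynomial.X i : MvPolynomial ι K) ^ e i = MvPolynomial.monomial (eb e) 1 := by
  rw [MvPolynomial.monomial_eq, map_one, one_mul, Finsupp.prod_fintype _ _ (fun _ => pow_zero _)]
  rfl

/-- the value for the weights -/
noncomputable def TD (N : ρ → ℝ) : ℝ := n * W0 ex - sq N / n

/-- the weight of a term -/
theorem wt_termD (hn : 0 < n) (e : ι → ℕ) (N : ρ →₀ ℕ) (he : e ∈ EE ex n N) :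
    Wt (wD ex) (eb e) = TD ex n (rl N) - (∑ i, (e i : ℝ) * sq (fun s => n * rl (ex i) s - rl N s)) / n ^ 2 := by
  rw [mem_EE] at he
  have hn0 : (0 : ℝ) < n := by exact_mod_cast hn
  have he' : ∑ i, (e i : ℝ) = n := by exact_mod_cast he.1
  have hN' : ∀ s, ∑ i, (e i : ℝ) * (rl (ex i) s) = rl N s := by
    intro s
    have := DFunLike.congr_fun he.2 s
    rw [Finsupp.finsetSum_apply] at this
    simp only [Finsupp.smul_apply, smul_eq_mul] at this
    unfold rl
    exact_mod_cast this
  have h1 : Wt (wD ex) (eb e) = n * W0 ex - ∑ i, (e i : ℝ) * sq (rl (ex i)) := by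
    unfold Wt wD eb
    simp only [Finsupp.equivFunOnFinite_symm_apply_apply, sub_mul, Finset.sum_sub_distrib]
    rw [← Finset.mul_sum, he', mul_comm]
    congr 1
    exact Finset.sum_congr rfl fun i _ => mul_comm _ _
  have h2 : ∑ i, (e i : ℝ) * sq (fun s => n * rl (ex i) s - rl N s) = n ^ 2 * (∑ i, (e i : ℝ) * sq (rl (ex i))) - n * sq (rl N) := by
    unfold sq
    have e1 : ∀ i, (e i : ℝ) * ∑ s, (n * rl (ex i) s - rl N s) ^ 2 =
        n ^ 2 * ((e i : ℝ) * ∑ s, rl (ex i) s ^ 2) - 2 * n * (∑ s, rl N s * ((e i : ℝ) * rl (ex i) s)) + (e i : ℝ) * ∑ s, rl N s ^ 2 := by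
      intro i
      rw [Finset.mul_sum, Finset.mul_sum, Finset.mul_sum, Finset.mul_sum, Finset.mul_sum, ← Finset.sum_sub_distrib,
        ← Finset.sum_add_distrib]
      exact Finset.sum_congr rfl fun s _ => by ring
    rw [Finset.sum_congr rfl fun i _ => e1 i, Finset.sum_add_distrib, Finset.sum_sub_distrib, ← Finset.mul_sum, ← Finset.mul_sum,
      ← Finset.sum_mul, he', Finset.sum_comm]
    have e2 : ∑ s, ∑ i, rl N s * ((e i : ℝ) * rl (ex i) s) = ∑ s, rl N s ^ 2 := by
      refine Finset.sum_congr rfl fun s _ => ?_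
      rw [← Finset.mul_sum, hN' s]
      ring
    rw [e2]
    ring
  rw [h1, h2]
  unfold TD
  field_simp
  ring

theorem term_supD (e : ι → ℕ) (t : ℝ) (h : Wt (wD ex) (eb e) ≤ t) : LE (wD ex) (termD (K := K) e) t := by
  intro c hc
  unfold termD at hc
  rw [prod_X, ← map_natCast (MvPolynomial.C (σ := ι) (R := K)), MvPolynomial.C_mul_monomial,
    MvPolynomial.mem_support_iff, MvPolynomial.coeff_monomial] at hc
  have : eb e = c := by
    by_contra h'
    exact hc (if_neg h')
  rw [← this]
  exact h

theorem entry_leD (hn : 0 < n) (N : ρ →₀ ℕ) : LE (wD ex) (MvPolynomial.coeff N (genD (K := K) ex ^ n)) (TD ex n (rl N)) := by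
  rw [coeff_genD]
  refine LE.sum _ _ _ fun e he => term_supD ex e _ ?_
  rw [wt_termD ex n hn e N he]
  have h2 : 0 ≤ (∑ i, (e i : ℝ) * sq (fun s => n * rl (ex i) s - rl N s)) / (n : ℝ) ^ 2 :=
    div_nonneg (Finset.sum_nonneg fun k _ => mul_nonneg (Nat.cast_nonneg _) (sq_nonneg _)) (by positivity)
  linarith

/-- the diagonal entries -/
theorem entry_diagD (hex : Function.Injective ex) (hn : 0 < n) (k : ι) : ∃ R : MvPolynomial ι K,
    MvPolynomial.coeff (n • ex k) (genD (K := K) ex ^ n) = MvPolynomial.monomial (Finsupp.single k n) 1 + R ∧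
      LT (wD ex) R (TD ex n (rl (n • ex k))) := by
  classical
  have hn0 : (0 : ℝ) < n := by exact_mod_cast hn
  set e0 : ι → ℕ := Pi.single k n with he0
  have hmem : e0 ∈ EE ex n (n • ex k) := by
    rw [mem_EE]
    refine ⟨?_, ?_⟩
    · rw [he0, Finset.sum_pi_single']
      simp
    · rw [he0, Finset.sum_eq_single k]
      · rw [Pi.single_eq_same]
      · intro j _ hj
        rw [Pi.single_eq_of_ne hj, zero_smul]
      · intro h
        exact absurd (Finset.mem_univ _) h
  refine ⟨∑ e ∈ (EE ex n (n • ex k)).erase e0, termD e, ?_, ?_⟩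
  · rw [coeff_genD, ← Finset.add_sum_erase _ _ hmem]
    congr 1
    unfold termD
    rw [prod_X]
    have h1 : Nat.multinomial univ e0 = 1 := by
      have h2 := Nat.multinomial_spec univ e0
      have h3 : ∑ i, e0 i = n := by
        rw [he0, Finset.sum_pi_single']
        simp
      have h4 : ∏ i, (e0 i).factorial = n.factorial := by
        rw [Finset.prod_eq_single k]
        · rw [he0, Pi.single_eq_same]
        · intro j _ hj
          rw [he0, Pi.single_eq_of_ne hj, Nat.factorial_zero]
        · intro h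
          exact absurd (Finset.mem_univ _) h
      rw [h3, h4] at h2
      exact Nat.eq_of_mul_eq_mul_left (Nat.factorial_pos n) (by rw [h2, mul_one])
    have h5 : eb e0 = Finsupp.single k n := by
      ext i
      unfold eb
      rw [Finsupp.equivFunOnFinite_symm_apply_apply, Finsupp.single_apply, he0, Pi.single_apply]
      simp only [eq_comm]
    rw [h1, h5, Nat.cast_one, one_mul]
  · refine LT.sum _ _ _ fun e he => ?_
    rw [Finset.mem_erase] at he
    refine (term_supD ex e _ le_rfl).lt ?_
    rw [wt_termD ex n hn e _ he.2]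
    have he2 := (mem_EE ex n).1 he.2
    have h2 : 0 < (∑ i, (e i : ℝ) * sq (fun s => n * rl (ex i) s - rl (n • ex k) s)) / (n : ℝ) ^ 2 := by
      apply div_pos _ (by positivity)
      have h3 : ∃ j, j ≠ k ∧ e j ≠ 0 := by
        by_contra hcon
        push Not at hcon
        apply he.1
        funext j
        by_cases hj : j = k
        · have h4 := he2.1
          rw [Finset.sum_eq_single k (fun j _ hj => hcon j hj) (fun h => absurd (Finset.mem_univ _) h)] at h4
          rw [hj, h4, he0, Pi.single_eq_same]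
        · rw [hcon j hj, he0, Pi.single_eq_of_ne hj]
      obtain ⟨j, hj1, hj2⟩ := h3
      refine Finset.sum_pos' (fun j _ => mul_nonneg (Nat.cast_nonneg _) (sq_nonneg _)) ⟨j, Finset.mem_univ j, ?_⟩
      have h5 : (0 : ℝ) < e j := by exact_mod_cast Nat.pos_of_ne_zero hj2
      refine mul_pos h5 ?_
      have h6 : ∃ s, ex j s ≠ ex k s := by
        by_contra hcon
        push Not at hcon
        exact hj1 (hex (Finsupp.ext hcon))
      obtain ⟨s, hs⟩ := h6
      unfold sq
      refine Finset.sum_pos' (fun s _ => _root_.sq_nonneg _) ⟨s, Finset.mem_univ s, ?_⟩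
      have h7 : ((n : ℝ) * rl (ex j) s - rl (n • ex k) s) ≠ 0 := by
        unfold rl
        rw [Finsupp.smul_apply, smul_eq_mul]
        push_cast
        rw [← mul_sub]
        refine mul_ne_zero hn0.ne' (sub_ne_zero.2 ?_)
        exact_mod_cast hs
      positivity
    linarith

end K

section det
variable {K : Type} [Field K] (ex : ι → ρ →₀ ℕ) (u : κ → ρ →₀ ℕ) (t : κ → ι) (n : ℕ)

open Classical in
/-- the matrix of the general double cover -/
noncomputable def AD : Matrix κ κ (MvPolynomial ι K) :=
  Matrix.of fun i j => if u j ≤ (2 * n + 1) • u i then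
    MvPolynomial.coeff ((2 * n + 1) • u i - u j) (genD (K := K) ex ^ n) else 0

/-- the exponents of the leading monomial -/
noncomputable def MD : ι →₀ ℕ := ∑ j : κ, Finsupp.single (t j) n

theorem Wt_singleD (w : ι → ℝ) (k : ι) (m : ℕ) : Wt w (Finsupp.single k m) = w k * m := by
  unfold Wt
  rw [Finset.sum_eq_single k]
  · rw [Finsupp.single_eq_same]
  · intro j _ hj
    rw [Finsupp.single_eq_of_ne hj, Nat.cast_zero, mul_zero]
  · intro h
    exact absurd (Finset.mem_univ _) h

/-- the real exponents of the entries -/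
def rN (i j : κ) : ρ → ℝ := fun s => (2 * n + 1) * rl (u i) s - rl (u j) s

theorem entryD (hn : 0 < n) (i j : κ) : LE (wD ex) (AD (K := K) ex u n i j) (TD ex n (rN u n i j)) := by
  classical
  unfold AD
  rw [Matrix.of_apply]
  split_ifs with h
  · have h1 := entry_leD (K := K) ex n hn ((2 * n + 1) • u i - u j)
    have h2 : rl ((2 * n + 1) • u i - u j) = rN u n i j := by
      funext s
      unfold rl rN rl
      have h3 := h s
      rw [Finsupp.smul_apply, smul_eq_mul] at h3
      rw [Finsupp.tsub_apply, Finsupp.smul_apply, smul_eq_mul, Nat.cast_sub h3]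
      push_cast
      ring
    rwa [h2] at h1
  · exact LE.zero _

theorem diagD (hex : Function.Injective ex) (ht : ∀ j, ex (t j) = 2 • u j) (hn : 0 < n) (i : κ) : ∃ R : MvPolynomial ι K,
    AD (K := K) ex u n i i = MvPolynomial.monomial (Finsupp.single (t i) n) 1 + R ∧ LT (wD ex) R (TD ex n (rN u n i i)) := by
  classical
  obtain ⟨R, h1, h2⟩ := entry_diagD (K := K) ex n hex hn (t i)
  have hle : u i ≤ (2 * n + 1) • u i := by
    intro s
    rw [Finsupp.smul_apply, smul_eq_mul]
    exact Nat.le_mul_of_pos_left _ (Nat.succ_pos _)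
  have he : (2 * n + 1) • u i - u i = n • ex (t i) := by
    rw [ht, smul_smul]
    ext s
    rw [Finsupp.tsub_apply, Finsupp.smul_apply, Finsupp.smul_apply, smul_eq_mul, smul_eq_mul]
    have : (2 * n + 1) * u i s = n * 2 * u i s + u i s := by ring
    omega
  refine ⟨R, ?_, ?_⟩
  · unfold AD
    rw [Matrix.of_apply, if_pos hle, he, h1]
  · have e : rl (n • ex (t i)) = rN u n i i := by
      funext s
      unfold rl rN rl
      rw [ht, Finsupp.smul_apply, Finsupp.smul_apply, smul_eq_mul, smul_eq_mul]
      push_cast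
      ring
    rwa [e] at h2

theorem TD_diag (ht : ∀ j, ex (t j) = 2 • u j) (hn : 0 < n) (i : κ) : TD ex n (rN u n i i) = wD ex (t i) * n := by
  have hn0 : (n : ℝ) ≠ 0 := by exact_mod_cast hn.ne'
  have e : sq (rN u n i i) = n ^ 2 * sq (rl (ex (t i))) := by
    unfold sq rN rl
    rw [ht, Finset.mul_sum]
    refine Finset.sum_congr rfl fun s _ => ?_
    rw [Finsupp.smul_apply, smul_eq_mul]
    push_cast
    ring
  unfold TD wD
  rw [e]
  field_simp

theorem Wt_MD (ht : ∀ j, ex (t j) = 2 • u j) (hn : 0 < n) : Wt (wD ex) (MD t n) = ∑ i : κ, TD ex n (rN u n i i) := by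
  have h1 : ∀ s : Finset κ, Wt (wD ex) (∑ i ∈ s, Finsupp.single (t i) n : ι →₀ ℕ) =
      ∑ i ∈ s, TD ex n (rN u n i i) := by
    intro s
    induction s using Finset.induction_on with
    | empty =>
      unfold Wt
      simp
    | insert a s ha ih =>
      rw [Finset.sum_insert ha, Finset.sum_insert ha, Wt_addf, ih, Wt_singleD, TD_diag ex u t n ht hn]
  exact h1 univ

/-- **The leading monomial of the determinant.** -/
theorem det_leadD (hex : Function.Injective ex) (hu : Function.Injective u) (ht : ∀ j, ex (t j) = 2 • u j) (hn : 0 < n) :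
    ∃ R : MvPolynomial ι K,
    (AD (K := K) ex u n).det = MvPolynomial.monomial (MD t n) 1 + R ∧ LT (wD ex) R (Wt (wD ex) (MD t n)) := by
  classical
  have hn0 : (0 : ℝ) < n := by exact_mod_cast hn
  have hch := fun i => diagD (K := K) ex u t n hex ht hn i
  choose R hR1 hR2 using hch
  rw [Matrix.det_apply, ← Finset.add_sum_erase _ _ (Finset.mem_univ (1 : Equiv.Perm κ))]
  have hdiag : ∏ i, AD (K := K) ex u n ((1 : Equiv.Perm κ) i) i =
      MvPolynomial.monomial (MD t n) 1 + (∏ i, (MvPolynomial.monomial (Finsupp.single (t i) n) 1 + R i) -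
        ∏ i, MvPolynomial.monomial (Finsupp.single (t i) n) 1) := by
    have e1 : ∏ i, AD (K := K) ex u n ((1 : Equiv.Perm κ) i) i =
        ∏ i, (MvPolynomial.monomial (Finsupp.single (t i) n) 1 + R i) :=
      Finset.prod_congr rfl fun i _ => hR1 i
    have e2 : (MvPolynomial.monomial (MD t n) 1 : MvPolynomial ι K) =
        ∏ i, MvPolynomial.monomial (Finsupp.single (t i) n) 1 := by
      unfold MD
      rw [MvPolynomial.monomial_sum_one]
    rw [e1, e2]
    ring
  refine ⟨(∏ i, (MvPolynomial.monomial (Finsupp.single (t i) n) 1 + R i) -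
        ∏ i, MvPolynomial.monomial (Finsupp.single (t i) n) 1) +
      ∑ σ ∈ univ.erase (1 : Equiv.Perm κ), Equiv.Perm.sign σ • ∏ i, AD (K := K) ex u n (σ i) i, ?_, ?_⟩
  · rw [Equiv.Perm.sign_one, one_smul, hdiag]
    ring
  · refine LT.add ?_ (LT.sum _ _ _ fun σ hσ => ?_)
    · rw [Wt_MD ex u t n ht hn]
      refine prod_lead _ _ _ _ (fun i _ => ?_) fun i _ => hR2 i
      intro c hc
      rw [MvPolynomial.mem_support_iff, MvPolynomial.coeff_monomial] at hc
      have : Finsupp.single (t i) n = c := by
        by_contra h'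
        exact hc (if_neg h')
      rw [← this, Wt_singleD, TD_diag ex u t n ht hn]
    · rw [Finset.mem_erase] at hσ
      have h1 : LE (wD ex) (∏ i, AD (K := K) ex u n (σ i) i) (∑ i, TD ex n (rN u n (σ i) i)) :=
        LE.prod _ _ _ fun i _ => entryD (K := K) ex u n hn _ _
      have h2 : ∑ i, TD ex n (rN u n (σ i) i) < Wt (wD ex) (MD t n) := by
        rw [Wt_MD ex u t n ht hn]
        unfold TD
        rw [Finset.sum_sub_distrib, Finset.sum_sub_distrib]
        apply sub_lt_sub_left
        rw [← Finset.sum_div, ← Finset.sum_div]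
        apply div_lt_div_of_pos_right _ hn0
        have e1 : ∀ τ : Equiv.Perm κ, ∑ i, sq (rN u n (τ i) i) = ((2 * n + 1) ^ 2 + 1) * ∑ i, sq (rl (u i)) -
            2 * (2 * n + 1) * ∑ i, ∑ s, rl (u (τ i)) s * rl (u i) s := by
          intro τ
          have e2 : ∀ i, sq (rN u n (τ i) i) = (2 * n + 1) ^ 2 * sq (rl (u (τ i))) + sq (rl (u i)) -
              2 * (2 * n + 1) * ∑ s, rl (u (τ i)) s * rl (u i) s := by
            intro i
            unfold sq rN
            rw [Finset.mul_sum, Finset.mul_sum, ← Finset.sum_add_distrib, ← Finset.sum_sub_distrib]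
            exact Finset.sum_congr rfl fun s _ => by ring
          rw [Finset.sum_congr rfl fun i _ => e2 i, Finset.sum_sub_distrib, Finset.sum_add_distrib, ← Finset.mul_sum,
            ← Finset.mul_sum, Equiv.sum_comp τ fun i => sq (rl (u i))]
          ring
        have e3 : ∑ i, sq (fun s => rl (u (σ i)) s - rl (u i) s) = 2 * ∑ i, sq (rl (u i)) -
            2 * ∑ i, ∑ s, rl (u (σ i)) s * rl (u i) s := by
          have e2 : ∀ i, sq (fun s => rl (u (σ i)) s - rl (u i) s) = sq (rl (u (σ i))) + sq (rl (u i)) -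
              2 * ∑ s, rl (u (σ i)) s * rl (u i) s := by
            intro i
            unfold sq
            rw [Finset.mul_sum, ← Finset.sum_add_distrib, ← Finset.sum_sub_distrib]
            exact Finset.sum_congr rfl fun s _ => by ring
          rw [Finset.sum_congr rfl fun i _ => e2 i, Finset.sum_sub_distrib, Finset.sum_add_distrib, ← Finset.mul_sum,
            Equiv.sum_comp σ fun i => sq (rl (u i))]
          ring
        have e4 : ∑ i, ∑ s, rl (u ((1 : Equiv.Perm κ) i)) s * rl (u i) s = ∑ i, sq (rl (u i)) := by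
          refine Finset.sum_congr rfl fun i _ => ?_
          unfold sq
          exact Finset.sum_congr rfl fun s _ => by rw [Equiv.Perm.one_apply]; ring
        have hpos : 0 < ∑ i, sq (fun s => rl (u (σ i)) s - rl (u i) s) := by
          have hne : ∃ i, σ i ≠ i := by
            by_contra hcon
            push Not at hcon
            exact hσ.1 (Equiv.ext hcon)
          obtain ⟨i, hi⟩ := hne
          refine Finset.sum_pos' (fun i _ => sq_nonneg _) ⟨i, Finset.mem_univ i, ?_⟩
          have h6 : ∃ s, u (σ i) s ≠ u i s := by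
            by_contra hcon
            push Not at hcon
            exact hi (hu (Finsupp.ext hcon))
          obtain ⟨s, hs⟩ := h6
          unfold sq
          refine Finset.sum_pos' (fun s _ => _root_.sq_nonneg _) ⟨s, Finset.mem_univ s, ?_⟩
          have h7 : rl (u (σ i)) s - rl (u i) s ≠ 0 := by
            unfold rl
            refine sub_ne_zero.2 ?_
            exact_mod_cast hs
          positivity
        have h5 := e1 σ
        have h6 := e1 1
        rw [e4] at h6
        have h7 : ∑ i, sq (rN u n i i) = ∑ i, sq (rN u n ((1 : Equiv.Perm κ) i) i) := rfl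
        rw [h7, h6, h5]
        have hn1 : (0 : ℝ) < 2 * n + 1 := by linarith
        nlinarith
      rcases Int.units_eq_one_or (Equiv.Perm.sign σ) with h | h
      · rw [h, one_smul]
        exact h1.lt h2
      · rw [h, Units.neg_smul, one_smul]
        intro c hc
        rw [MvPolynomial.support_neg] at hc
        exact (h1.lt h2) c hc

end det

end Run7.h328.ORD.Dbl
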