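import Pool.Agent.Run7.h328.ORD.Dbl
import Pool.Agent.Run7.h328.ORD.PropK

/-! # Ordinary double covers over number fields -/

set_option autoImplicit false

namespace Run7.h328.ORD.Dbl

open NumberField IsDedekindDomain Finset Filter
open Run7.h328.ORD
open Pool.Agent.H921R2.TatePole (nm)
open Pool.Agent.Y722.HS (box EM)

variable {ρ : Type} [Fintype ρ] {ι : Type} [Fintype ι] [DecidableEq ι] {κ : Type} [Fintype κ] [DecidableEq κ]

/-- the polynomial with the coefficients `c` -/
noncomputable def FF {k : Type} [Field k] (ex : ι → ρ →₀ ℕ) (c : ι → k) : MvPolynomial ρ k :=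
  ∑ i, MvPolynomial.monomial (ex i) (c i)

open Classical in
/-- the Hasse-Witt matrix of the double cover `w ^ 2 = F` -/
noncomputable def HWd {k : Type} [Field k] (p : ℕ) (ex : ι → ρ →₀ ℕ) (u : κ → ρ →₀ ℕ) (c : ι → k) : Matrix κ κ k :=
  Matrix.of fun i j => if u j ≤ p • u i then MvPolynomial.coeff (p • u i - u j) (FF ex c ^ ((p - 1) / 2)) else 0

theorem eval_detD {p : ℕ} [Fact p.Prime] (ex : ι → ρ →₀ ℕ) (u : κ → ρ →₀ ℕ) (n : ℕ) (hn : p = 2 * n + 1) (r : ι → ZMod p) :
    MvPolynomial.eval r (AD (K := ZMod p) ex u n).det = (HWd p ex u r).det := by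
  classical
  rw [RingHom.map_det]
  congr 1
  ext i j
  unfold HWd AD
  rw [RingHom.mapMatrix_apply, Matrix.map_apply, Matrix.of_apply, Matrix.of_apply]
  have h4 : (p - 1) / 2 = n := by omega
  have h5 : 2 * n + 1 = p := hn.symm
  rw [h5, h4]
  split_ifs with h
  · rw [← MvPolynomial.coeff_map, map_pow]
    congr 2
    unfold genD FF
    rw [map_sum]
    refine Finset.sum_congr rfl fun i _ => ?_
    rw [MvPolynomial.map_monomial, MvPolynomial.eval_X]
  · rw [map_zero]

theorem MD_apply (t : κ → ι) (ht : Function.Injective t) (n : ℕ) (k : ι) : MD t n k = if k ∈ univ.image t then n else 0 := by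
  classical
  unfold MD
  rw [Finsupp.finsetSum_apply]
  split_ifs with h
  · rw [Finset.mem_image] at h
    obtain ⟨i, _, rfl⟩ := h
    rw [Finset.sum_eq_single i]
    · rw [Finsupp.single_eq_same]
    · intro j _ hj
      exact Finsupp.single_eq_of_ne (fun h => hj (ht h.symm))
    · intro h
      exact absurd (Finset.mem_univ _) h
  · refine Finset.sum_eq_zero fun i _ => Finsupp.single_eq_of_ne ?_
    intro h'
    exact h (Finset.mem_image.2 ⟨i, Finset.mem_univ i, h'.symm⟩)

open Classical in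
theorem count_detD {p : ℕ} [hp : Fact p.Prime] (h2 : p ≠ 2) (ex : ι → ρ →₀ ℕ) (u : κ → ρ →₀ ℕ) (t : κ → ι)
    (hex : Function.Injective ex) (hu : Function.Injective u) (ht : ∀ j, ex (t j) = 2 • u j) :
    (p : ℝ) ^ Fintype.card ι / 2 ^ Fintype.card κ ≤
      ((univ : Finset (ι → ZMod p)).filter (fun r => (HWd p ex u r).det ≠ 0)).card := by
  obtain ⟨n, hn⟩ := hp.out.odd_of_ne_two h2
  have hn1 : 0 < n := by
    have := hp.out.two_le
    omega
  have hti : Function.Injective t := by
    intro i j h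
    apply hu
    have h1 := ht i
    rw [h, ht j] at h1
    ext s
    have h3 := DFunLike.congr_fun h1 s
    rw [Finsupp.smul_apply, Finsupp.smul_apply, smul_eq_mul, smul_eq_mul] at h3
    omega
  obtain ⟨R, hR1, hR2⟩ := det_leadD (K := ZMod p) ex u t n hex hu ht hn1
  set F := (AD (K := ZMod p) ex u n).det with hF
  have hcM : F.coeff (MD t n) = 1 := by
    rw [hR1, MvPolynomial.coeff_add, MvPolynomial.coeff_monomial, if_pos rfl]
    have : R.coeff (MD t n) = 0 := by
      by_contra h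
      exact lt_irrefl _ (hR2 _ (MvPolynomial.mem_support_iff.2 h))
    rw [this, add_zero]
  have hlt : ∀ c ∈ F.support, c ≠ MD t n → Wt (wD ex) c < Wt (wD ex) (MD t n) := by
    intro c hc hne
    apply hR2
    rw [MvPolynomial.mem_support_iff] at hc ⊢
    rw [hR1, MvPolynomial.coeff_add, MvPolynomial.coeff_monomial, if_neg (fun h => hne h.symm), zero_add] at hc
    exact hc
  have hm : ∀ s, MD t n s < Fintype.card (ZMod p) := by
    intro s
    rw [MD_apply t hti, ZMod.card]
    split_ifs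
    · omega
    · omega
  have hfoot := foot' F (wD ex) (wD_pos ex) (MD t n) hm (by rw [hcM]; exact one_ne_zero) hlt
  rw [ZMod.card] at hfoot
  have hcard : Nat.card {x : ι → ZMod p // MvPolynomial.eval x F ≠ 0} =
      ((univ : Finset (ι → ZMod p)).filter (fun r => (HWd p ex u r).det ≠ 0)).card := by
    rw [Nat.card_eq_fintype_card, Fintype.card_subtype]
    congr 1
    ext r
    simp only [Finset.mem_filter, Finset.mem_univ, true_and]
    rw [hF, eval_detD ex u n hn r]
  rw [hcard] at hfoot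
  have hle : Fintype.card κ ≤ Fintype.card ι := Fintype.card_le_of_injective t hti
  have hprod : ∏ s, (p - MD t n s) = (p - n) ^ Fintype.card κ * p ^ (Fintype.card ι - Fintype.card κ) := by
    have e1 : ∀ s : ι, p - MD t n s = if s ∈ univ.image t then p - n else p := by
      intro s
      rw [MD_apply t hti]
      split_ifs
      · rfl
      · rfl
    rw [Finset.prod_congr rfl fun s _ => e1 s, Finset.prod_ite, Finset.prod_const, Finset.prod_const]
    have e2 : ((univ : Finset ι).filter (fun s => s ∈ univ.image t)).card = Fintype.card κ := by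
      rw [Finset.filter_mem_eq_inter, Finset.univ_inter, Finset.card_image_of_injective _ hti, Finset.card_univ]
    have e3 : ((univ : Finset ι).filter (fun s => ¬ s ∈ univ.image t)).card = Fintype.card ι - Fintype.card κ := by
      have := Finset.card_filter_add_card_filter_not (s := (univ : Finset ι)) (fun s => s ∈ univ.image t)
      rw [e2, Finset.card_univ] at this
      omega
    rw [e2, e3]
  rw [hprod] at hfoot
  have hfoot' : (((p - n : ℕ) : ℝ)) ^ Fintype.card κ * (p : ℝ) ^ (Fintype.card ι - Fintype.card κ) ≤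
      ((univ : Finset (ι → ZMod p)).filter (fun r => (HWd p ex u r).det ≠ 0)).card := by exact_mod_cast hfoot
  refine le_trans ?_ hfoot'
  have hp2 : (p : ℝ) / 2 ≤ ((p - n : ℕ) : ℝ) := by
    have h3 : p ≤ 2 * (p - n) := by omega
    have h4 : (p : ℝ) ≤ 2 * ((p - n : ℕ) : ℝ) := by exact_mod_cast h3
    linarith
  calc (p : ℝ) ^ Fintype.card ι / 2 ^ Fintype.card κ =
        ((p : ℝ) / 2) ^ Fintype.card κ * (p : ℝ) ^ (Fintype.card ι - Fintype.card κ) := by
        rw [div_pow]
        have : Fintype.card ι = Fintype.card κ + (Fintype.card ι - Fintype.card κ) := by omega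
        conv_lhs => rw [this, pow_add]
        ring
    _ ≤ _ := by gcongr

/-- `k` has odd characteristic and the Hasse-Witt matrix is invertible -/
def OD (ex : ι → ρ →₀ ℕ) (u : κ → ρ →₀ ℕ) (k : Type) [Field k] (c : ι → k) : Prop :=
  (2 : k) ≠ 0 ∧ (HWd (ringChar k) ex u c).det ≠ 0

theorem HWd_map {k k' : Type} [Field k] [Field k'] (e : k →+* k') (p : ℕ) (ex : ι → ρ →₀ ℕ) (u : κ → ρ →₀ ℕ) (c : ι → k) :
    HWd p ex u (fun i => e (c i)) = (HWd p ex u c).map e := by
  classical
  ext i j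
  unfold HWd
  rw [Matrix.map_apply, Matrix.of_apply, Matrix.of_apply]
  split_ifs with h
  · rw [← MvPolynomial.coeff_map, map_pow]
    congr 2
    unfold FF
    rw [map_sum]
    exact Finset.sum_congr rfl fun i _ => (MvPolynomial.map_monomial _ _ _).symm
  · rw [map_zero]

theorem OD_iso (ex : ι → ρ →₀ ℕ) (u : κ → ρ →₀ ℕ) (k k' : Type) [Field k] [Field k'] (e : k ≃+* k') (c : ι → k) :
    OD ex u k' (fun i => e (c i)) ↔ OD ex u k c := by
  have hchar : ringChar k' = ringChar k := by
    have : CharP k' (ringChar k) := by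
      constructor
      intro x
      rw [← ringChar.spec k x, ← map_natCast e, map_eq_zero_iff e e.injective]
    exact ringChar.eq k' (ringChar k)
  unfold OD
  have h1 : ((2 : k') ≠ 0) ↔ ((2 : k) ≠ 0) := by
    rw [not_iff_not, ← map_ofNat e 2, map_eq_zero_iff e e.injective]
  rw [h1, hchar]
  have h3 : (fun i => e (c i)) = fun i => (e : k →+* k') (c i) := rfl
  rw [h3, HWd_map]
  have h4 := RingHom.map_det (e : k →+* k') (HWd (ringChar k) ex u c)
  rw [RingHom.mapMatrix_apply] at h4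
  rw [← h4]
  have h5 : ((e : k →+* k') (HWd (ringChar k) ex u c).det ≠ 0) ↔ ((HWd (ringChar k) ex u c).det ≠ 0) :=
    map_ne_zero_iff _ e.injective
  rw [h5]

theorem OD_count (ex : ι → ρ →₀ ℕ) (u : κ → ρ →₀ ℕ) (t : κ → ι)
    (hex : Function.Injective ex) (hu : Function.Injective u) (ht : ∀ j, ex (t j) = 2 • u j) (q : ℕ) (hq : q.Prime) :
    (1 / 2 : ℝ) ^ Fintype.card κ - 2 / q ≤ dg (OD ex u) q := by
  classical
  have := Fact.mk hq
  have hq0 : (0 : ℝ) < q := by exact_mod_cast hq.pos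
  by_cases h2 : q = 2
  · have h1 := (dg_mem (OD ex u) q).1
    have h3 : (1 / 2 : ℝ) ^ Fintype.card κ ≤ 1 := pow_le_one₀ (by norm_num) (by norm_num)
    have h4 : (2 : ℝ) / q = 1 := by
      rw [h2]
      norm_num
    rw [h4]
    linarith
  · have h1 := count_detD h2 ex u t hex hu ht
    have h5 : (1 / 2 : ℝ) ^ Fintype.card κ ≤ dg (OD ex u) q := by
      unfold dg
      rw [dif_pos hq]
      unfold EM
      rw [Finset.sum_boole, le_div_iff₀ (by positivity)]
      have h6 : (1 / 2 : ℝ) ^ Fintype.card κ * (q : ℝ) ^ Fintype.card ι = (q : ℝ) ^ Fintype.card ι / 2 ^ Fintype.card κ := by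
        rw [one_div_pow]
        ring
      rw [h6]
      refine h1.trans (le_of_eq ?_)
      congr 2
      ext r
      simp only [Finset.mem_filter, Finset.mem_univ, true_and]
      unfold OD
      have h7 : ringChar (ZMod q) = q := ringChar.eq (ZMod q) q |>.symm ▸ rfl
      have h8 : (2 : ZMod q) ≠ 0 := by
        intro h
        have h9 : ((2 : ℕ) : ZMod q) = 0 := by exact_mod_cast h
        rw [ZMod.natCast_eq_zero_iff] at h9
        exact h2 ((Nat.prime_dvd_prime_iff_eq hq Nat.prime_two).mp h9)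
      rw [h7]
      exact ⟨fun h => ⟨h8, h⟩, fun h => h.2⟩
    have h6 : (0 : ℝ) ≤ 2 / q := by positivity
    linarith

/-- **Ordinary double covers.** -/
theorem dblK (ex : ι → ρ →₀ ℕ) (u : κ → ρ →₀ ℕ) (t : κ → ι)
    (hex : Function.Injective ex) (hu : Function.Injective u) (ht : ∀ j, ex (t j) = 2 • u j) (d : ℕ) :
    ∃ C : ℝ, 0 < C ∧ ∀ ε : ℝ, 0 < ε → ε ≤ 1 → ∀ᶠ H : ℕ in Filter.atTop,
    ∀ (K : Type) [Field K] [NumberField K], Module.finrank ℚ K = d → ∀ α : ι → 𝓞 K,
    ∀ 𝒮 : Finset (Set (HeightOneSpectrum (𝓞 K))), (𝒮.card : ℝ) ≤ (H : ℝ) ^ (ε / 500) →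
    ∃ Ex ⊆ box ι H, (Ex.card : ℝ) ≤ (H : ℝ) ^ (-(ε / 500)) * (box ι H).card ∧
      ∀ c ∈ box ι H \ Ex, ∀ S ∈ 𝒮, ∀ X : ℕ, (X : ℝ) ≤ (H : ℝ) ^ (ε / 200) →
        (1 / 2 : ℝ) ^ Fintype.card κ * Nat.card {v : HeightOneSpectrum (𝓞 K) // v ∈ S ∧ nm v ≤ X} -
          C * ((X : ℝ) ^ (1 / 2 + ε) + Real.log H ^ (4 / ε)) ≤
        Nat.card {v : HeightOneSpectrum (𝓞 K) // (v ∈ S ∧ nm v ≤ X) ∧
          OD ex u (𝓞 K ⧸ v.asIdeal) (rvg v (fun i => α i + (c i : 𝓞 K)))} :=
  propK (fun k _ c => OD ex u k c) d ((1 / 2 : ℝ) ^ Fintype.card κ) 2 (pow_le_one₀ (by norm_num) (by norm_num)) (by norm_num)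
    (fun k k' _ _ e c => OD_iso ex u k k' e c) (fun q hq => OD_count ex u t hex hu ht q hq)

end Run7.h328.ORD.Dbl
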