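import Pool.Agent.Run7.h328.ORD.Lead
import Pool.Agent.Run7.h328.SEP.HypQ

/-! # Many ordinary curves -/

set_option autoImplicit false

namespace Run7.h328.ORD

open Finset
open Pool.Agent.Y722.HS (EM)
open Pool.Agent.Y57.FD.HM (pol bad_card)

section det
variable {K : Type} [Field K] (g n : ℕ)

theorem LE.neg {σ : Type} [Fintype σ] {w : σ → ℝ} {P : MvPolynomial σ K} {t : ℝ} (h : LE w P t) : LE w (-P) t := by
  intro c hc
  rw [MvPolynomial.support_neg] at hc
  exact h c hc

/-- the index `2 (i + 1)` -/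
def ki (i : Fin g) : Fin (2 * g + 1) := ⟨2 * ((i : ℕ) + 1), by omega⟩

theorem ki_inj : Function.Injective (ki g) := by
  intro i j h
  have := congrArg Fin.val h
  unfold ki at this
  simp only at this
  exact Fin.ext (by omega)

/-- the matrix of the general curve -/
noncomputable def AM : Matrix (Fin g) (Fin g) (MvPolynomial (Fin (2 * g + 1)) K) :=
  Matrix.of fun i j => (gen (K := K) g ^ n).coeff (((i : ℕ) + 1) * (2 * n + 1) - ((j : ℕ) + 1))

/-- the exponents of the leading monomial -/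
noncomputable def MM : Fin (2 * g + 1) →₀ ℕ := ∑ i : Fin g, Finsupp.single (ki g i) n

theorem Wt_single (k : Fin (2 * g + 1)) (m : ℕ) : Wt (ww g) (Finsupp.single k m) = ww g k * m := by
  unfold Wt
  rw [Finset.sum_eq_single k]
  · rw [Finsupp.single_eq_same]
  · intro j _ hj
    rw [Finsupp.single_eq_of_ne hj, Nat.cast_zero, mul_zero]
  · intro h
    exact absurd (Finset.mem_univ _) h

theorem TT_eq (hn : 0 < n) (k : Fin (2 * g + 1)) : TT g n (n * (k : ℕ)) = ww g k * n := by
  have hn0 : (n : ℝ) ≠ 0 := by exact_mod_cast hn.ne'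
  unfold TT ww
  push_cast
  field_simp

theorem Wt_MM (hn : 0 < n) : Wt (ww g) (MM g n) = ∑ i : Fin g, TT g n (n * (ki g i : ℕ)) := by
  have h1 : ∀ s : Finset (Fin g), Wt (ww g) (∑ i ∈ s, Finsupp.single (ki g i) n : Fin (2 * g + 1) →₀ ℕ) =
      ∑ i ∈ s, TT g n (n * (ki g i : ℕ)) := by
    intro s
    induction s using Finset.induction_on with
    | empty =>
      unfold Wt
      simp
    | insert a s ha ih =>
      rw [Finset.sum_insert ha, Finset.sum_insert ha, Wt_addf, ih, Wt_single, TT_eq g n hn]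
  exact h1 univ

/-- **The leading monomial of the determinant.** -/
theorem det_lead (hn : 0 < n) (hg : g < 2 * n + 1) : ∃ R : MvPolynomial (Fin (2 * g + 1)) K,
    (AM (K := K) g n).det = MvPolynomial.monomial (MM g n) 1 + R ∧ LT (ww g) R (Wt (ww g) (MM g n)) := by
  classical
  have hn0 : (0 : ℝ) < n := by exact_mod_cast hn
  have hch : ∀ i : Fin g, ∃ R : MvPolynomial (Fin (2 * g + 1)) K,
      AM (K := K) g n i i = MvPolynomial.monomial (Finsupp.single (ki g i) n) 1 + R ∧ LT (ww g) R (TT g n (n * (ki g i : ℕ))) := by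
    intro i
    obtain ⟨R, h1, h2⟩ := entry_diag (K := K) g n hn (ki g i)
    refine ⟨R, ?_, h2⟩
    rw [← h1]
    unfold AM
    rw [Matrix.of_apply]
    congr 1
    unfold ki
    simp only
    have : ((i : ℕ) + 1) * (2 * n + 1) = n * (2 * ((i : ℕ) + 1)) + ((i : ℕ) + 1) := by ring
    omega
  choose R hR1 hR2 using hch
  rw [Matrix.det_apply, ← Finset.add_sum_erase _ _ (Finset.mem_univ (1 : Equiv.Perm (Fin g)))]
  have hdiag : ∏ i, AM (K := K) g n ((1 : Equiv.Perm (Fin g)) i) i =
      MvPolynomial.monomial (MM g n) 1 + (∏ i, (MvPolynomial.monomial (Finsupp.single (ki g i) n) 1 + R i) -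
        ∏ i, MvPolynomial.monomial (Finsupp.single (ki g i) n) 1) := by
    have e1 : ∏ i, AM (K := K) g n ((1 : Equiv.Perm (Fin g)) i) i =
        ∏ i, (MvPolynomial.monomial (Finsupp.single (ki g i) n) 1 + R i) :=
      Finset.prod_congr rfl fun i _ => hR1 i
    have e2 : (MvPolynomial.monomial (MM g n) 1 : MvPolynomial (Fin (2 * g + 1)) K) =
        ∏ i, MvPolynomial.monomial (Finsupp.single (ki g i) n) 1 := by
      unfold MM
      rw [MvPolynomial.monomial_sum_one]
    rw [e1, e2]
    ring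
  refine ⟨(∏ i, (MvPolynomial.monomial (Finsupp.single (ki g i) n) 1 + R i) -
        ∏ i, MvPolynomial.monomial (Finsupp.single (ki g i) n) 1) +
      ∑ σ ∈ univ.erase (1 : Equiv.Perm (Fin g)), Equiv.Perm.sign σ • ∏ i, AM (K := K) g n (σ i) i, ?_, ?_⟩
  · rw [Equiv.Perm.sign_one, one_smul, hdiag]
    ring
  · refine LT.add ?_ (LT.sum _ _ _ fun σ hσ => ?_)
    · rw [Wt_MM g n hn]
      refine prod_lead _ _ _ _ (fun i _ => ?_) fun i _ => hR2 i
      intro c hc
      rw [MvPolynomial.mem_support_iff, MvPolynomial.coeff_monomial] at hc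
      have : Finsupp.single (ki g i) n = c := by
        by_contra h'
        exact hc (if_neg h')
      rw [← this, Wt_single, TT_eq g n hn]
    · rw [Finset.mem_erase] at hσ
      have h1 : LE (ww g) (∏ i, AM (K := K) g n (σ i) i) (∑ i, TT g n ((((σ i : Fin g) : ℕ) + 1) * (2 * n + 1) - ((i : ℕ) + 1))) :=
        LE.prod _ _ _ fun i _ => entry_le (K := K) g n hn _
      have h2 : ∑ i, TT g n ((((σ i : Fin g) : ℕ) + 1) * (2 * n + 1) - ((i : ℕ) + 1)) < Wt (ww g) (MM g n) := by
        rw [Wt_MM g n hn]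
        unfold TT
        rw [Finset.sum_sub_distrib, Finset.sum_sub_distrib]
        apply sub_lt_sub_left
        rw [← Finset.sum_div, ← Finset.sum_div]
        apply div_lt_div_of_pos_right _ hn0
        have e1 : ∀ i : Fin g, (((((σ i : Fin g) : ℕ) + 1) * (2 * n + 1) - ((i : ℕ) + 1) : ℕ) : ℝ) ^ 2 =
            (2 * n + 1) ^ 2 * ((((σ i : Fin g) : ℕ) : ℝ) + 1) ^ 2 + (((i : ℕ) : ℝ) + 1) ^ 2 -
              2 * (2 * n + 1) * (((((σ i : Fin g) : ℕ) : ℝ) + 1) * (((i : ℕ) : ℝ) + 1)) := by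
          intro i
          have hle : (i : ℕ) + 1 ≤ (((σ i : Fin g) : ℕ) + 1) * (2 * n + 1) := by
            have h3 : (i : ℕ) + 1 ≤ g := i.2
            have h4 : 2 * n + 1 ≤ (((σ i : Fin g) : ℕ) + 1) * (2 * n + 1) := Nat.le_mul_of_pos_left _ (Nat.succ_pos _)
            omega
          rw [Nat.cast_sub hle]
          push_cast
          ring
        have e2 : ∀ i : Fin g, (((n * (ki g i : ℕ) : ℕ)) : ℝ) ^ 2 = (2 * n) ^ 2 * (((i : ℕ) : ℝ) + 1) ^ 2 := by
          intro i
          unfold ki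
          push_cast
          ring
        have e3 : ∑ i : Fin g, ((((σ i : Fin g) : ℕ) : ℝ) + 1) ^ 2 = ∑ i : Fin g, (((i : ℕ) : ℝ) + 1) ^ 2 :=
          Equiv.sum_comp σ fun i : Fin g => (((i : ℕ) : ℝ) + 1) ^ 2
        have e4 : ∑ i : Fin g, ((((σ i : Fin g) : ℕ) : ℝ) - ((i : ℕ) : ℝ)) ^ 2 =
            2 * ∑ i : Fin g, (((i : ℕ) : ℝ) + 1) ^ 2 -
              2 * ∑ i : Fin g, (((((σ i : Fin g) : ℕ) : ℝ) + 1) * (((i : ℕ) : ℝ) + 1)) := by
          have e5 : ∀ i : Fin g, ((((σ i : Fin g) : ℕ) : ℝ) - ((i : ℕ) : ℝ)) ^ 2 =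
              ((((σ i : Fin g) : ℕ) : ℝ) + 1) ^ 2 + (((i : ℕ) : ℝ) + 1) ^ 2 -
                2 * (((((σ i : Fin g) : ℕ) : ℝ) + 1) * (((i : ℕ) : ℝ) + 1)) := by
            intro i
            ring
          rw [Finset.sum_congr rfl fun i _ => e5 i, Finset.sum_sub_distrib, Finset.sum_add_distrib, e3, ← Finset.mul_sum]
          ring
        have hpos : 0 < ∑ i : Fin g, ((((σ i : Fin g) : ℕ) : ℝ) - ((i : ℕ) : ℝ)) ^ 2 := by
          have h3 : ∃ i, σ i ≠ i := by
            by_contra hcon
            push Not at hcon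
            exact hσ.1 (Equiv.ext hcon)
          obtain ⟨i, hi⟩ := h3
          refine Finset.sum_pos' (fun i _ => sq_nonneg _) ⟨i, Finset.mem_univ i, ?_⟩
          have h4 : (((σ i : Fin g) : ℕ) : ℝ) - ((i : ℕ) : ℝ) ≠ 0 := by
            intro h
            apply hi
            have h5 : (((σ i : Fin g) : ℕ) : ℝ) = ((i : ℕ) : ℝ) := by linarith
            exact Fin.ext (by exact_mod_cast h5)
          positivity
        rw [Finset.sum_congr rfl fun i _ => e1 i, Finset.sum_congr rfl fun i _ => e2 i, Finset.sum_sub_distrib,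
          Finset.sum_add_distrib, ← Finset.mul_sum, ← Finset.mul_sum, ← Finset.mul_sum, e3]
        have h6 : 0 < (2 * (n : ℝ) + 1) * ∑ i : Fin g, ((((σ i : Fin g) : ℕ) : ℝ) - ((i : ℕ) : ℝ)) ^ 2 := by positivity
        rw [e4] at h6
        nlinarith
      rcases Int.units_eq_one_or (Equiv.Perm.sign σ) with h | h
      · rw [h, one_smul]
        exact h1.lt h2
      · rw [h, Units.neg_smul, one_smul]
        exact h1.neg.lt h2

end det


/-- the Hasse-Witt matrix of `y ^ 2 = x ^ (2 g + 1) + ∑ c_i x ^ i` in the characteristic `p` -/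
noncomputable def HW {k : Type} [Field k] (p : ℕ) {g : ℕ} (c : Fin (2 * g + 1) → k) : Matrix (Fin g) (Fin g) k :=
  Matrix.of fun i j => if (j : ℕ) + 1 ≤ ((i : ℕ) + 1) * p then
    ((Polynomial.X ^ (2 * g + 1) + ∑ i, Polynomial.C (c i) * Polynomial.X ^ (i : ℕ) : Polynomial k) ^ ((p - 1) / 2)).coeff
      (((i : ℕ) + 1) * p - ((j : ℕ) + 1)) else 0

section count
variable (g : ℕ) (p : ℕ) [hp : Fact p.Prime]

/-- good ordinary reduction -/
def Op (r : Fin (2 * g + 1) → ZMod p) : Prop := p ≠ 2 ∧ (pol p r).Separable ∧ (HW p r).det ≠ 0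

theorem MM_apply (n : ℕ) (k : Fin (2 * g + 1)) : MM g n k = if k ∈ univ.image (ki g) then n else 0 := by
  classical
  unfold MM
  rw [Finsupp.finset_sum_apply]
  split_ifs with h
  · rw [Finset.mem_image] at h
    obtain ⟨i, _, rfl⟩ := h
    rw [Finset.sum_eq_single i]
    · rw [Finsupp.single_eq_same]
    · intro j _ hj
      exact Finsupp.single_eq_of_ne (fun h => hj (ki_inj g h.symm))
    · intro h
      exact absurd (Finset.mem_univ _) h
  · refine Finset.sum_eq_zero fun i _ => Finsupp.single_eq_of_ne ?_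
    intro h'
    exact h (Finset.mem_image.2 ⟨i, Finset.mem_univ i, h'.symm⟩)

theorem eval_det (n : ℕ) (hn : p = 2 * n + 1) (hg : g < p) (r : Fin (2 * g + 1) → ZMod p) :
    MvPolynomial.eval r (AM (K := ZMod p) g n).det = (HW p r).det := by
  rw [RingHom.map_det]
  congr 1
  ext i j
  unfold HW AM
  rw [RingHom.mapMatrix_apply, Matrix.map_apply, Matrix.of_apply, Matrix.of_apply]
  have h1 : (j : ℕ) + 1 ≤ ((i : ℕ) + 1) * p := by
    have h2 : (j : ℕ) + 1 ≤ g := j.2
    have h3 : p ≤ ((i : ℕ) + 1) * p := Nat.le_mul_of_pos_left _ (Nat.succ_pos _)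
    omega
  have h4 : (p - 1) / 2 = n := by omega
  have h5 : 2 * n + 1 = p := hn.symm
  rw [if_pos h1, h4, h5, ← Polynomial.coeff_map, Polynomial.map_pow]
  congr 2
  unfold gen
  simp only [Polynomial.map_add, Polynomial.map_pow, Polynomial.map_X, Polynomial.map_sum, Polynomial.map_mul,
    Polynomial.map_C, MvPolynomial.eval_X]

open Classical in
theorem count_det (hpg : g < p) (h2 : p ≠ 2) :
    (p : ℝ) ^ (2 * g + 1) / 2 ^ g ≤ ((univ : Finset (Fin (2 * g + 1) → ZMod p)).filter (fun r => (HW p r).det ≠ 0)).card := by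
  obtain ⟨n, hn⟩ := hp.out.odd_of_ne_two h2
  have hn1 : 0 < n := by
    have := hp.out.two_le
    omega
  obtain ⟨R, hR1, hR2⟩ := det_lead (K := ZMod p) g n hn1 (by omega)
  set F := (AM (K := ZMod p) g n).det with hF
  have hcM : F.coeff (MM g n) = 1 := by
    rw [hR1, MvPolynomial.coeff_add, MvPolynomial.coeff_monomial, if_pos rfl]
    have : R.coeff (MM g n) = 0 := by
      by_contra h
      exact lt_irrefl _ (hR2 _ (MvPolynomial.mem_support_iff.2 h))
    rw [this, add_zero]
  have hlt : ∀ c ∈ F.support, c ≠ MM g n → Wt (ww g) c < Wt (ww g) (MM g n) := by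
    intro c hc hne
    apply hR2
    rw [MvPolynomial.mem_support_iff] at hc ⊢
    rw [hR1, MvPolynomial.coeff_add, MvPolynomial.coeff_monomial, if_neg (fun h => hne h.symm), zero_add] at hc
    exact hc
  have hm : ∀ s, MM g n s < Fintype.card (ZMod p) := by
    intro s
    rw [MM_apply, ZMod.card]
    split_ifs
    · omega
    · omega
  have hfoot := foot' F (ww g) (ww_pos g) (MM g n) hm (by rw [hcM]; exact one_ne_zero) hlt
  rw [ZMod.card] at hfoot
  have hcard : Nat.card {x : Fin (2 * g + 1) → ZMod p // MvPolynomial.eval x F ≠ 0} =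
      ((univ : Finset (Fin (2 * g + 1) → ZMod p)).filter (fun r => (HW p r).det ≠ 0)).card := by
    rw [Nat.card_eq_fintype_card, Fintype.card_subtype]
    congr 1
    ext r
    simp only [Finset.mem_filter, Finset.mem_univ, true_and]
    rw [hF, eval_det g p n hn hpg r]
  rw [hcard] at hfoot
  have hprod : ∏ s, (p - MM g n s) = (p - n) ^ g * p ^ (g + 1) := by
    have e1 : ∀ s : Fin (2 * g + 1), p - MM g n s = if s ∈ univ.image (ki g) then p - n else p := by
      intro s
      rw [MM_apply]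
      split_ifs
      · rfl
      · rfl
    rw [Finset.prod_congr rfl fun s _ => e1 s, Finset.prod_ite, Finset.prod_const, Finset.prod_const]
    have e2 : ((univ : Finset (Fin (2 * g + 1))).filter (fun s => s ∈ univ.image (ki g))).card = g := by
      rw [Finset.filter_mem_eq_inter, Finset.univ_inter, Finset.card_image_of_injective _ (ki_inj g), Finset.card_univ,
        Fintype.card_fin]
    have e3 : ((univ : Finset (Fin (2 * g + 1))).filter (fun s => ¬ s ∈ univ.image (ki g))).card = g + 1 := by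
      have := Finset.card_filter_add_card_filter_not (s := (univ : Finset (Fin (2 * g + 1)))) (fun s => s ∈ univ.image (ki g))
      rw [e2, Finset.card_univ, Fintype.card_fin] at this
      omega
    rw [e2, e3]
  rw [hprod] at hfoot
  have hfoot' : (((p - n : ℕ) : ℝ)) ^ g * (p : ℝ) ^ (g + 1) ≤
      ((univ : Finset (Fin (2 * g + 1) → ZMod p)).filter (fun r => (HW p r).det ≠ 0)).card := by exact_mod_cast hfoot
  refine le_trans ?_ hfoot'
  have hp2 : (p : ℝ) / 2 ≤ ((p - n : ℕ) : ℝ) := by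
    have h3 : p ≤ 2 * (p - n) := by omega
    have h4 : (p : ℝ) ≤ 2 * ((p - n : ℕ) : ℝ) := by exact_mod_cast h3
    linarith
  calc (p : ℝ) ^ (2 * g + 1) / 2 ^ g = ((p : ℝ) / 2) ^ g * (p : ℝ) ^ (g + 1) := by
        rw [div_pow]
        have : 2 * g + 1 = g + (g + 1) := by ring
        rw [this, pow_add]
        ring
    _ ≤ _ := by gcongr

open Classical in
/-- **At least the proportion `2 ^ (-g)` of the curves is ordinary.** -/
theorem EM_ord : (1 / 2 : ℝ) ^ g - (2 * g + 2) / p ≤
    EM p (fun r : Fin (2 * g + 1) → ZMod p => if Op g p r then (1 : ℝ) else 0) := by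
  have hp0 : (0 : ℝ) < p := by exact_mod_cast hp.out.pos
  have hEM0 : 0 ≤ EM p (fun r : Fin (2 * g + 1) → ZMod p => if Op g p r then (1 : ℝ) else 0) := by
    unfold EM
    apply div_nonneg _ (by positivity)
    exact Finset.sum_nonneg fun r _ => by split_ifs <;> norm_num
  by_cases hsmall : p ≤ 2 * g + 2
  · have h1 : (1 : ℝ) ≤ (2 * g + 2) / p := by
      rw [le_div_iff₀ hp0, one_mul]
      exact_mod_cast hsmall
    have h2 : (1 / 2 : ℝ) ^ g ≤ 1 := pow_le_one₀ (by norm_num) (by norm_num)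
    linarith
  · push Not at hsmall
    have h2 : p ≠ 2 := by omega
    have h1 := count_det g p (by omega) h2
    have h3 := bad_card p (g := g) (by omega)
    have h4 : ((univ : Finset (Fin (2 * g + 1) → ZMod p)).filter (fun r => (HW p r).det ≠ 0)).card ≤
        ((univ : Finset (Fin (2 * g + 1) → ZMod p)).filter (fun r => Op g p r)).card +
          ((univ : Finset (Fin (2 * g + 1) → ZMod p)).filter (fun u => ¬ (pol p u).Separable)).card := by
      refine le_trans (Finset.card_le_card ?_) (Finset.card_union_le _ _)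
      intro r hr
      rw [Finset.mem_filter] at hr
      rw [Finset.mem_union, Finset.mem_filter, Finset.mem_filter]
      by_cases hs : (pol p r).Separable
      · exact Or.inl ⟨Finset.mem_univ _, h2, hs, hr.2⟩
      · exact Or.inr ⟨Finset.mem_univ _, hs⟩
    unfold EM
    rw [Finset.sum_boole, Fintype.card_fin, le_div_iff₀ (by positivity)]
    have h5 : (((univ : Finset (Fin (2 * g + 1) → ZMod p)).filter (fun r => (HW p r).det ≠ 0)).card : ℝ) ≤
        ((univ : Finset (Fin (2 * g + 1) → ZMod p)).filter (fun r => Op g p r)).card +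
          (2 * g + 1) * (p : ℝ) ^ (2 * g) := by
      have h6 := h4.trans (Nat.add_le_add_left h3 _)
      exact_mod_cast h6
    have h6 : ((1 / 2 : ℝ) ^ g - (2 * g + 2) / p) * (p : ℝ) ^ (2 * g + 1) =
        (p : ℝ) ^ (2 * g + 1) / 2 ^ g - (2 * g + 2) * (p : ℝ) ^ (2 * g) := by
      rw [sub_mul, one_div_pow, pow_succ (p : ℝ) (2 * g)]
      field_simp
    have h7 : 0 ≤ (p : ℝ) ^ (2 * g) := by positivity
    rw [h6]
    linarith

end count

end Run7.h328.ORD
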