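import Pool.Agent.Run7.h328.ORD.Fun

/-! # The Hasse-Witt determinants of elliptic surfaces in Weierstrass form -/

set_option autoImplicit false

namespace Run7.h328.ORD.Ell

open Finset
open Run7.h328.ORD Run7.h328.ORD.Fn

/-- exponents in two variables -/
noncomputable def E2 (i j : ℕ) : Fin 2 →₀ ℕ := Finsupp.single 0 i + Finsupp.single 1 j

@[simp] theorem E2_zero (i j : ℕ) : E2 i j 0 = i := by
  unfold E2
  simp

@[simp] theorem E2_one (i j : ℕ) : E2 i j 1 = j := by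
  unfold E2
  simp

theorem ext2 {a b : Fin 2 →₀ ℕ} (h0 : a 0 = b 0) (h1 : a 1 = b 1) : a = b := by
  ext s
  fin_cases s
  · exact h0
  · exact h1

variable (n ℓ τ : ℕ)

/-- the variables -/
abbrev Vr := Fin (4 * n + 1) ⊕ Fin (6 * n + 1)

/-- the atoms -/
abbrev At := Option (Vr n)

/-- the exponents of the atoms -/
noncomputable def ex : At n → Fin 2 →₀ ℕ
  | none => E2 3 0
  | some (Sum.inl t) => E2 1 t
  | some (Sum.inr t) => E2 0 t

/-- the coefficients -/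
def co {R : Type} [One R] (c : Vr n → R) : At n → R
  | none => 1
  | some s => c s

/-- the points of the matrix -/
noncomputable def uu (u : Ico 1 n) : Fin 2 →₀ ℕ := E2 1 u.1

/-- the constant -/
noncomputable def W : ℝ := 36 * (n : ℝ) ^ 2 + 1

/-- the weights -/
noncomputable def w : Vr n → ℝ
  | Sum.inl t => 4 * W n - 1 - 3 * ((t : ℕ) : ℝ) ^ 2
  | Sum.inr t => 6 * W n - 2 * ((t : ℕ) : ℝ) ^ 2

theorem w_pos (t : Vr n) : 0 < w n t := by
  rcases t with t | t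
  · show (0 : ℝ) < 4 * W n - 1 - 3 * ((t : ℕ) : ℝ) ^ 2
    unfold W
    have h1 : ((t : ℕ) : ℝ) ≤ 4 * n := by exact_mod_cast Nat.lt_succ_iff.1 t.2
    have h2 : (0 : ℝ) ≤ ((t : ℕ) : ℝ) := Nat.cast_nonneg _
    have h3 : ((t : ℕ) : ℝ) ^ 2 ≤ (4 * (n : ℝ)) ^ 2 := by gcongr
    nlinarith [sq_nonneg (n : ℝ)]
  · show (0 : ℝ) < 6 * W n - 2 * ((t : ℕ) : ℝ) ^ 2
    unfold W
    have h1 : ((t : ℕ) : ℝ) ≤ 6 * n := by exact_mod_cast Nat.lt_succ_iff.1 t.2
    have h2 : (0 : ℝ) ≤ ((t : ℕ) : ℝ) := Nat.cast_nonneg _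
    have h3 : ((t : ℕ) : ℝ) ^ 2 ≤ (6 * (n : ℝ)) ^ 2 := by gcongr
    nlinarith [sq_nonneg (n : ℝ)]

/-- the weights of the atoms -/
noncomputable def om : At n → ℝ
  | none => 0
  | some t => w n t

/-- the constants -/
noncomputable def cc (r : ℕ) : ℝ := 2 * W n + 24 * (r : ℝ) ^ 2

/-- the slopes -/
noncomputable def gg (r : ℕ) : Fin 2 → ℝ := ![-(cc n r), -(24 * (r : ℝ))]

theorem Lf_E2 (r : ℕ) (i j : ℕ) : Lf (3 * cc n r) (gg n r) (E2 i j) = 3 * cc n r - cc n r * i - 24 * r * j := by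
  unfold Lf gg
  rw [Fin.sum_univ_two]
  simp only [Matrix.cons_val_zero, Matrix.cons_val_one, E2_zero, E2_one]
  ring

theorem D_none (r : ℕ) : Lf (3 * cc n r) (gg n r) (ex n none) - om n none = 0 := by
  show Lf (3 * cc n r) (gg n r) (E2 3 0) - 0 = 0
  rw [Lf_E2]
  push_cast
  ring

theorem D_inl (r : ℕ) (t : Fin (4 * n + 1)) : Lf (3 * cc n r) (gg n r) (ex n (some (Sum.inl t))) - om n (some (Sum.inl t)) =
    1 + 3 * (((t : ℕ) : ℝ) - 4 * r) ^ 2 := by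
  show Lf (3 * cc n r) (gg n r) (E2 1 t) - (4 * W n - 1 - 3 * ((t : ℕ) : ℝ) ^ 2) = _
  rw [Lf_E2]
  unfold cc
  push_cast
  ring

theorem D_inr (r : ℕ) (t : Fin (6 * n + 1)) : Lf (3 * cc n r) (gg n r) (ex n (some (Sum.inr t))) - om n (some (Sum.inr t)) =
    2 * (((t : ℕ) : ℝ) - 6 * r) ^ 2 := by
  show Lf (3 * cc n r) (gg n r) (E2 0 t) - (6 * W n - 2 * ((t : ℕ) : ℝ) ^ 2) = _
  rw [Lf_E2]
  unfold cc
  push_cast
  ring

theorem sum_At {A : Type} [AddCommMonoid A] (f : At n → A) :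
    ∑ a, f a = f none + (∑ t, f (some (Sum.inl t)) + ∑ t, f (some (Sum.inr t))) := by
  rw [Fintype.sum_option, Fintype.sum_sum_type]

/-- the index of `A` -/
def ia (u : Ico 1 n) : Fin (4 * n + 1) := ⟨4 * u.1, by have := (Finset.mem_Ico.1 u.2).2; omega⟩
/-- the index of `B` -/
def ib (u : Ico 1 n) : Fin (6 * n + 1) := ⟨6 * u.1, by have := (Finset.mem_Ico.1 u.2).2; omega⟩

/-- the exponents of the leading term -/
def e0 (u : Ico 1 n) : At n → ℕ
  | none => 2 * ℓ + τ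
  | some (Sum.inl t) => if t = ia n u then τ else 0
  | some (Sum.inr t) => if t = ib n u then ℓ else 0

/-- membership in the set of exponents, in coordinates -/
theorem mem_EE2 (k : ℕ) (N : Fin 2 →₀ ℕ) (e : At n → ℕ) : e ∈ EE (ex n) k N ↔
    (e none + (∑ t, e (some (Sum.inl t)) + ∑ t, e (some (Sum.inr t))) = k) ∧
    (3 * e none + ∑ t, e (some (Sum.inl t)) = N 0) ∧
    (∑ t : Fin (4 * n + 1), (t : ℕ) * e (some (Sum.inl t)) + ∑ t : Fin (6 * n + 1), (t : ℕ) * e (some (Sum.inr t)) = N 1) := by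
  rw [mem_EE, sum_At, sum_At]
  have h0 : (e none • ex n none + (∑ t, e (some (Sum.inl t)) • ex n (some (Sum.inl t)) +
      ∑ t, e (some (Sum.inr t)) • ex n (some (Sum.inr t)))) 0 = 3 * e none + ∑ t, e (some (Sum.inl t)) := by
    rw [Finsupp.add_apply, Finsupp.add_apply, Finsupp.finsetSum_apply, Finsupp.finsetSum_apply]
    simp only [Finsupp.smul_apply, ex, E2_zero, smul_eq_mul, mul_zero, mul_one, Finset.sum_const_zero, add_zero]
    rw [mul_comm]
  have h1 : (e none • ex n none + (∑ t, e (some (Sum.inl t)) • ex n (some (Sum.inl t)) +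
      ∑ t, e (some (Sum.inr t)) • ex n (some (Sum.inr t)))) 1 =
      ∑ t : Fin (4 * n + 1), (t : ℕ) * e (some (Sum.inl t)) + ∑ t : Fin (6 * n + 1), (t : ℕ) * e (some (Sum.inr t)) := by
    rw [Finsupp.add_apply, Finsupp.add_apply, Finsupp.finsetSum_apply, Finsupp.finsetSum_apply]
    simp only [Finsupp.smul_apply, ex, E2_one, smul_eq_mul, mul_zero, zero_add]
    congr 1
    · exact Finset.sum_congr rfl fun s _ => mul_comm _ _
    · exact Finset.sum_congr rfl fun s _ => mul_comm _ _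
  constructor
  · rintro ⟨h, h'⟩
    refine ⟨h, ?_, ?_⟩
    · rw [← h', h0]
    · rw [← h', h1]
  · rintro ⟨h, h', h''⟩
    refine ⟨h, ?_⟩
    apply ext2
    · rw [h0, h']
    · rw [h1, h'']

theorem uu_sub (u v : Ico 1 n) (p : ℕ) : (p • uu n u - uu n v : Fin 2 →₀ ℕ) = E2 (p * 1 - 1) (p * u.1 - v.1) := by
  apply ext2
  · rw [Finsupp.tsub_apply, Finsupp.smul_apply, smul_eq_mul]
    unfold uu
    rw [E2_zero, E2_zero, E2_zero]
  · rw [Finsupp.tsub_apply, Finsupp.smul_apply, smul_eq_mul]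
    unfold uu
    rw [E2_one, E2_one, E2_one]

theorem sum_a {A : Type} [AddCommMonoid A] (u : Ico 1 n) (f : Fin (4 * n + 1) → ℕ → A) (hf : ∀ t, f t 0 = 0) :
    ∑ t, f t (e0 n ℓ τ u (some (Sum.inl t))) = f (ia n u) τ := by
  rw [Finset.sum_eq_single (ia n u)]
  · show f _ (if ia n u = ia n u then τ else 0) = _
    rw [if_pos rfl]
  · intro t _ h
    show f _ (if t = ia n u then τ else 0) = _
    rw [if_neg h, hf]
  · intro h
    exact absurd (Finset.mem_univ _) h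

theorem sum_b {A : Type} [AddCommMonoid A] (u : Ico 1 n) (f : Fin (6 * n + 1) → ℕ → A) (hf : ∀ t, f t 0 = 0) :
    ∑ t, f t (e0 n ℓ τ u (some (Sum.inr t))) = f (ib n u) ℓ := by
  rw [Finset.sum_eq_single (ib n u)]
  · show f _ (if ib n u = ib n u then ℓ else 0) = _
    rw [if_pos rfl]
  · intro t _ h
    show f _ (if t = ib n u then ℓ else 0) = _
    rw [if_neg h, hf]
  · intro h
    exact absurd (Finset.mem_univ _) h

theorem e0_mem (u : Ico 1 n) : e0 n ℓ τ u ∈ EE (ex n) (3 * ℓ + 2 * τ) ((6 * ℓ + 4 * τ + 1) • uu n u - uu n u) := by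
  rw [mem_EE2, uu_sub, E2_zero, E2_one]
  have hn : e0 n ℓ τ u none = 2 * ℓ + τ := rfl
  rw [hn, sum_a n ℓ τ u (fun _ x => x) (fun _ => rfl), sum_b n ℓ τ u (fun _ x => x) (fun _ => rfl),
    sum_a n ℓ τ u (fun t x => (t : ℕ) * x) (fun _ => mul_zero _), sum_b n ℓ τ u (fun t x => (t : ℕ) * x) (fun _ => mul_zero _)]
  have e1 : ((ia n u : Fin (4 * n + 1)) : ℕ) = 4 * u.1 := rfl
  have e2 : ((ib n u : Fin (6 * n + 1)) : ℕ) = 6 * u.1 := rfl
  rw [e1, e2]
  refine ⟨by ring, by omega, ?_⟩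
  rw [add_mul (6 * ℓ + 4 * τ) 1 u.1, one_mul, Nat.add_sub_cancel]
  ring

/-- the sum of the defects -/
theorem sum_D (r : ℕ) (e : At n → ℕ) : ∑ a, (e a : ℝ) * (Lf (3 * cc n r) (gg n r) (ex n a) - om n a) =
    ((∑ t, e (some (Sum.inl t)) : ℕ) : ℝ) + (∑ t : Fin (4 * n + 1), (e (some (Sum.inl t)) : ℝ) * (3 * (((t : ℕ) : ℝ) - 4 * r) ^ 2) +
      ∑ t : Fin (6 * n + 1), (e (some (Sum.inr t)) : ℝ) * (2 * (((t : ℕ) : ℝ) - 6 * r) ^ 2)) := by
  rw [sum_At]
  simp only [D_none, D_inl, D_inr, mul_zero, zero_add]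
  rw [← add_assoc]
  congr 1
  rw [Nat.cast_sum, ← Finset.sum_add_distrib]
  exact Finset.sum_congr rfl fun t _ => by ring

theorem nonneg_a (r : ℕ) (e : At n → ℕ) : 0 ≤ ∑ t : Fin (4 * n + 1), (e (some (Sum.inl t)) : ℝ) * (3 * (((t : ℕ) : ℝ) - 4 * r) ^ 2) :=
  Finset.sum_nonneg fun t _ => by positivity

theorem nonneg_b (r : ℕ) (e : At n → ℕ) : 0 ≤ ∑ t : Fin (6 * n + 1), (e (some (Sum.inr t)) : ℝ) * (2 * (((t : ℕ) : ℝ) - 6 * r) ^ 2) :=
  Finset.sum_nonneg fun t _ => by positivity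

theorem le_D (hτ : τ ≤ 1) (u v : Ico 1 n) (e : At n → ℕ) (he : e ∈ EE (ex n) (3 * ℓ + 2 * τ) ((6 * ℓ + 4 * τ + 1) • uu n u - uu n v)) :
    (τ : ℝ) ≤ ∑ a, (e a : ℝ) * (Lf (3 * cc n u.1) (gg n u.1) (ex n a) - om n a) := by
  rw [mem_EE2, uu_sub, E2_zero, E2_one] at he
  have h1 : τ ≤ ∑ t, e (some (Sum.inl t)) := by omega
  rw [sum_D]
  have h2 : (τ : ℝ) ≤ ((∑ t, e (some (Sum.inl t)) : ℕ) : ℝ) := by exact_mod_cast h1
  have h3 := nonneg_a n u.1 e
  have h4 := nonneg_b n u.1 e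
  linarith

theorem diag (hτ : τ ≤ 1) (u : Ico 1 n) (e : At n → ℕ)
    (he : e ∈ EE (ex n) (3 * ℓ + 2 * τ) ((6 * ℓ + 4 * τ + 1) • uu n u - uu n u)) (hne : e ≠ e0 n ℓ τ u) :
    (τ : ℝ) < ∑ a, (e a : ℝ) * (Lf (3 * cc n u.1) (gg n u.1) (ex n a) - om n a) := by
  by_contra hcon
  push Not at hcon
  apply hne
  rw [mem_EE2, uu_sub, E2_zero, E2_one] at he
  have h1 : τ ≤ ∑ t, e (some (Sum.inl t)) := by omega
  rw [sum_D] at hcon
  have h2 : (τ : ℝ) ≤ ((∑ t, e (some (Sum.inl t)) : ℕ) : ℝ) := by exact_mod_cast h1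
  have h3 := nonneg_a n u.1 e
  have h4 := nonneg_b n u.1 e
  have h5 : ∑ t : Fin (4 * n + 1), (e (some (Sum.inl t)) : ℝ) * (3 * (((t : ℕ) : ℝ) - 4 * u.1) ^ 2) = 0 := by linarith
  have h6 : ∑ t : Fin (6 * n + 1), (e (some (Sum.inr t)) : ℝ) * (2 * (((t : ℕ) : ℝ) - 6 * u.1) ^ 2) = 0 := by linarith
  have h7 : ∑ t, e (some (Sum.inl t)) = τ := by
    have : ((∑ t, e (some (Sum.inl t)) : ℕ) : ℝ) ≤ τ := by linarith
    have h8 : ∑ t, e (some (Sum.inl t)) ≤ τ := by exact_mod_cast this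
    omega
  have ha : ∀ t, t ≠ ia n u → e (some (Sum.inl t)) = 0 := by
    intro t ht
    have h8 := (Finset.sum_eq_zero_iff_of_nonneg (fun t _ => by positivity)).1 h5 t (Finset.mem_univ t)
    rcases mul_eq_zero.1 h8 with h9 | h9
    · exact_mod_cast h9
    · exfalso
      apply ht
      have h10 : ((t : ℕ) : ℝ) - 4 * (u.1 : ℕ) = 0 := by
        have := mul_eq_zero.1 h9
        rcases this with h | h
        · norm_num at h
        · exact pow_eq_zero_iff (two_ne_zero) |>.1 h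
      have h11 : ((t : ℕ) : ℝ) = ((4 * u.1 : ℕ) : ℝ) := by push_cast; linarith
      have h12 : (t : ℕ) = 4 * u.1 := by exact_mod_cast h11
      exact Fin.ext h12
  have hb : ∀ t, t ≠ ib n u → e (some (Sum.inr t)) = 0 := by
    intro t ht
    have h8 := (Finset.sum_eq_zero_iff_of_nonneg (fun t _ => by positivity)).1 h6 t (Finset.mem_univ t)
    rcases mul_eq_zero.1 h8 with h9 | h9
    · exact_mod_cast h9
    · exfalso
      apply ht
      have h10 : ((t : ℕ) : ℝ) - 6 * (u.1 : ℕ) = 0 := by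
        have := mul_eq_zero.1 h9
        rcases this with h | h
        · norm_num at h
        · exact pow_eq_zero_iff (two_ne_zero) |>.1 h
      have h11 : ((t : ℕ) : ℝ) = ((6 * u.1 : ℕ) : ℝ) := by push_cast; linarith
      have h12 : (t : ℕ) = 6 * u.1 := by exact_mod_cast h11
      exact Fin.ext h12
  have h8 : ∑ t, e (some (Sum.inl t)) = e (some (Sum.inl (ia n u))) :=
    Finset.sum_eq_single _ (fun t _ ht => ha t ht) (fun h => absurd (Finset.mem_univ _) h)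
  have h9 : ∑ t, e (some (Sum.inr t)) = e (some (Sum.inr (ib n u))) :=
    Finset.sum_eq_single _ (fun t _ ht => hb t ht) (fun h => absurd (Finset.mem_univ _) h)
  rw [h9, h8] at he
  rw [h8] at h7
  funext a
  rcases a with _ | a
  · show _ = 2 * ℓ + τ
    omega
  · rcases a with t | t
    · show _ = if t = ia n u then τ else 0
      split_ifs with h
      · rw [h]; exact h7
      · exact ha t h
    · show _ = if t = ib n u then ℓ else 0
      split_ifs with h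
      · rw [h]; omega
      · exact hb t h

/-- the exponents of the leading monomial -/
noncomputable def MM (u : Ico 1 n) : Vr n →₀ ℕ := Finsupp.equivFunOnFinite.symm fun t => e0 n ℓ τ u (some t)

theorem term_e0 {K : Type} [Field K] (u : Ico 1 n) :
    Fn.term (co n (MvPolynomial.X (R := K))) (e0 n ℓ τ u) =
      MvPolynomial.monomial (MM n ℓ τ u) (Nat.multinomial univ (e0 n ℓ τ u) : K) := by
  unfold Fn.term
  rw [Fintype.prod_option]
  have h2 : (co n (MvPolynomial.X (R := K))) none ^ e0 n ℓ τ u none = 1 := by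
    show (1 : MvPolynomial (Vr n) K) ^ _ = 1
    exact one_pow _
  rw [h2, one_mul]
  have h3 : ∏ t, (co n (MvPolynomial.X (R := K))) (some t) ^ e0 n ℓ τ u (some t) =
      (MvPolynomial.monomial (MM n ℓ τ u) 1 : MvPolynomial (Vr n) K) := by
    rw [MvPolynomial.monomial_eq, map_one, one_mul, Finsupp.prod_fintype _ _ (fun _ => pow_zero _)]
    rfl
  rw [h3, ← map_natCast (MvPolynomial.C (σ := Vr n) (R := K)), MvPolynomial.C_mul_monomial, mul_one]

theorem om_LE {K : Type} [Field K] (x : At n) : LE (w n) (co n (MvPolynomial.X (R := K)) x) (om n x) := by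
  rcases x with _ | t
  · exact LE.one
  · show LE (w n) (MvPolynomial.X t) (w n t)
    rw [MvPolynomial.X]
    refine LE.monomial ?_ _
    unfold Wt
    rw [Finset.sum_eq_single t]
    · rw [Finsupp.single_eq_same, Nat.cast_one, mul_one]
    · intro j _ hj
      rw [Finsupp.single_eq_of_ne hj, Nat.cast_zero, mul_zero]
    · intro h
      exact absurd (Finset.mem_univ _) h

theorem Wt_MM (u : Ico 1 n) : Wt (w n) (MM n ℓ τ u) =
    Fn.TT (6 * ℓ + 4 * τ + 1) (3 * ℓ + 2 * τ) (uu n) (fun u : Ico 1 n => 3 * cc n u.1) (fun u => gg n u.1) (fun _ => (τ : ℝ)) u u := by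
  have h1 := wt_id (ex n) (3 * ℓ + 2 * τ) (om n) (3 * cc n u.1) (gg n u.1) _ _ (e0_mem n ℓ τ u)
  have h2 : ∑ a, (e0 n ℓ τ u a : ℝ) * (Lf (3 * cc n u.1) (gg n u.1) (ex n a) - om n a) = τ := by
    rw [sum_D, sum_a n ℓ τ u (fun _ x => x) (fun _ => rfl),
      sum_a n ℓ τ u (fun t x => (x : ℝ) * (3 * (((t : ℕ) : ℝ) - 4 * u.1) ^ 2)) (fun _ => by rw [Nat.cast_zero, zero_mul]),
      sum_b n ℓ τ u (fun t x => (x : ℝ) * (2 * (((t : ℕ) : ℝ) - 6 * u.1) ^ 2)) (fun _ => by rw [Nat.cast_zero, zero_mul])]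
    have e1 : ((ia n u : Fin (4 * n + 1)) : ℕ) = 4 * u.1 := rfl
    have e2 : ((ib n u : Fin (6 * n + 1)) : ℕ) = 6 * u.1 := rfl
    rw [e1, e2]
    push_cast
    ring
  have h3 : ∑ a, (e0 n ℓ τ u a : ℝ) * om n a = Wt (w n) (MM n ℓ τ u) := by
    rw [Fintype.sum_option]
    have e1 : om n none = 0 := rfl
    rw [e1, mul_zero, zero_add]
    unfold Wt MM
    exact Finset.sum_congr rfl fun t _ => mul_comm _ _
  rw [← h3, h1, h2]
  unfold Fn.TT
  congr 2
  exact Finset.sum_congr rfl fun s _ => by rw [sub_cast (le_smul (Nat.succ_pos _) _)]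

theorem perm (σ : Equiv.Perm (Ico 1 n)) (hσ : σ ≠ 1) :
    ∑ i, Fn.TT (6 * ℓ + 4 * τ + 1) (3 * ℓ + 2 * τ) (uu n) (fun u : Ico 1 n => 3 * cc n u.1) (fun u => gg n u.1) (fun _ => (τ : ℝ)) (σ i) i <
      ∑ i, Fn.TT (6 * ℓ + 4 * τ + 1) (3 * ℓ + 2 * τ) (uu n) (fun u : Ico 1 n => 3 * cc n u.1) (fun u => gg n u.1) (fun _ => (τ : ℝ)) i i := by
  have hd := TT_diff (6 * ℓ + 4 * τ + 1) (3 * ℓ + 2 * τ) (uu n) (fun u : Ico 1 n => 3 * cc n u.1) (fun u => gg n u.1) (fun _ => (τ : ℝ)) σ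
  have h1 : ∀ i : Ico 1 n, Lf (3 * cc n (σ i).1) (gg n (σ i).1) (uu n i) - Lf (3 * cc n i.1) (gg n i.1) (uu n i) =
      12 * (((σ i).1 : ℝ) - i.1) ^ 2 + 36 * (((σ i).1 : ℝ) ^ 2 - (i.1 : ℝ) ^ 2) := by
    intro i
    unfold uu
    rw [Lf_E2, Lf_E2]
    unfold cc
    push_cast
    ring
  have h2 : ∑ i : Ico 1 n, (((σ i).1 : ℝ) ^ 2 - (i.1 : ℝ) ^ 2) = 0 := by
    rw [Finset.sum_sub_distrib, Equiv.sum_comp σ fun i : Ico 1 n => (i.1 : ℝ) ^ 2, sub_self]
  simp only [h1] at hd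
  rw [Finset.sum_add_distrib, ← Finset.mul_sum, ← Finset.mul_sum, h2, mul_zero, add_zero] at hd
  have hne : ∃ i, σ i ≠ i := by
    by_contra hcon
    push Not at hcon
    exact hσ (Equiv.ext hcon)
  obtain ⟨i, hi⟩ := hne
  have h3 : 0 < ∑ i : Ico 1 n, (((σ i).1 : ℝ) - i.1) ^ 2 := by
    refine Finset.sum_pos' (fun i _ => sq_nonneg _) ⟨i, Finset.mem_univ i, ?_⟩
    have h4 : ((σ i).1 : ℝ) - i.1 ≠ 0 := by
      rw [sub_ne_zero]
      intro h
      exact hi (Subtype.ext (by exact_mod_cast h))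
    positivity
  linarith

theorem MM_sum_a (t : Fin (4 * n + 1)) : (∑ u, MM n ℓ τ u : Vr n →₀ ℕ) (Sum.inl t) ≤ if t ∈ univ.image (ia n) then τ else 0 := by
  rw [Finsupp.finsetSum_apply]
  have h1 : ∀ u : Ico 1 n, MM n ℓ τ u (Sum.inl t) = if t = ia n u then τ else 0 := fun u => rfl
  rw [Finset.sum_congr rfl fun u _ => h1 u]
  split_ifs with h
  · rw [Finset.mem_image] at h
    obtain ⟨v, _, rfl⟩ := h
    rw [Finset.sum_eq_single v]
    · rw [if_pos rfl]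
    · intro j _ hj
      rw [if_neg]
      intro h'
      have h'' : 4 * v.1 = 4 * j.1 := congrArg Fin.val h'
      exact hj (Subtype.ext (by omega))
    · intro h'
      exact absurd (Finset.mem_univ _) h'
  · refine (Finset.sum_eq_zero fun u _ => if_neg fun h' => h ?_).le
    rw [h']
    exact Finset.mem_image_of_mem _ (Finset.mem_univ _)

theorem MM_sum_b (t : Fin (6 * n + 1)) : (∑ u, MM n ℓ τ u : Vr n →₀ ℕ) (Sum.inr t) ≤ if t ∈ univ.image (ib n) then ℓ else 0 := by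
  rw [Finsupp.finsetSum_apply]
  have h1 : ∀ u : Ico 1 n, MM n ℓ τ u (Sum.inr t) = if t = ib n u then ℓ else 0 := fun u => rfl
  rw [Finset.sum_congr rfl fun u _ => h1 u]
  split_ifs with h
  · rw [Finset.mem_image] at h
    obtain ⟨v, _, rfl⟩ := h
    rw [Finset.sum_eq_single v]
    · rw [if_pos rfl]
    · intro j _ hj
      rw [if_neg]
      intro h'
      have h'' : 6 * v.1 = 6 * j.1 := congrArg Fin.val h'
      exact hj (Subtype.ext (by omega))
    · intro h'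
      exact absurd (Finset.mem_univ _) h'
  · refine (Finset.sum_eq_zero fun u _ => if_neg fun h' => h ?_).le
    rw [h']
    exact Finset.mem_image_of_mem _ (Finset.mem_univ _)

theorem ia_inj : Function.Injective (ia n) := by
  intro i j h
  have h'' : 4 * i.1 = 4 * j.1 := congrArg Fin.val h
  exact Subtype.ext (by omega)

theorem ib_inj : Function.Injective (ib n) := by
  intro i j h
  have h'' : 6 * i.1 = 6 * j.1 := congrArg Fin.val h
  exact Subtype.ext (by omega)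

theorem prod_image {A : Type} [Fintype A] [DecidableEq A] (f : Ico 1 n → A) (hf : Function.Injective f) (x : ℝ) :
    ∏ t : A, (if t ∈ univ.image f then x else 1) = x ^ (n - 1) := by
  rw [Finset.prod_ite, Finset.prod_const, Finset.prod_const_one, mul_one]
  congr 1
  rw [Finset.filter_mem_eq_inter, Finset.univ_inter, Finset.card_image_of_injective _ hf, Finset.card_univ, Fintype.card_coe,
    Nat.card_Ico]

/-- **Many ordinary elliptic surfaces.** -/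
theorem count_ell {p : ℕ} [hp : Fact p.Prime] (h5 : 5 ≤ p) :
    (5 / 6 : ℝ) ^ (n - 1) * (1 - 1 / p : ℝ) ^ (n - 1) * (p : ℝ) ^ (10 * n + 2) ≤
      Nat.card {r : Vr n → ZMod p // (HWm p ((p - 1) / 2) (ex n) (uu n) (co n r)).det ≠ 0} := by
  have hmod : p % 6 = 1 ∨ p % 6 = 5 := by
    have h2 : ¬ 2 ∣ p := fun h => by
      have := (Nat.prime_dvd_prime_iff_eq Nat.prime_two hp.out).1 h
      omega
    have h3 : ¬ 3 ∣ p := fun h => by
      have := (Nat.prime_dvd_prime_iff_eq Nat.prime_three hp.out).1 h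
      omega
    omega
  obtain ⟨ℓ, τ, hτ, hℓ⟩ : ∃ ℓ τ, τ ≤ 1 ∧ p = 6 * ℓ + 4 * τ + 1 := by
    rcases hmod with h | h
    · exact ⟨p / 6, 0, by norm_num, by omega⟩
    · exact ⟨p / 6, 1, le_rfl, by omega⟩
  subst hℓ
  have hn' : (6 * ℓ + 4 * τ + 1 - 1) / 2 = 3 * ℓ + 2 * τ := by omega
  rw [hn']
  have hlt : ∀ s, (∑ u, MM n ℓ τ u : Vr n →₀ ℕ) s < 6 * ℓ + 4 * τ + 1 := by
    intro s
    rcases s with t | t
    · exact lt_of_le_of_lt (MM_sum_a n ℓ τ t) (by split_ifs <;> omega)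
    · exact lt_of_le_of_lt (MM_sum_b n ℓ τ t) (by split_ifs <;> omega)
  have hfin := count (p := 6 * ℓ + 4 * τ + 1) (3 * ℓ + 2 * τ) (ex n) (uu n) (co n (MvPolynomial.X))
    (w n) (w_pos n) (om n) (om_LE n) (fun u : Ico 1 n => 3 * cc n u.1) (fun u => gg n u.1) (fun _ => (τ : ℝ))
    (fun i j _ e he => le_D n ℓ τ hτ i j e he)
    (e0 n ℓ τ) (e0_mem n ℓ τ) (fun i e he hne => diag n ℓ τ hτ i e he hne) (MM n ℓ τ)
    (fun i => (Nat.multinomial univ (e0 n ℓ τ i) : ZMod (6 * ℓ + 4 * τ + 1)))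
    (fun i => multinomial_ne (e0 n ℓ τ i) (by
      rw [((mem_EE _ _).1 (e0_mem n ℓ τ i)).1]
      omega)) (fun i => term_e0 n ℓ τ i) (fun i => Wt_MM n ℓ τ i) (fun σ hσ => Or.inl (perm n ℓ τ σ hσ)) hlt
  have e1 : ∀ r : Vr n → ZMod (6 * ℓ + 4 * τ + 1), (fun x => MvPolynomial.eval r (co n (MvPolynomial.X) x)) = co n r := by
    intro r
    funext x
    rcases x with _ | t
    · exact map_one _
    · exact MvPolynomial.eval_X _
  simp only [e1] at hfin
  have hfin' : ((∏ s, (6 * ℓ + 4 * τ + 1 - (∑ i, MM n ℓ τ i : Vr n →₀ ℕ) s) : ℕ) : ℝ) ≤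
      Nat.card {r : Vr n → ZMod (6 * ℓ + 4 * τ + 1) // (HWm (6 * ℓ + 4 * τ + 1) (3 * ℓ + 2 * τ) (ex n) (uu n) (co n r)).det ≠ 0} := by
    exact_mod_cast hfin
  refine le_trans ?_ hfin'
  set P : ℝ := ((6 * ℓ + 4 * τ + 1 : ℕ) : ℝ) with hP
  have hP0 : 0 < P := by rw [hP]; exact_mod_cast Nat.succ_pos _
  rw [Nat.cast_prod, Fintype.prod_sum_type]
  have ha : (1 - 1 / P) ^ (n - 1) * P ^ (4 * n + 1) ≤
      ∏ t : Fin (4 * n + 1), ((6 * ℓ + 4 * τ + 1 - (∑ i, MM n ℓ τ i : Vr n →₀ ℕ) (Sum.inl t) : ℕ) : ℝ) := by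
    have e3 : P ^ (4 * n + 1) = ∏ _t : Fin (4 * n + 1), P := by
      rw [Finset.prod_const, Finset.card_univ, Fintype.card_fin]
    rw [← prod_image n (ia n) (ia_inj n), e3, ← Finset.prod_mul_distrib]
    have hP1 : 0 ≤ 1 - 1 / P := by
      rw [sub_nonneg, div_le_one hP0, hP]
      exact_mod_cast Nat.succ_le_succ (Nat.zero_le _)
    refine Finset.prod_le_prod (fun t _ => by split_ifs <;> positivity) fun t _ => ?_
    have h6 := MM_sum_a n ℓ τ t
    split_ifs at h6 ⊢ with h7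
    · rw [sub_mul, one_mul, div_mul_cancel₀ _ hP0.ne']
      have h8 : 6 * ℓ + 4 * τ + 1 ≤ (6 * ℓ + 4 * τ + 1 - (∑ i, MM n ℓ τ i : Vr n →₀ ℕ) (Sum.inl t)) + 1 := by omega
      have h9 : P ≤ ((6 * ℓ + 4 * τ + 1 - (∑ i, MM n ℓ τ i : Vr n →₀ ℕ) (Sum.inl t) : ℕ) : ℝ) + 1 := by
        rw [hP]
        exact_mod_cast h8
      linarith
    · have h8 : (∑ i, MM n ℓ τ i : Vr n →₀ ℕ) (Sum.inl t) = 0 := Nat.le_zero.1 h6
      rw [h8, Nat.sub_zero, one_mul]
  have hb : (5 / 6) ^ (n - 1) * P ^ (6 * n + 1) ≤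
      ∏ t : Fin (6 * n + 1), ((6 * ℓ + 4 * τ + 1 - (∑ i, MM n ℓ τ i : Vr n →₀ ℕ) (Sum.inr t) : ℕ) : ℝ) := by
    have e3 : P ^ (6 * n + 1) = ∏ _t : Fin (6 * n + 1), P := by
      rw [Finset.prod_const, Finset.card_univ, Fintype.card_fin]
    rw [← prod_image n (ib n) (ib_inj n), e3, ← Finset.prod_mul_distrib]
    refine Finset.prod_le_prod (fun t _ => by split_ifs <;> positivity) fun t _ => ?_
    have h6 := MM_sum_b n ℓ τ t
    split_ifs at h6 ⊢ with h7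
    · have h8 : 5 * (6 * ℓ + 4 * τ + 1) ≤ 6 * (6 * ℓ + 4 * τ + 1 - (∑ i, MM n ℓ τ i : Vr n →₀ ℕ) (Sum.inr t)) := by omega
      have h9 : 5 * P ≤ 6 * ((6 * ℓ + 4 * τ + 1 - (∑ i, MM n ℓ τ i : Vr n →₀ ℕ) (Sum.inr t) : ℕ) : ℝ) := by
        rw [hP]
        exact_mod_cast h8
      linarith
    · have h8 : (∑ i, MM n ℓ τ i : Vr n →₀ ℕ) (Sum.inr t) = 0 := Nat.le_zero.1 h6
      rw [h8, Nat.sub_zero, one_mul]
  have e4 : (5 / 6 : ℝ) ^ (n - 1) * (1 - 1 / P) ^ (n - 1) * P ^ (10 * n + 2) =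
      ((1 - 1 / P) ^ (n - 1) * P ^ (4 * n + 1)) * ((5 / 6) ^ (n - 1) * P ^ (6 * n + 1)) := by
    have : 10 * n + 2 = (4 * n + 1) + (6 * n + 1) := by ring
    rw [this, pow_add]
    ring
  rw [e4]
  exact mul_le_mul ha hb (by positivity) (Finset.prod_nonneg fun _ _ => Nat.cast_nonneg _)

end Run7.h328.ORD.Ell
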