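import Mathlib

/-! # The footprint bound for polynomials over finite fields with a leading monomial for a weight -/

set_option autoImplicit false

namespace Run7.h328.ORD

open Finset

variable {K : Type} [Field K] [Fintype K] {σ : Type} [Fintype σ]

/-- power sums -/
theorem pow_sum_zero (i : ℕ) (h : i < Fintype.card K - 1) : ∑ x : K, x ^ i = 0 := FiniteField.sum_pow_lt_card_sub_one K i h

theorem pow_sum_top : ∑ x : K, x ^ (Fintype.card K - 1) = -1 := by
  classical
  have hq : 1 < Fintype.card K := Fintype.one_lt_card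
  have h1 : ∀ x : K, x ^ (Fintype.card K - 1) = if x = 0 then 0 else 1 := by
    intro x
    split_ifs with hx
    · rw [hx, zero_pow (by omega)]
    · exact FiniteField.pow_card_sub_one_eq_one x hx
  rw [Finset.sum_congr rfl fun x _ => h1 x]
  have h2 : ∀ x : K, (if x = 0 then (0 : K) else 1) = 1 - (if x = 0 then 1 else 0) := by
    intro x
    split_ifs <;> ring
  rw [Finset.sum_congr rfl fun x _ => h2 x, Finset.sum_sub_distrib, Finset.sum_ite_eq' univ (0 : K) fun _ => (1 : K),
    if_pos (Finset.mem_univ _), Finset.sum_const, Finset.card_univ, nsmul_eq_mul, mul_one, Nat.cast_card_eq_zero, zero_sub]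

/-- the weight -/
def Wt (w : σ → ℝ) (a : σ → ℕ) : ℝ := ∑ s, w s * a s

theorem Wt_lt {w : σ → ℝ} (hw : ∀ s, 0 < w s) {a b : σ → ℕ} (h : ∀ s, b s ≤ a s) (hne : a ≠ b) : Wt w b < Wt w a := by
  unfold Wt
  have h1 : ∃ s, b s ≠ a s := by
    by_contra hcon
    push Not at hcon
    exact hne (funext fun s => (hcon s).symm)
  obtain ⟨s, hs⟩ := h1
  refine Finset.sum_lt_sum (fun s _ => mul_le_mul_of_nonneg_left (by exact_mod_cast h s) (hw s).le) ⟨s, Finset.mem_univ s, ?_⟩
  exact mul_lt_mul_of_pos_left (by exact_mod_cast lt_of_le_of_ne (h s) hs) (hw s)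

theorem Wt_add (w : σ → ℝ) (a b : σ → ℕ) : Wt w (fun s => a s + b s) = Wt w a + Wt w b := by
  unfold Wt
  rw [← Finset.sum_add_distrib]
  refine Finset.sum_congr rfl fun s _ => ?_
  push_cast
  ring

open Classical in
/-- **The footprint bound.** -/
theorem foot (F : MvPolynomial σ K) (w : σ → ℝ) (hw : ∀ s, 0 < w s) (m : σ →₀ ℕ) (hm : ∀ s, m s < Fintype.card K)
    (hF : F.coeff m ≠ 0) (hlt : ∀ c ∈ F.support, c ≠ m → Wt w c < Wt w m) :
    ∏ s, (Fintype.card K - m s) ≤ Fintype.card {x : σ → K // MvPolynomial.eval x F ≠ 0} := by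
  set q := Fintype.card K with hq
  have hq1 : 1 < q := Fintype.one_lt_card
  set B : Finset (σ → ℕ) := Fintype.piFinset fun s => range (q - m s) with hB
  set N := {x : σ → K // MvPolynomial.eval x F ≠ 0} with hN
  let Φ : (B → K) →ₗ[K] (N → K) :=
    { toFun := fun c x => ∑ a : B, c a * ∏ s, x.1 s ^ (a.1 s)
      map_add' := by
        intro c c'
        funext x
        simp only [Pi.add_apply, add_mul, Finset.sum_add_distrib]
      map_smul' := by
        intro t c
        funext x
        simp only [Pi.smul_apply, smul_eq_mul, RingHom.id_apply, Finset.mul_sum, mul_assoc] }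
  have hinj : Function.Injective Φ := by
    rw [injective_iff_map_eq_zero]
    intro c hc
    by_contra hne
    have h1 : ∃ a : B, c a ≠ 0 := by
      by_contra hcon
      push Not at hcon
      exact hne (funext hcon)
    obtain ⟨a1, ha1⟩ := h1
    obtain ⟨a0, ha0, hmax⟩ := Finset.exists_max_image ((univ : Finset B).filter fun a => c a ≠ 0) (fun a => Wt w a.1)
      ⟨a1, Finset.mem_filter.2 ⟨Finset.mem_univ _, ha1⟩⟩
    rw [Finset.mem_filter] at ha0
    have hb : ∀ s, a0.1 s + m s ≤ q - 1 := by
      intro s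
      have := Finset.mem_range.1 (Fintype.mem_piFinset.1 a0.2 s)
      omega
    -- the product vanishes everywhere
    have h2 : ∀ x : σ → K, MvPolynomial.eval x F * ∑ a : B, c a * ∏ s, x s ^ (a.1 s) = 0 := by
      intro x
      by_cases hx : MvPolynomial.eval x F = 0
      · rw [hx, zero_mul]
      · have := congrFun hc ⟨x, hx⟩
        have h3 : ∑ a : B, c a * ∏ s, x s ^ (a.1 s) = 0 := this
        rw [h3, mul_zero]
    have h3 : ∑ x : σ → K, (MvPolynomial.eval x F * ∑ a : B, c a * ∏ s, x s ^ (a.1 s)) * ∏ s, x s ^ (q - 1 - (a0.1 s + m s)) = 0 :=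
      Finset.sum_eq_zero fun x _ => by rw [h2 x, zero_mul]
    have h4 : ∑ x : σ → K, (MvPolynomial.eval x F * ∑ a : B, c a * ∏ s, x s ^ (a.1 s)) * ∏ s, x s ^ (q - 1 - (a0.1 s + m s)) =
        ∑ a : B, ∑ d ∈ F.support, c a * F.coeff d * ∏ s, ∑ z : K, z ^ (a.1 s + d s + (q - 1 - (a0.1 s + m s))) := by
      have e1 : ∀ x : σ → K, (MvPolynomial.eval x F * ∑ a : B, c a * ∏ s, x s ^ (a.1 s)) * ∏ s, x s ^ (q - 1 - (a0.1 s + m s)) =
          ∑ a : B, ∑ d ∈ F.support, c a * F.coeff d * ∏ s, x s ^ (a.1 s + d s + (q - 1 - (a0.1 s + m s))) := by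
        intro x
        rw [MvPolynomial.eval_eq', Finset.mul_sum, Finset.sum_mul]
        refine Finset.sum_congr rfl fun a _ => ?_
        rw [Finset.sum_mul, Finset.sum_mul]
        refine Finset.sum_congr rfl fun d _ => ?_
        have e2 : ∏ s, x s ^ (a.1 s + d s + (q - 1 - (a0.1 s + m s))) =
            (∏ s, x s ^ (a.1 s)) * (∏ s, x s ^ (d s)) * ∏ s, x s ^ (q - 1 - (a0.1 s + m s)) := by
          rw [← Finset.prod_mul_distrib, ← Finset.prod_mul_distrib]
          exact Finset.prod_congr rfl fun s _ => by rw [pow_add, pow_add]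
        rw [e2]
        ring
      rw [Finset.sum_congr rfl fun x _ => e1 x, Finset.sum_comm]
      refine Finset.sum_congr rfl fun a _ => ?_
      rw [Finset.sum_comm]
      refine Finset.sum_congr rfl fun d _ => ?_
      rw [← Finset.mul_sum, Finset.prod_univ_sum, Fintype.piFinset_univ]
    have h5 : ∀ a : B, ∀ d ∈ F.support, (a ≠ a0 ∨ d ≠ m) →
        c a * F.coeff d * ∏ s, ∑ z : K, z ^ (a.1 s + d s + (q - 1 - (a0.1 s + m s))) = 0 := by
      intro a d hd had
      by_contra hcon
      have hca : c a ≠ 0 := fun h => hcon (by rw [h, zero_mul, zero_mul])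
      have hpr : ∏ s, ∑ z : K, z ^ (a.1 s + d s + (q - 1 - (a0.1 s + m s))) ≠ 0 := fun h => hcon (by rw [h, mul_zero])
      have hge : ∀ s, a0.1 s + m s ≤ a.1 s + d s := by
        intro s
        by_contra hlt'
        push Not at hlt'
        apply hpr
        refine Finset.prod_eq_zero (Finset.mem_univ s) (pow_sum_zero _ ?_)
        have := hb s
        rw [← hq]
        omega
      have hWa : Wt w a.1 ≤ Wt w a0.1 := hmax a (Finset.mem_filter.2 ⟨Finset.mem_univ _, hca⟩)
      have hWd : Wt w d ≤ Wt w m := by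
        by_cases hdm : d = m
        · rw [hdm]
        · exact (hlt d hd hdm).le
      by_cases hdm : d = m
      · have haa : a.1 ≠ a0.1 := by
          intro h
          rcases had with h1 | h1
          · exact h1 (Subtype.ext h)
          · exact h1 hdm
        have hge' : ∀ s, a0.1 s ≤ a.1 s := by
          intro s
          have := hge s
          rw [hdm] at this
          omega
        have := Wt_lt hw hge' haa
        linarith
      · have h6 := hlt d hd hdm
        by_cases hEq : (fun s => a.1 s + d s) = fun s => a0.1 s + m s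
        · have h7 := congrArg (Wt w) hEq
          rw [Wt_add, Wt_add] at h7
          linarith
        · have h7 := Wt_lt hw hge hEq
          rw [Wt_add, Wt_add] at h7
          linarith
    have hms : m ∈ F.support := MvPolynomial.mem_support_iff.2 hF
    have h6 : ∑ a : B, ∑ d ∈ F.support, c a * F.coeff d * ∏ s, ∑ z : K, z ^ (a.1 s + d s + (q - 1 - (a0.1 s + m s))) =
        c a0 * F.coeff m * ∏ s, ∑ z : K, z ^ (a0.1 s + m s + (q - 1 - (a0.1 s + m s))) := by
      rw [Finset.sum_eq_single a0, Finset.sum_eq_single m]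
      · intro d hd hdm
        exact h5 a0 d hd (Or.inr hdm)
      · intro h
        exact absurd hms h
      · intro a _ ha
        exact Finset.sum_eq_zero fun d hd => h5 a d hd (Or.inl ha)
      · intro h
        exact absurd (Finset.mem_univ _) h
    have h7 : ∏ s, ∑ z : K, z ^ (a0.1 s + m s + (q - 1 - (a0.1 s + m s))) = ∏ _s : σ, (-1 : K) := by
      refine Finset.prod_congr rfl fun s _ => ?_
      have := hb s
      have e : a0.1 s + m s + (q - 1 - (a0.1 s + m s)) = q - 1 := by omega
      rw [e, hq]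
      exact pow_sum_top
    rw [h4, h6, h7] at h3
    have h8 : ∏ _s : σ, (-1 : K) ≠ 0 := Finset.prod_ne_zero_iff.2 fun _ _ => neg_ne_zero.2 one_ne_zero
    exact mul_ne_zero (mul_ne_zero ha0.2 hF) h8 h3
  have hcard := Fintype.card_le_of_injective Φ hinj
  rw [Fintype.card_fun, Fintype.card_fun] at hcard
  have h9 := (Nat.pow_le_pow_iff_right hq1).1 hcard
  have h10 : Fintype.card B = ∏ s, (q - m s) := by
    rw [Fintype.card_coe, hB, Fintype.card_piFinset]
    exact Finset.prod_congr rfl fun s _ => Finset.card_range _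
  rw [← h10]
  exact h9

theorem foot' (F : MvPolynomial σ K) (w : σ → ℝ) (hw : ∀ s, 0 < w s) (m : σ →₀ ℕ) (hm : ∀ s, m s < Fintype.card K)
    (hF : F.coeff m ≠ 0) (hlt : ∀ c ∈ F.support, c ≠ m → Wt w c < Wt w m) :
    ∏ s, (Fintype.card K - m s) ≤ Nat.card {x : σ → K // MvPolynomial.eval x F ≠ 0} := by
  classical
  have h := foot F w hw m hm hF hlt
  refine h.trans (le_of_eq ?_)
  rw [Nat.card_eq_fintype_card]

end Run7.h328.ORD
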