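import Pool.Agent.Run7.h328.ORD.Lead

/-! # Leading monomials of Hasse-Witt determinants by supporting functionals -/

set_option autoImplicit false

namespace Run7.h328.ORD.Fn

open Finset
open Run7.h328.ORD

section det
variable {ι : Type} [Fintype ι] [DecidableEq ι] {κ : Type} [Fintype κ] [DecidableEq κ] {K : Type} [Field K] {w : ι → ℝ}

theorem LE.monomial {c : ι →₀ ℕ} {t : ℝ} (h : Wt w c ≤ t) (x : K) : LE w (MvPolynomial.monomial c x) t := by
  intro b hb
  rw [MvPolynomial.mem_support_iff, MvPolynomial.coeff_monomial] at hb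
  have : c = b := by
    by_contra h'
    exact hb (if_neg h')
  rw [← this]
  exact h

theorem Wt_sumf (s : Finset κ) (M : κ → ι →₀ ℕ) : Wt w (∑ i ∈ s, M i : ι →₀ ℕ) = ∑ i ∈ s, Wt w (M i) := by
  induction s using Finset.induction_on with
  | empty =>
    unfold Wt
    simp
  | insert a s ha ih => rw [Finset.sum_insert ha, Finset.sum_insert ha, Wt_addf, ih]

/-- **The leading monomial of a determinant.** -/
theorem det_lead (A : Matrix κ κ (MvPolynomial ι K)) (T : κ → κ → ℝ) (M : κ → ι →₀ ℕ) (c : κ → K)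
    (h1 : ∀ i j, LE w (A i j) (T i j))
    (h2 : ∀ i, ∃ R, A i i = MvPolynomial.monomial (M i) (c i) + R ∧ LT w R (T i i))
    (h3 : ∀ i, Wt w (M i) = T i i)
    (h4 : ∀ σ : Equiv.Perm κ, σ ≠ 1 → ∑ i, T (σ i) i < ∑ i, T i i ∨
      (∑ i, T (σ i) i ≤ ∑ i, T i i ∧ ∃ i, LT w (A (σ i) i) (T (σ i) i))) :
    ∃ R, A.det = MvPolynomial.monomial (∑ i, M i) (∏ i, c i) + R ∧ LT w R (Wt w (∑ i, M i : ι →₀ ℕ)) := by
  choose R hR1 hR2 using h2
  have hW : Wt w (∑ i, M i : ι →₀ ℕ) = ∑ i, T i i := by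
    rw [Wt_sumf]
    exact Finset.sum_congr rfl fun i _ => h3 i
  rw [Matrix.det_apply, ← Finset.add_sum_erase _ _ (Finset.mem_univ (1 : Equiv.Perm κ))]
  have hmon : (MvPolynomial.monomial (∑ i, M i) (∏ i, c i) : MvPolynomial ι K) = ∏ i, MvPolynomial.monomial (M i) (c i) := by
    have h : ∀ s : Finset κ, (MvPolynomial.monomial (∑ i ∈ s, M i) (∏ i ∈ s, c i) : MvPolynomial ι K) =
        ∏ i ∈ s, MvPolynomial.monomial (M i) (c i) := by
      intro s
      induction s using Finset.induction_on with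
      | empty => simp
      | insert a s ha ih =>
        rw [Finset.sum_insert ha, Finset.prod_insert ha, Finset.prod_insert ha, ← ih, MvPolynomial.monomial_mul]
    exact h univ
  refine ⟨(∏ i, (MvPolynomial.monomial (M i) (c i) + R i) - ∏ i, MvPolynomial.monomial (M i) (c i)) +
      ∑ σ ∈ univ.erase (1 : Equiv.Perm κ), Equiv.Perm.sign σ • ∏ i, A (σ i) i, ?_, ?_⟩
  · have e1 : ∏ i, A ((1 : Equiv.Perm κ) i) i = ∏ i, (MvPolynomial.monomial (M i) (c i) + R i) :=
      Finset.prod_congr rfl fun i _ => hR1 i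
    rw [Equiv.Perm.sign_one, one_smul, e1, hmon]
    ring
  · rw [hW]
    refine LT.add ?_ (LT.sum _ _ _ fun σ hσ => ?_)
    · exact prod_lead _ _ _ _ (fun i _ => LE.monomial (h3 i).le _) fun i _ => hR2 i
    · rw [Finset.mem_erase] at hσ
      have hlt : LT w (∏ i, A (σ i) i) (∑ i, T i i) := by
        rcases h4 σ hσ.1 with h | ⟨h, i, hi⟩
        · exact (LE.prod _ _ _ fun i _ => h1 _ _).lt h
        · rw [← Finset.mul_prod_erase univ _ (Finset.mem_univ i)]
          have h5 : LT w (A (σ i) i * ∏ j ∈ univ.erase i, A (σ j) j) (T (σ i) i + ∑ j ∈ univ.erase i, T (σ j) j) :=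
            LT.mul hi (LE.prod _ _ _ fun j _ => h1 _ _)
          rw [Finset.add_sum_erase univ (fun j => T (σ j) j) (Finset.mem_univ i)] at h5
          exact h5.mono h
      rcases Int.units_eq_one_or (Equiv.Perm.sign σ) with hs | hs
      · rw [hs, one_smul]
        exact hlt
      · rw [hs, Units.neg_smul, one_smul]
        intro b hb
        rw [MvPolynomial.support_neg] at hb
        exact hlt b hb

end det

section gen
variable {ρ : Type} [Fintype ρ] {α : Type} [Fintype α] [DecidableEq α]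
variable {ι : Type} [Fintype ι] [DecidableEq ι] {κ : Type} [Fintype κ] [DecidableEq κ]
variable {K : Type} [Field K] (ex : α → ρ →₀ ℕ) (n : ℕ)

/-- the polynomial with the coefficients `cf` -/
noncomputable def PP {R : Type} [CommSemiring R] (cf : α → R) : MvPolynomial ρ R := ∑ a, MvPolynomial.monomial (ex a) (cf a)

/-- the term of the multinomial expansion -/
noncomputable def term {R : Type} [CommSemiring R] (cf : α → R) (e : α → ℕ) : R := (Nat.multinomial univ e : R) * ∏ a, cf a ^ e a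

open Classical in
/-- the exponents of the terms -/
noncomputable def EE (N : ρ →₀ ℕ) : Finset (α → ℕ) :=
  ((univ : Finset α).piAntidiag n).filter (fun e => ∑ i, e i • ex i = N)

theorem mem_EE {N : ρ →₀ ℕ} {e : α → ℕ} : e ∈ EE ex n N ↔ ∑ i, e i = n ∧ ∑ i, e i • ex i = N := by
  unfold EE
  simp only [Finset.mem_filter, Finset.mem_piAntidiag, Finset.mem_univ, implies_true, and_true]

theorem coeff_PP {R : Type} [CommSemiring R] (cf : α → R) (N : ρ →₀ ℕ) :
    MvPolynomial.coeff N (PP ex cf ^ n) = ∑ e ∈ EE ex n N, term cf e := by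
  classical
  unfold PP EE
  rw [Finset.sum_pow_eq_sum_piAntidiag, MvPolynomial.coeff_sum, Finset.sum_filter]
  refine Finset.sum_congr rfl fun e _ => ?_
  have e1 : ∏ i, (MvPolynomial.monomial (ex i) (cf i)) ^ e i =
      MvPolynomial.C (∏ i, cf i ^ e i) * MvPolynomial.monomial (∑ i, e i • ex i) 1 := by
    rw [MvPolynomial.monomial_sum_one, map_prod, ← Finset.prod_mul_distrib]
    refine Finset.prod_congr rfl fun i _ => ?_
    rw [MvPolynomial.monomial_pow, MvPolynomial.C_mul_monomial, mul_one]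
  have e2 : ((Nat.multinomial univ e : ℕ) : MvPolynomial ρ R) = MvPolynomial.C ((Nat.multinomial univ e : ℕ) : R) := by simp
  rw [e1, e2, ← mul_assoc, ← MvPolynomial.C_mul, MvPolynomial.coeff_C_mul, MvPolynomial.coeff_monomial]
  unfold term
  split_ifs
  · rw [mul_one]
  · rw [mul_zero]

variable {w : ι → ℝ} (cf : α → MvPolynomial ι K) (ω : α → ℝ)

theorem term_LE (hω : ∀ a, LE w (cf a) (ω a)) (e : α → ℕ) : LE w (term cf e) (∑ a, e a * ω a) := by
  unfold term
  have h1 : ∀ a, LE w (cf a ^ e a) (e a * ω a) := by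
    intro a
    have h := LE.prod (w := w) (Finset.range (e a)) (fun _ => cf a) (fun _ => ω a) (fun _ _ => hω a)
    rwa [Finset.prod_const, Finset.sum_const, Finset.card_range, nsmul_eq_mul] at h
  refine LE.nsmul (LE.prod univ _ _ fun a _ => h1 a) _ ?_
  rw [← map_natCast (MvPolynomial.C (σ := ι) (R := K)), ← MvPolynomial.monomial_zero']
  refine LE.monomial ?_ _
  unfold Wt
  simp

/-- the supporting functional -/
def Lf (k : ℝ) (g : ρ → ℝ) (N : ρ →₀ ℕ) : ℝ := k + ∑ s, g s * N s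

/-- the identity for the weights -/
theorem wt_id (k : ℝ) (g : ρ → ℝ) (N : ρ →₀ ℕ) (e : α → ℕ) (he : e ∈ EE ex n N) :
    ∑ a, e a * ω a = n * k + ∑ s, g s * N s - ∑ a, e a * (Lf k g (ex a) - ω a) := by
  rw [mem_EE] at he
  have he' : ∑ a, (e a : ℝ) = n := by exact_mod_cast he.1
  have hN' : ∀ s, ∑ a, (e a : ℝ) * (ex a s : ℝ) = N s := by
    intro s
    have := DFunLike.congr_fun he.2 s
    rw [Finsupp.finsetSum_apply] at this
    simp only [Finsupp.smul_apply, smul_eq_mul] at this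
    exact_mod_cast this
  have h1 : ∑ a, (e a : ℝ) * Lf k g (ex a) = n * k + ∑ s, g s * N s := by
    unfold Lf
    simp only [mul_add, Finset.sum_add_distrib]
    rw [← Finset.sum_mul, he']
    congr 1
    simp only [Finset.mul_sum]
    rw [Finset.sum_comm]
    refine Finset.sum_congr rfl fun s _ => ?_
    rw [← hN' s, Finset.mul_sum]
    exact Finset.sum_congr rfl fun a _ => by ring
  simp only [mul_sub, Finset.sum_sub_distrib]
  rw [h1]
  ring

/-- the bound for a coefficient -/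
theorem coeff_LE (hω : ∀ a, LE w (cf a) (ω a)) (k : ℝ) (g : ρ → ℝ) (τ : ℝ) (N : ρ →₀ ℕ)
    (h : ∀ e ∈ EE ex n N, τ ≤ ∑ a, e a * (Lf k g (ex a) - ω a)) :
    LE w (MvPolynomial.coeff N (PP ex cf ^ n)) (n * k + ∑ s, g s * N s - τ) := by
  rw [coeff_PP]
  refine LE.sum _ _ _ fun e he => ?_
  have h1 := term_LE cf ω hω e
  rw [wt_id ex n ω k g N e he] at h1
  have h2 := h e he
  exact fun c hc => (h1 c hc).trans (by linarith)

/-- the strict bound for a coefficient -/
theorem coeff_LT (hω : ∀ a, LE w (cf a) (ω a)) (k : ℝ) (g : ρ → ℝ) (τ : ℝ) (N : ρ →₀ ℕ)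
    (h : ∀ e ∈ EE ex n N, τ < ∑ a, e a * (Lf k g (ex a) - ω a)) :
    LT w (MvPolynomial.coeff N (PP ex cf ^ n)) (n * k + ∑ s, g s * N s - τ) := by
  rw [coeff_PP]
  refine LT.sum _ _ _ fun e he => ?_
  have h1 := term_LE cf ω hω e
  rw [wt_id ex n ω k g N e he] at h1
  have h2 := h e he
  exact fun c hc => (h1 c hc).trans_lt (by linarith)

/-- the leading term of a coefficient -/
theorem coeff_lead (hω : ∀ a, LE w (cf a) (ω a)) (k : ℝ) (g : ρ → ℝ) (τ : ℝ) (N : ρ →₀ ℕ) (e0 : α → ℕ) (h0 : e0 ∈ EE ex n N)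
    (h : ∀ e ∈ EE ex n N, e ≠ e0 → τ < ∑ a, e a * (Lf k g (ex a) - ω a)) :
    ∃ R, MvPolynomial.coeff N (PP ex cf ^ n) = term cf e0 + R ∧ LT w R (n * k + ∑ s, g s * N s - τ) := by
  refine ⟨∑ e ∈ (EE ex n N).erase e0, term cf e, ?_, ?_⟩
  · rw [coeff_PP, Finset.add_sum_erase _ _ h0]
  · refine LT.sum _ _ _ fun e he => ?_
    rw [Finset.mem_erase] at he
    have h1 := term_LE cf ω hω e
    rw [wt_id ex n ω k g N e he.2] at h1
    have h2 := h e he.2 he.1
    exact fun c hc => (h1 c hc).trans_lt (by linarith)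

/-- the multinomial coefficient is invertible -/
theorem multinomial_ne {p : ℕ} [hp : Fact p.Prime] (e : α → ℕ) (h : ∑ a, e a < p) : (Nat.multinomial univ e : ZMod p) ≠ 0 := by
  intro h0
  rw [ZMod.natCast_eq_zero_iff] at h0
  have h1 : Nat.multinomial univ e ∣ (∑ a, e a).factorial := ⟨_, (by rw [mul_comm]; exact (Nat.multinomial_spec univ e).symm)⟩
  have h2 := (Nat.Prime.dvd_factorial hp.out).1 (h0.trans h1)
  omega

end gen

section hw
variable {ρ : Type} [Fintype ρ] {α : Type} [Fintype α] [DecidableEq α]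
variable {κ : Type} [Fintype κ] [DecidableEq κ]

open Classical in
/-- the Hasse-Witt matrix -/
noncomputable def HWm {R : Type} [CommSemiring R] (p n : ℕ) (ex : α → ρ →₀ ℕ) (u : κ → ρ →₀ ℕ) (cf : α → R) : Matrix κ κ R :=
  Matrix.of fun i j => if u j ≤ p • u i then MvPolynomial.coeff (p • u i - u j) (PP ex cf ^ n) else 0

theorem HWm_map {R S : Type} [CommSemiring R] [CommSemiring S] (f : R →+* S) (p n : ℕ) (ex : α → ρ →₀ ℕ) (u : κ → ρ →₀ ℕ) (cf : α → R) :
    HWm p n ex u (fun a => f (cf a)) = (HWm p n ex u cf).map f := by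
  classical
  ext i j
  unfold HWm
  rw [Matrix.map_apply, Matrix.of_apply, Matrix.of_apply]
  split_ifs with h
  · rw [← MvPolynomial.coeff_map, map_pow]
    congr 2
    unfold PP
    rw [map_sum]
    exact Finset.sum_congr rfl fun i _ => (MvPolynomial.map_monomial _ _ _).symm
  · rw [map_zero]

end hw

section count
variable {ρ : Type} [Fintype ρ] {α : Type} [Fintype α] [DecidableEq α]
variable {ι : Type} [Fintype ι] [DecidableEq ι] {κ : Type} [Fintype κ] [DecidableEq κ]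

/-- the bounds for the entries -/
def TT (p n : ℕ) (u : κ → ρ →₀ ℕ) (k : κ → ℝ) (g : κ → ρ → ℝ) (τ : κ → ℝ) (i j : κ) : ℝ :=
  n * k i + ∑ s, g i s * (p * u i s - u j s) - τ i

theorem sub_cast {p : ℕ} {a b : ρ →₀ ℕ} (h : b ≤ p • a) (s : ρ) : (((p • a - b : ρ →₀ ℕ) s : ℕ) : ℝ) = p * a s - b s := by
  have h3 := h s
  rw [Finsupp.smul_apply, smul_eq_mul] at h3
  rw [Finsupp.tsub_apply, Finsupp.smul_apply, smul_eq_mul, Nat.cast_sub h3]
  push_cast
  ring

theorem le_smul {p : ℕ} (hp : 0 < p) (a : ρ →₀ ℕ) : a ≤ p • a := by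
  intro s
  rw [Finsupp.smul_apply, smul_eq_mul]
  exact Nat.le_mul_of_pos_left _ hp

omit [DecidableEq κ] in
/-- the differences of the bounds -/
theorem TT_diff (p n : ℕ) (u : κ → ρ →₀ ℕ) (k : κ → ℝ) (g : κ → ρ → ℝ) (τ : κ → ℝ) (σ : Equiv.Perm κ) :
    ∑ i, TT p n u k g τ i i - ∑ i, TT p n u k g τ (σ i) i = ∑ i, (Lf (k (σ i)) (g (σ i)) (u i) - Lf (k i) (g i) (u i)) := by
  set G : κ → ℝ := fun i => n * k i + k i + (p * ∑ s, g i s * u i s) - τ i with hG
  have h1 : ∀ i j, TT p n u k g τ i j = G i - Lf (k i) (g i) (u j) := by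
    intro i j
    unfold TT Lf
    rw [hG]
    simp only
    have e : ∑ s, g i s * (p * u i s - u j s) = p * (∑ s, g i s * u i s) - ∑ s, g i s * u j s := by
      rw [Finset.mul_sum, ← Finset.sum_sub_distrib]
      exact Finset.sum_congr rfl fun s _ => by ring
    rw [e]
    ring
  simp only [h1, Finset.sum_sub_distrib]
  rw [Equiv.sum_comp σ G]
  ring

/-- **Many invertible Hasse-Witt matrices.** -/
theorem count {p : ℕ} [hp : Fact p.Prime] (n : ℕ) (ex : α → ρ →₀ ℕ) (u : κ → ρ →₀ ℕ) (cf : α → MvPolynomial ι (ZMod p))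
    (w : ι → ℝ) (hw : ∀ s, 0 < w s) (ω : α → ℝ) (hω : ∀ a, LE w (cf a) (ω a)) (k : κ → ℝ) (g : κ → ρ → ℝ) (τ : κ → ℝ)
    (hle : ∀ i j, u j ≤ p • u i → ∀ e ∈ EE ex n (p • u i - u j), τ i ≤ ∑ a, e a * (Lf (k i) (g i) (ex a) - ω a))
    (e0 : κ → α → ℕ) (h0 : ∀ i, e0 i ∈ EE ex n (p • u i - u i))
    (hdiag : ∀ i, ∀ e ∈ EE ex n (p • u i - u i), e ≠ e0 i → τ i < ∑ a, e a * (Lf (k i) (g i) (ex a) - ω a))
    (M : κ → ι →₀ ℕ) (c : κ → ZMod p) (hc : ∀ i, c i ≠ 0) (hM : ∀ i, term cf (e0 i) = MvPolynomial.monomial (M i) (c i))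
    (hWt : ∀ i, Wt w (M i) = TT p n u k g τ i i)
    (hσ : ∀ σ : Equiv.Perm κ, σ ≠ 1 → ∑ i, TT p n u k g τ (σ i) i < ∑ i, TT p n u k g τ i i ∨
      (∑ i, TT p n u k g τ (σ i) i ≤ ∑ i, TT p n u k g τ i i ∧ ∃ i, u i ≤ p • u (σ i) →
        ∀ e ∈ EE ex n (p • u (σ i) - u i), τ (σ i) < ∑ a, e a * (Lf (k (σ i)) (g (σ i)) (ex a) - ω a)))
    (hm : ∀ s, (∑ i, M i : ι →₀ ℕ) s < p) :
    ∏ s, (p - (∑ i, M i : ι →₀ ℕ) s) ≤
      Nat.card {r : ι → ZMod p // (HWm p n ex u (fun a => MvPolynomial.eval r (cf a))).det ≠ 0} := by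
  classical
  set A : Matrix κ κ (MvPolynomial ι (ZMod p)) := HWm p n ex u cf with hA
  have hT : ∀ i j, u j ≤ p • u i → n * k i + ∑ s, g i s * ((p • u i - u j : ρ →₀ ℕ) s : ℕ) - τ i = TT p n u k g τ i j := by
    intro i j h
    unfold TT
    congr 2
    exact Finset.sum_congr rfl fun s _ => by rw [sub_cast h]
  have h1 : ∀ i j, LE w (A i j) (TT p n u k g τ i j) := by
    intro i j
    rw [hA]
    unfold HWm
    rw [Matrix.of_apply]
    split_ifs with h
    · rw [← hT i j h]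
      exact coeff_LE ex n cf ω hω _ _ _ _ (hle i j h)
    · exact LE.zero _
  have h2 : ∀ i, ∃ R, A i i = MvPolynomial.monomial (M i) (c i) + R ∧ LT w R (TT p n u k g τ i i) := by
    intro i
    obtain ⟨R, hR1, hR2⟩ := coeff_lead ex n cf ω hω (k i) (g i) (τ i) (p • u i - u i) (e0 i) (h0 i) (hdiag i)
    refine ⟨R, ?_, ?_⟩
    · rw [hA]
      unfold HWm
      rw [Matrix.of_apply, if_pos (le_smul hp.out.pos _), hR1, hM]
    · rwa [hT i i (le_smul hp.out.pos _)] at hR2
  obtain ⟨R, hR1, hR2⟩ := det_lead A (TT p n u k g τ) M c h1 h2 hWt (fun σ hσ1 => by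
    rcases hσ σ hσ1 with h | ⟨h, i, hi⟩
    · exact Or.inl h
    · refine Or.inr ⟨h, i, ?_⟩
      rw [hA]
      unfold HWm
      rw [Matrix.of_apply]
      split_ifs with h'
      · rw [← hT _ _ h']
        exact coeff_LT ex n cf ω hω _ _ _ _ (hi h')
      · exact LT.zero _)
  set F := A.det with hF
  have hprod : ∏ i, c i ≠ 0 := Finset.prod_ne_zero_iff.2 fun i _ => hc i
  have hcM : F.coeff (∑ i, M i) ≠ 0 := by
    rw [hR1, MvPolynomial.coeff_add, MvPolynomial.coeff_monomial, if_pos rfl]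
    have : R.coeff (∑ i, M i) = 0 := by
      by_contra h
      exact lt_irrefl _ (hR2 _ (MvPolynomial.mem_support_iff.2 h))
    rw [this, add_zero]
    exact hprod
  have hlt : ∀ b ∈ F.support, b ≠ ∑ i, M i → Wt w b < Wt w (∑ i, M i : ι →₀ ℕ) := by
    intro b hb hne
    apply hR2
    rw [MvPolynomial.mem_support_iff] at hb ⊢
    rw [hR1, MvPolynomial.coeff_add, MvPolynomial.coeff_monomial, if_neg (fun h => hne h.symm), zero_add] at hb
    exact hb
  have hfoot := foot' F w hw (∑ i, M i) (fun s => by rw [ZMod.card]; exact hm s) hcM hlt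
  rw [ZMod.card] at hfoot
  refine hfoot.trans (le_of_eq ?_)
  refine Nat.card_congr (Equiv.subtypeEquivRight fun r => ?_)
  have e1 : MvPolynomial.eval r F = (HWm p n ex u (fun a => MvPolynomial.eval r (cf a))).det := by
    rw [hF, RingHom.map_det, RingHom.mapMatrix_apply, hA, HWm_map (MvPolynomial.eval r) p n ex u cf]
  rw [e1]

end count

end Run7.h328.ORD.Fn
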