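import Pool.Agent.Run7.h328.ORD.Foot

/-! # The leading monomial of the Hasse-Witt determinant of a general hyperelliptic curve -/

set_option autoImplicit false

namespace Run7.h328.ORD

open Finset

section wt
variable {σ : Type} [Fintype σ] {K : Type} [Field K]

/-- all monomials have weight at most `t` -/
def LE (w : σ → ℝ) (P : MvPolynomial σ K) (t : ℝ) : Prop := ∀ c ∈ P.support, Wt w c ≤ t

/-- all monomials have weight less than `t` -/
def LT (w : σ → ℝ) (P : MvPolynomial σ K) (t : ℝ) : Prop := ∀ c ∈ P.support, Wt w c < t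

variable {w : σ → ℝ}

theorem LT.le {P : MvPolynomial σ K} {t : ℝ} (h : LT w P t) : LE w P t := fun c hc => (h c hc).le

theorem LE.lt {P : MvPolynomial σ K} {t t' : ℝ} (h : LE w P t) (ht : t < t') : LT w P t' := fun c hc => (h c hc).trans_lt ht

theorem LT.mono {P : MvPolynomial σ K} {t t' : ℝ} (h : LT w P t) (ht : t ≤ t') : LT w P t' := fun c hc => (h c hc).trans_le ht

theorem Wt_addf (a b : σ →₀ ℕ) : Wt w (a + b : σ →₀ ℕ) = Wt w a + Wt w b := by
  rw [← Wt_add]
  rfl

open Classical in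
theorem LE.mul {P Q : MvPolynomial σ K} {t s : ℝ} (hP : LE w P t) (hQ : LE w Q s) : LE w (P * Q) (t + s) := by
  intro c hc
  obtain ⟨a, ha, b, hb, rfl⟩ := Finset.mem_add.1 (MvPolynomial.support_mul P Q hc)
  rw [Wt_addf]
  exact add_le_add (hP a ha) (hQ b hb)

open Classical in
theorem LT.mul {P Q : MvPolynomial σ K} {t s : ℝ} (hP : LT w P t) (hQ : LE w Q s) : LT w (P * Q) (t + s) := by
  intro c hc
  obtain ⟨a, ha, b, hb, rfl⟩ := Finset.mem_add.1 (MvPolynomial.support_mul P Q hc)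
  rw [Wt_addf]
  exact add_lt_add_of_lt_of_le (hP a ha) (hQ b hb)

theorem LT.mul' {P Q : MvPolynomial σ K} {t s : ℝ} (hP : LE w P t) (hQ : LT w Q s) : LT w (P * Q) (t + s) := by
  rw [mul_comm, add_comm]
  exact hQ.mul hP

open Classical in
theorem LE.add {P Q : MvPolynomial σ K} {t : ℝ} (hP : LE w P t) (hQ : LE w Q t) : LE w (P + Q) t := by
  intro c hc
  rcases Finset.mem_union.1 (MvPolynomial.support_add hc) with h | h
  · exact hP c h
  · exact hQ c h

open Classical in
theorem LT.add {P Q : MvPolynomial σ K} {t : ℝ} (hP : LT w P t) (hQ : LT w Q t) : LT w (P + Q) t := by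
  intro c hc
  rcases Finset.mem_union.1 (MvPolynomial.support_add hc) with h | h
  · exact hP c h
  · exact hQ c h

theorem LE.zero (t : ℝ) : LE w (0 : MvPolynomial σ K) t := by
  intro c hc
  simp at hc

theorem LT.zero (t : ℝ) : LT w (0 : MvPolynomial σ K) t := by
  intro c hc
  simp at hc

theorem LE.one : LE w (1 : MvPolynomial σ K) 0 := by
  classical
  intro c hc
  rw [MvPolynomial.mem_support_iff, MvPolynomial.coeff_one] at hc
  have : (0 : σ →₀ ℕ) = c := by
    by_contra h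
    exact hc (if_neg h)
  rw [← this]
  unfold Wt
  simp

theorem LE.sum {κ : Type*} (s : Finset κ) (P : κ → MvPolynomial σ K) (t : ℝ) (h : ∀ i ∈ s, LE w (P i) t) :
    LE w (∑ i ∈ s, P i) t := by
  classical
  induction s using Finset.induction_on with
  | empty => exact LE.zero t
  | insert a s ha ih =>
    rw [Finset.sum_insert ha]
    exact (h a (Finset.mem_insert_self _ _)).add (ih fun i hi => h i (Finset.mem_insert_of_mem hi))

theorem LT.sum {κ : Type*} (s : Finset κ) (P : κ → MvPolynomial σ K) (t : ℝ) (h : ∀ i ∈ s, LT w (P i) t) :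
    LT w (∑ i ∈ s, P i) t := by
  classical
  induction s using Finset.induction_on with
  | empty => exact LT.zero t
  | insert a s ha ih =>
    rw [Finset.sum_insert ha]
    exact (h a (Finset.mem_insert_self _ _)).add (ih fun i hi => h i (Finset.mem_insert_of_mem hi))

theorem LE.prod {κ : Type*} (s : Finset κ) (P : κ → MvPolynomial σ K) (t : κ → ℝ) (h : ∀ i ∈ s, LE w (P i) (t i)) :
    LE w (∏ i ∈ s, P i) (∑ i ∈ s, t i) := by
  classical
  induction s using Finset.induction_on with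
  | empty => simpa using LE.one
  | insert a s ha ih =>
    rw [Finset.prod_insert ha, Finset.sum_insert ha]
    exact (h a (Finset.mem_insert_self _ _)).mul (ih fun i hi => h i (Finset.mem_insert_of_mem hi))

/-- products of sums of a leading term and a rest -/
theorem prod_lead {κ : Type*} (s : Finset κ) (M R : κ → MvPolynomial σ K) (t : κ → ℝ) (hM : ∀ i ∈ s, LE w (M i) (t i))
    (hR : ∀ i ∈ s, LT w (R i) (t i)) : LT w (∏ i ∈ s, (M i + R i) - ∏ i ∈ s, M i) (∑ i ∈ s, t i) := by
  classical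
  induction s using Finset.induction_on with
  | empty => simpa using LT.zero (w := w) (K := K) 0
  | insert a s ha ih =>
    rw [Finset.prod_insert ha, Finset.prod_insert ha, Finset.sum_insert ha]
    have h1 := ih (fun i hi => hM i (Finset.mem_insert_of_mem hi)) (fun i hi => hR i (Finset.mem_insert_of_mem hi))
    have h2 : LE w (∏ i ∈ s, (M i + R i)) (∑ i ∈ s, t i) :=
      LE.prod s _ t fun i hi => (hM i (Finset.mem_insert_of_mem hi)).add (hR i (Finset.mem_insert_of_mem hi)).le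
    have e : (M a + R a) * ∏ i ∈ s, (M i + R i) - M a * ∏ i ∈ s, M i =
        M a * (∏ i ∈ s, (M i + R i) - ∏ i ∈ s, M i) + R a * ∏ i ∈ s, (M i + R i) := by ring
    rw [e]
    exact (LT.mul' (hM a (Finset.mem_insert_self _ _)) h1).add ((hR a (Finset.mem_insert_self _ _)).mul h2)

theorem LE.nsmul {P : MvPolynomial σ K} {t : ℝ} (h : LE w P t) (a : MvPolynomial σ K) (ha : LE w a 0) : LE w (a * P) t := by
  have := ha.mul h
  rwa [zero_add] at this

end wt

section gen
variable {K : Type} [Field K] (g n : ℕ)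

/-- the weights of the coefficients -/
noncomputable def ww (i : Fin (2 * g + 1)) : ℝ := ((2 * g + 1) ^ 2 + 1) - (i : ℝ) ^ 2

theorem ww_pos (i : Fin (2 * g + 1)) : 0 < ww g i := by
  unfold ww
  have h1 : ((i : ℕ) : ℝ) ≤ 2 * g + 1 := by exact_mod_cast i.2.le
  have h2 : (0 : ℝ) ≤ ((i : ℕ) : ℝ) := Nat.cast_nonneg _
  nlinarith

/-- the general polynomial -/
noncomputable def gen : Polynomial (MvPolynomial (Fin (2 * g + 1)) K) :=
  Polynomial.X ^ (2 * g + 1) + ∑ i : Fin (2 * g + 1), Polynomial.C (MvPolynomial.X i) * Polynomial.X ^ (i : ℕ)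

/-- its coefficients -/
noncomputable def aa : Fin (2 * g + 1 + 1) → MvPolynomial (Fin (2 * g + 1)) K :=
  Fin.snoc (α := fun _ => MvPolynomial (Fin (2 * g + 1)) K) (fun i => MvPolynomial.X i) 1

theorem aa_castSucc (i : Fin (2 * g + 1)) : aa (K := K) g i.castSucc = MvPolynomial.X i := by
  unfold aa
  exact Fin.snoc_castSucc (n := 2 * g + 1) (α := fun _ => MvPolynomial (Fin (2 * g + 1)) K) 1 (fun i => MvPolynomial.X i) i

theorem aa_last : aa (K := K) g (Fin.last (2 * g + 1)) = 1 := by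
  unfold aa
  exact Fin.snoc_last (n := 2 * g + 1) (α := fun _ => MvPolynomial (Fin (2 * g + 1)) K) 1 (fun i => MvPolynomial.X i)

theorem gen_eq : gen (K := K) g = ∑ k : Fin (2 * g + 1 + 1), Polynomial.C (aa g k) * Polynomial.X ^ (k : ℕ) := by
  unfold gen
  rw [Fin.sum_univ_castSucc (n := 2 * g + 1)]
  simp only [aa_castSucc, aa_last, Fin.val_castSucc, Fin.val_last, Polynomial.C_1, one_mul]
  exact add_comm _ _

/-- the term of the multinomial expansion -/
noncomputable def term (e : Fin (2 * g + 1 + 1) → ℕ) : MvPolynomial (Fin (2 * g + 1)) K :=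
  (Nat.multinomial univ e : MvPolynomial (Fin (2 * g + 1)) K) * ∏ k, aa g k ^ e k

theorem coeff_gen (N : ℕ) : (gen (K := K) g ^ n).coeff N =
    ∑ e ∈ ((univ : Finset (Fin (2 * g + 1 + 1))).piAntidiag n).filter (fun e => ∑ k : Fin (2 * g + 1 + 1), (k : ℕ) * e k = N), term g e := by
  rw [gen_eq, Finset.sum_pow_eq_sum_piAntidiag, Polynomial.finsetSum_coeff, Finset.sum_filter]
  refine Finset.sum_congr rfl fun e _ => ?_
  have e1 : ∏ k, (Polynomial.C (aa (K := K) g k) * Polynomial.X ^ (k : ℕ)) ^ e k =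
      Polynomial.C (∏ k, aa g k ^ e k) * Polynomial.X ^ (∑ k, ((k : Fin (2 * g + 1 + 1)) : ℕ) * e k) := by
    simp only [mul_pow, Finset.prod_mul_distrib, ← pow_mul, map_prod, map_pow, Finset.prod_pow_eq_pow_sum]
  rw [e1]
  have e2 : ((Nat.multinomial univ e : ℕ) : Polynomial (MvPolynomial (Fin (2 * g + 1)) K)) =
      Polynomial.C ((Nat.multinomial univ e : ℕ) : MvPolynomial (Fin (2 * g + 1)) K) := (Polynomial.C_eq_natCast _).symm
  rw [e2, ← mul_assoc, ← Polynomial.C_mul, Polynomial.coeff_C_mul, Polynomial.coeff_X_pow]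
  unfold term
  by_cases h : ∑ k, ((k : Fin (2 * g + 1 + 1)) : ℕ) * e k = N
  · rw [if_pos h, if_pos h.symm, mul_one]
  · rw [if_neg h, if_neg (fun h' => h h'.symm), mul_zero]

/-- the exponents of the monomial -/
noncomputable def ebar (e : Fin (2 * g + 1 + 1) → ℕ) : Fin (2 * g + 1) →₀ ℕ := Finsupp.equivFunOnFinite.symm fun i => e i.castSucc

theorem prod_aa (e : Fin (2 * g + 1 + 1) → ℕ) : ∏ k, aa (K := K) g k ^ e k = MvPolynomial.monomial (ebar g e) 1 := by
  rw [Fin.prod_univ_castSucc, MvPolynomial.monomial_eq, map_one, one_mul, Finsupp.prod_fintype _ _ (fun _ => pow_zero _)]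
  simp only [aa_castSucc, aa_last, one_pow, mul_one]
  rfl

/-- the weight of a term -/
theorem wt_term (e : Fin (2 * g + 1 + 1) → ℕ) (hn : 0 < n) (he : ∑ k, e k = n) (N : ℕ) (hN : ∑ k : Fin (2 * g + 1 + 1), (k : ℕ) * e k = N) :
    n * Wt (ww g) (ebar g e) + (∑ k : Fin (2 * g + 1 + 1), (e k : ℝ) * (n * (k : ℕ) - N) ^ 2) / n ≤ n * (n * ((2 * g + 1) ^ 2 + 1)) - (N : ℝ) ^ 2 := by
  have hn0 : (0 : ℝ) < n := by exact_mod_cast hn
  have he' : ∑ k, (e k : ℝ) = n := by exact_mod_cast he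
  have hN' : ∑ k : Fin (2 * g + 1 + 1), ((k : ℕ) : ℝ) * (e k : ℝ) = N := by exact_mod_cast hN
  have h1 : Wt (ww g) (ebar g e) ≤ ∑ k : Fin (2 * g + 1 + 1), (((2 * g + 1) ^ 2 + 1) - ((k : ℕ) : ℝ) ^ 2) * e k := by
    rw [Fin.sum_univ_castSucc]
    unfold Wt ww ebar
    simp only [Finsupp.equivFunOnFinite_symm_apply_apply, Fin.val_castSucc, Fin.val_last]
    have h2 : (0 : ℝ) ≤ (((2 * g + 1) ^ 2 + 1) - (((2 * g + 1 : ℕ)) : ℝ) ^ 2) * e (Fin.last (2 * g + 1)) := by
      apply mul_nonneg _ (Nat.cast_nonneg _)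
      push_cast
      linarith
    linarith
  have h3 : ∑ k : Fin (2 * g + 1 + 1), (((2 * g + 1) ^ 2 + 1) - ((k : ℕ) : ℝ) ^ 2) * e k =
      n * ((2 * g + 1) ^ 2 + 1) - ∑ k : Fin (2 * g + 1 + 1), ((k : ℕ) : ℝ) ^ 2 * e k := by
    simp only [sub_mul, Finset.sum_sub_distrib]
    rw [← Finset.mul_sum, he']
    ring
  have h4 : ∑ k : Fin (2 * g + 1 + 1), (e k : ℝ) * (n * (k : ℕ) - N) ^ 2 = n * (n * (∑ k : Fin (2 * g + 1 + 1), ((k : ℕ) : ℝ) ^ 2 * e k) - (N : ℝ) ^ 2) := by
    have e1 : ∀ k : Fin (2 * g + 1 + 1), (e k : ℝ) * (n * (k : ℕ) - N) ^ 2 =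
        n ^ 2 * (((k : ℕ) : ℝ) ^ 2 * e k) - 2 * n * N * (((k : ℕ) : ℝ) * e k) + N ^ 2 * e k := by
      intro k
      ring
    rw [Finset.sum_congr rfl fun k _ => e1 k, Finset.sum_add_distrib, Finset.sum_sub_distrib, ← Finset.mul_sum, ← Finset.mul_sum,
      ← Finset.mul_sum, he', hN']
    ring
  rw [h4, mul_div_cancel_left₀ _ hn0.ne']
  have h5 : n * Wt (ww g) (ebar g e) ≤ n * (n * ((2 * g + 1) ^ 2 + 1) - ∑ k : Fin (2 * g + 1 + 1), ((k : ℕ) : ℝ) ^ 2 * e k) := by
    apply mul_le_mul_of_nonneg_left _ hn0.le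
    rw [← h3]
    exact h1
  linarith

/-- the bound for the weights -/
noncomputable def TT (N : ℕ) : ℝ := n * ((2 * g + 1) ^ 2 + 1) - (N : ℝ) ^ 2 / n

theorem term_sup (e : Fin (2 * g + 1 + 1) → ℕ) (t : ℝ) (h : Wt (ww g) (ebar g e) ≤ t) : LE (ww g) (term (K := K) g e) t := by
  intro c hc
  unfold term at hc
  rw [prod_aa, ← map_natCast (MvPolynomial.C (σ := Fin (2 * g + 1)) (R := K)), MvPolynomial.C_mul_monomial,
    MvPolynomial.mem_support_iff, MvPolynomial.coeff_monomial] at hc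
  have : ebar g e = c := by
    by_contra h'
    exact hc (if_neg h')
  rw [← this]
  exact h

theorem entry_le (hn : 0 < n) (N : ℕ) : LE (ww g) ((gen (K := K) g ^ n).coeff N) (TT g n N) := by
  rw [coeff_gen]
  refine LE.sum _ _ _ fun e he => term_sup g e _ ?_
  rw [Finset.mem_filter, Finset.mem_piAntidiag] at he
  have hn0 : (0 : ℝ) < n := by exact_mod_cast hn
  have h1 := wt_term g n e hn he.1.1 N he.2
  have h2 : 0 ≤ (∑ k, (e k : ℝ) * (n * ((k : Fin (2 * g + 1 + 1)) : ℕ) - N) ^ 2) / n :=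
    div_nonneg (Finset.sum_nonneg fun k _ => by positivity) hn0.le
  unfold TT
  have h3 : n * Wt (ww g) (ebar g e) ≤ n * (n * ((2 * g + 1) ^ 2 + 1) - (N : ℝ) ^ 2 / n) := by
    rw [mul_sub, mul_div_cancel₀ _ hn0.ne']
    linarith
  exact le_of_mul_le_mul_left h3 hn0

/-- the diagonal entries -/
theorem entry_diag (hn : 0 < n) (k : Fin (2 * g + 1)) : ∃ R : MvPolynomial (Fin (2 * g + 1)) K,
    (gen (K := K) g ^ n).coeff (n * (k : ℕ)) = MvPolynomial.monomial (Finsupp.single k n) 1 + R ∧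
      LT (ww g) R (TT g n (n * (k : ℕ))) := by
  classical
  have hn0 : (0 : ℝ) < n := by exact_mod_cast hn
  set e0 : Fin (2 * g + 1 + 1) → ℕ := Pi.single k.castSucc n with he0
  set E := ((univ : Finset (Fin (2 * g + 1 + 1))).piAntidiag n).filter (fun e => ∑ j : Fin (2 * g + 1 + 1), (j : ℕ) * e j = n * (k : ℕ)) with hE
  have hmem : e0 ∈ E := by
    rw [hE, Finset.mem_filter, Finset.mem_piAntidiag]
    refine ⟨⟨?_, fun i _ => Finset.mem_univ i⟩, ?_⟩
    · rw [he0, Finset.sum_pi_single']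
      simp
    · rw [he0, Finset.sum_eq_single k.castSucc]
      · rw [Pi.single_eq_same, Fin.val_castSucc, mul_comm]
      · intro j _ hj
        rw [Pi.single_eq_of_ne hj, mul_zero]
      · intro h
        exact absurd (Finset.mem_univ _) h
  refine ⟨∑ e ∈ E.erase e0, term g e, ?_, ?_⟩
  · rw [coeff_gen, ← hE, ← Finset.add_sum_erase E _ hmem]
    congr 1
    unfold term
    rw [prod_aa]
    have h1 : Nat.multinomial univ e0 = 1 := by
      have h2 := Nat.multinomial_spec univ e0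
      have h3 : ∑ i, e0 i = n := by
        rw [he0, Finset.sum_pi_single']
        simp
      have h4 : ∏ i, (e0 i).factorial = n.factorial := by
        rw [Finset.prod_eq_single k.castSucc]
        · rw [he0, Pi.single_eq_same]
        · intro j _ hj
          rw [he0, Pi.single_eq_of_ne hj, Nat.factorial_zero]
        · intro h
          exact absurd (Finset.mem_univ _) h
      rw [h3, h4] at h2
      exact Nat.eq_of_mul_eq_mul_left (Nat.factorial_pos n) (by rw [h2, mul_one])
    have h5 : ebar g e0 = Finsupp.single k n := by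
      ext i
      unfold ebar
      rw [Finsupp.equivFunOnFinite_symm_apply_apply, Finsupp.single_apply, he0, Pi.single_apply]
      simp only [Fin.castSucc_inj, eq_comm]
    rw [h1, h5, Nat.cast_one, one_mul]
  · refine LT.sum _ _ _ fun e he => ?_
    rw [Finset.mem_erase] at he
    have he2 := he.2
    rw [hE, Finset.mem_filter, Finset.mem_piAntidiag] at he2
    refine (term_sup g e _ le_rfl).lt ?_
    have h1 := wt_term g n e hn he2.1.1 (n * (k : ℕ)) he2.2
    have h2 : 0 < (∑ j, (e j : ℝ) * (n * ((j : Fin (2 * g + 1 + 1)) : ℕ) - ((n * (k : ℕ) : ℕ) : ℝ)) ^ 2) / n := by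
      apply div_pos _ hn0
      have h3 : ∃ j, j ≠ k.castSucc ∧ e j ≠ 0 := by
        by_contra hcon
        push Not at hcon
        apply he.1
        funext j
        by_cases hj : j = k.castSucc
        · have h4 := he2.1.1
          rw [Finset.sum_eq_single k.castSucc (fun j _ hj => hcon j hj) (fun h => absurd (Finset.mem_univ _) h)] at h4
          rw [hj, h4, he0, Pi.single_eq_same]
        · rw [hcon j hj, he0, Pi.single_eq_of_ne hj]
      obtain ⟨j, hj1, hj2⟩ := h3
      refine Finset.sum_pos' (fun j _ => by positivity) ⟨j, Finset.mem_univ j, ?_⟩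
      have h5 : (0 : ℝ) < e j := by exact_mod_cast Nat.pos_of_ne_zero hj2
      have h6 : ((j : ℕ) : ℝ) ≠ ((k : ℕ) : ℝ) := by
        intro h
        apply hj1
        have : (j : ℕ) = (k : ℕ) := by exact_mod_cast h
        exact Fin.ext this
      have h7 : (n * ((j : ℕ) : ℝ) - ((n * (k : ℕ) : ℕ) : ℝ)) ≠ 0 := by
        push_cast
        rw [← mul_sub]
        exact mul_ne_zero hn0.ne' (sub_ne_zero.2 h6)
      positivity
    unfold TT
    have h3 : n * Wt (ww g) (ebar g e) < n * (n * ((2 * g + 1) ^ 2 + 1) - ((n * (k : ℕ) : ℕ) : ℝ) ^ 2 / n) := by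
      rw [mul_sub, mul_div_cancel₀ _ hn0.ne']
      linarith
    exact lt_of_mul_lt_mul_left h3 hn0.le

end gen

end Run7.h328.ORD
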