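import Pool.Agent.Run7.h328.ORD.Det
import Pool.Agent.Run7.h328.SEP.TupK

/-! # Ordinary reduction of hyperelliptic curves over number fields -/

set_option autoImplicit false

namespace Run7.h328.ORD

open NumberField IsDedekindDomain Finset Filter
open Pool.Agent.H921R2.TatePole (nm two_le_nm below deg nm_eq below_le_nm kerPrime card_above)
open Pool.Agent.H341R2 (nm_kerPrime)
open Pool.Agent.Y722.HS (box EM red PR mem_PR EM_const EM_mono)
open Pool.Agent.Y722.LS (EM_add EM_mul)
open Run7.h328.SEP (locK finite_low low_summable count_sq)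
open Run7.h328.SEP.Hyp (Gd)
open Run7.h328.SEP.HypK (rv GoodK)
open Run7.h328.SEP.TupK (good_prime EM_shift_gen)

section nf
variable {K : Type} [Field K] [NumberField K]

/-- good ordinary reduction at `v` -/
def OV {g : ℕ} (v : HeightOneSpectrum (𝓞 K)) (c : Fin (2 * g + 1) → 𝓞 K) : Prop :=
  GoodK v c ∧ (HW (ringChar (𝓞 K ⧸ v.asIdeal)) (rv v c)).det ≠ 0

theorem HW_map {k k' : Type} [Field k] [Field k'] (e : k →+* k') (p : ℕ) {g : ℕ} (c : Fin (2 * g + 1) → k) :
    HW p (fun i => e (c i)) = (HW p c).map e := by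
  ext i j
  unfold HW
  rw [Matrix.map_apply, Matrix.of_apply, Matrix.of_apply]
  split_ifs with h
  · rw [← Polynomial.coeff_map, Polynomial.map_pow]
    congr 2
    simp only [Polynomial.map_add, Polynomial.map_pow, Polynomial.map_X, Polynomial.map_sum, Polynomial.map_mul,
      Polynomial.map_C]
  · rw [map_zero]

theorem OV_prime {g : ℕ} (c : Fin (2 * g + 1) → 𝓞 K) (p : Nat.Primes) [hp : Fact (p : ℕ).Prime]
    (φ : 𝓞 K →+* ZMod (p : ℕ)) : OV (kerPrime p φ).1.1 c ↔ Op g (p : ℕ) (fun i => φ (c i)) := by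
  set v := (kerPrime p φ).1.1 with hv
  let e : (𝓞 K ⧸ v.asIdeal) ≃+* ZMod (p : ℕ) := RingHom.quotientKerEquivOfSurjective (ZMod.ringHom_surjective φ)
  have h1 := good_prime c p φ
  have hchar : ringChar (𝓞 K ⧸ v.asIdeal) = (p : ℕ) := by
    have : CharP (𝓞 K ⧸ v.asIdeal) (p : ℕ) := by
      constructor
      intro x
      rw [← e.injective.eq_iff, map_natCast, map_zero]
      exact ZMod.natCast_eq_zero_iff x (p : ℕ)
    exact ringChar.eq _ _
  have h2 : (HW (ringChar (𝓞 K ⧸ v.asIdeal)) (rv v c)).det ≠ 0 ↔ (HW (p : ℕ) (fun i => φ (c i))).det ≠ 0 := by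
    rw [hchar]
    have h3 : (fun i => φ (c i)) = fun i => (e : (𝓞 K ⧸ v.asIdeal) →+* ZMod (p : ℕ)) (rv v c i) := rfl
    rw [h3, HW_map]
    have h4 := RingHom.map_det (e : (𝓞 K ⧸ v.asIdeal) →+* ZMod (p : ℕ)) (HW (p : ℕ) (rv v c))
    rw [RingHom.mapMatrix_apply] at h4
    rw [← h4]
    exact (map_ne_zero_iff _ e.injective).symm
  unfold OV Op
  rw [h2]
  constructor
  · rintro ⟨h, h'⟩
    have := h1.1 h
    exact ⟨this.1, this.2, h'⟩
  · rintro ⟨h, h', h''⟩
    exact ⟨h1.2 ⟨h, h'⟩, h''⟩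

open Classical in
/-- the exact proportion -/
noncomputable def dl (g q : ℕ) : ℝ :=
  if h : q.Prime then
    haveI := Fact.mk h
    EM q (fun r : Fin (2 * g + 1) → ZMod q => if Op g q r then (1 : ℝ) else 0) else 0

open Classical in
theorem dl_mem (g q : ℕ) : 0 ≤ dl g q ∧ dl g q ≤ 1 := by
  unfold dl
  split_ifs with h
  · haveI := Fact.mk h
    constructor
    · have := EM_mono q (fun _ => (0 : ℝ)) (fun r : Fin (2 * g + 1) → ZMod q => if Op g q r then (1 : ℝ) else 0)
        (fun r => by split_ifs <;> norm_num)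
      rwa [EM_const] at this
    · have := EM_mono q (fun r : Fin (2 * g + 1) → ZMod q => if Op g q r then (1 : ℝ) else 0) (fun _ => (1 : ℝ))
        (fun r => by split_ifs <;> norm_num)
      rwa [EM_const] at this
  · exact ⟨le_rfl, zero_le_one⟩

theorem dl_ge (g q : ℕ) (h : q.Prime) : (1 / 2 : ℝ) ^ g - (2 * g + 2) / q ≤ dl g q := by
  have := Fact.mk h
  unfold dl
  rw [dif_pos h]
  exact EM_ord g q

open Classical in
/-- the local term -/
noncomputable def GO {g : ℕ} (c : Fin (2 * g + 1) → 𝓞 K) (v : HeightOneSpectrum (𝓞 K)) : ℝ :=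
  if (nm v).Prime then (if OV v c then 1 else 0) - dl g (nm v) else 0

theorem GO_le {g : ℕ} (c : Fin (2 * g + 1) → 𝓞 K) (v : HeightOneSpectrum (𝓞 K)) : |GO c v| ≤ 1 := by
  unfold GO
  have h1 := dl_mem g (nm v)
  split_ifs
  · rw [abs_le]; constructor <;> linarith
  · rw [abs_le]; constructor <;> linarith
  · rw [abs_zero]; exact zero_le_one

open Classical in
/-- the local function at the homomorphism `φ` -/
noncomputable def SO {g : ℕ} (α : Fin (2 * g + 1) → 𝓞 K) (p : ℕ) [Fact p.Prime] (φ : 𝓞 K →+* ZMod p)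
    (r : Fin (2 * g + 1) → ZMod p) : ℝ := (if Op g p (r + fun i => φ (α i)) then 1 else 0) - dl g p

theorem SO_le {g : ℕ} (α : Fin (2 * g + 1) → 𝓞 K) (p : ℕ) [Fact p.Prime] (φ : 𝓞 K →+* ZMod p)
    (r : Fin (2 * g + 1) → ZMod p) : |SO α p φ r| ≤ 1 := by
  unfold SO
  have h1 := dl_mem g p
  split_ifs
  · rw [abs_le]; constructor <;> linarith
  · rw [abs_le]; constructor <;> linarith

open Classical in
theorem SO_mean {g : ℕ} (α : Fin (2 * g + 1) → 𝓞 K) (p : ℕ) [hp : Fact p.Prime] (φ : 𝓞 K →+* ZMod p) :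
    EM p (SO α p φ) = 0 := by
  have h1 := EM_shift_gen p (fun i => φ (α i)) (fun r : Fin (2 * g + 1) → ZMod p => if Op g p r then (1 : ℝ) else 0)
  have e : SO α p φ = fun r => (if Op g p (r + fun i => φ (α i)) then (1 : ℝ) else 0) + (- dl g p) := by
    funext r
    rfl
  rw [e, EM_add p (fun r => if Op g p (r + fun i => φ (α i)) then (1 : ℝ) else 0) (fun _ => - dl g p), EM_const, h1]
  unfold dl
  rw [dif_pos hp.out]
  ring

/-- the primes of small norm and of higher degree -/
theorem small_sum (N : ℕ) (V : Finset (HeightOneSpectrum (𝓞 K))) (hV : ∀ v ∈ V, nm v ≤ N) :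
    ∑ v ∈ V, (if (nm v).Prime then (1 : ℝ) / nm v else 1) ≤ Module.finrank ℚ K * (4 * Real.sqrt N) := by
  classical
  have hmaps : ∀ v ∈ V, ((below v : Nat.Primes) : ℕ) ∈ PR N := by
    intro v hv
    rw [mem_PR]
    exact ⟨(below_le_nm v).trans (hV v hv), (below v).2⟩
  rw [← Finset.sum_fiberwise_of_maps_to hmaps]
  have h1 : ∀ p ∈ PR N, ∑ v ∈ V with ((below v : Nat.Primes) : ℕ) = p, (if (nm v).Prime then (1 : ℝ) / nm v else 1) ≤
      Module.finrank ℚ K * (1 / p + if p ^ 2 ≤ N then 2 else 0) := by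
    intro p hp
    have hpp := (mem_PR.mp hp).2
    have hp0 : (0 : ℝ) < p := by exact_mod_cast hpp.pos
    have hcard : (V.filter (fun v => ((below v : Nat.Primes) : ℕ) = p)).card ≤ Module.finrank ℚ K := by
      refine card_above ⟨p, hpp⟩ _ fun v hv => ?_
      rw [Finset.mem_filter] at hv
      exact Subtype.ext hv.2
    have hterm : ∀ v ∈ V.filter (fun v => ((below v : Nat.Primes) : ℕ) = p), (if (nm v).Prime then (1 : ℝ) / nm v else 1) ≤
        1 / p + if p ^ 2 ≤ N then 2 else 0 := by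
      intro v hv
      rw [Finset.mem_filter] at hv
      obtain ⟨h3, h4, _⟩ := nm_eq v
      rw [hv.2] at h3
      have hi : (0 : ℝ) ≤ if p ^ 2 ≤ N then 2 else 0 := by split_ifs <;> norm_num
      by_cases hd : deg v = 1
      · rw [hd, pow_one] at h3
        rw [h3, if_pos hpp]
        linarith
      · have h5 : p ^ 2 ≤ nm v := by
          rw [h3]
          exact Nat.pow_le_pow_right hpp.pos (by omega)
        rw [if_pos (h5.trans (hV v hv.1))]
        have h6 : (if (nm v).Prime then (1 : ℝ) / nm v else 1) ≤ 1 := by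
          split_ifs
          · have := two_le_nm v
            rw [div_le_one (by exact_mod_cast (by omega : 0 < nm v))]
            exact_mod_cast (by omega : 1 ≤ nm v)
          · exact le_rfl
        have h7 : (0 : ℝ) ≤ 1 / p := by positivity
        linarith
    refine (Finset.sum_le_card_nsmul _ _ _ hterm).trans ?_
    rw [nsmul_eq_mul]
    apply mul_le_mul_of_nonneg_right (by exact_mod_cast hcard)
    have : (0 : ℝ) ≤ if p ^ 2 ≤ N then 2 else 0 := by split_ifs <;> norm_num
    positivity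
  refine (Finset.sum_le_sum h1).trans ?_
  rw [← Finset.mul_sum, Finset.sum_add_distrib]
  apply mul_le_mul_of_nonneg_left _ (Nat.cast_nonneg _)
  have h2 := count_sq N
  have h3 : ∑ p ∈ PR N, (1 : ℝ) / p ≤ 2 * Real.sqrt N := by
    rcases Nat.eq_zero_or_pos N with h0 | h0
    · rw [h0]
      have : PR 0 = ∅ := by
        ext p
        rw [mem_PR]
        constructor
        · rintro ⟨h1, h2⟩
          have := h2.pos
          omega
        · intro h
          simp at h
      rw [this, Finset.sum_empty]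
      positivity
    · have hN0 : (0 : ℝ) < N := by exact_mod_cast h0
      have h4 : ∑ p ∈ PR N, (1 : ℝ) / p ≤ ∑ n ∈ Finset.Icc 1 N, (1 : ℝ) / n := by
        apply Finset.sum_le_sum_of_subset_of_nonneg
        · intro p hp
          rw [mem_PR] at hp
          rw [Finset.mem_Icc]
          exact ⟨hp.2.one_lt.le, hp.1⟩
        · intro n _ _
          positivity
      have h5 : ∑ n ∈ Finset.Icc 1 N, (1 : ℝ) / n = ((harmonic N : ℚ) : ℝ) := by
        rw [harmonic_eq_sum_Icc]
        push_cast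
        exact Finset.sum_congr rfl fun n _ => one_div _
      have h6 := harmonic_le_one_add_log N
      have h7 : Real.log N ≤ 2 * Real.sqrt N - 2 := by
        have h8 : Real.log N = 2 * Real.log (Real.sqrt N) := by
          rw [Real.log_sqrt hN0.le]
          ring
        have h9 := Real.log_le_sub_one_of_pos (Real.sqrt_pos.2 hN0)
        rw [h8]
        linarith
      linarith
  linarith

end nf

/-- **Ordinary reduction.** -/
theorem ordK (g d : ℕ) : ∃ C : ℝ, 0 < C ∧ ∀ ε : ℝ, 0 < ε → ε ≤ 1 → ∀ᶠ H : ℕ in Filter.atTop,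
    ∀ (K : Type) [Field K] [NumberField K], Module.finrank ℚ K = d → ∀ α : Fin (2 * g + 1) → 𝓞 K,
    ∀ 𝒮 : Finset (Set (HeightOneSpectrum (𝓞 K))), (𝒮.card : ℝ) ≤ (H : ℝ) ^ (ε / 500) →
    ∃ Ex ⊆ box (Fin (2 * g + 1)) H, (Ex.card : ℝ) ≤ (H : ℝ) ^ (-(ε / 500)) * (box (Fin (2 * g + 1)) H).card ∧
      ∀ c ∈ box (Fin (2 * g + 1)) H \ Ex, ∀ S ∈ 𝒮, ∀ X : ℕ, (X : ℝ) ≤ (H : ℝ) ^ (ε / 200) →
        (1 / 2 : ℝ) ^ g * Nat.card {v : HeightOneSpectrum (𝓞 K) // v ∈ S ∧ nm v ≤ X} -
          C * ((X : ℝ) ^ (1 / 2 + ε) + Real.log H ^ (4 / ε)) ≤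
        Nat.card {v : HeightOneSpectrum (𝓞 K) // (v ∈ S ∧ nm v ≤ X) ∧ OV v (fun i => α i + (c i : 𝓞 K))} := by
  classical
  refine ⟨50 * (d + 1) + d * (4 * (2 * g + 2)), by positivity, fun ε hε hε1 => ?_⟩
  filter_upwards [locK (2 * g + 1) d 1 1 ε le_rfl hε hε1, eventually_ge_atTop 1] with H h hH1
  intro K _ _ hK α 𝒮 h𝒮
  have hHr : (1 : ℝ) ≤ H := by exact_mod_cast hH1
  set ind : Set (HeightOneSpectrum (𝓞 K)) → HeightOneSpectrum (𝓞 K) → ℂ := fun S v => if v ∈ S then 1 else 0 with hind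
  obtain ⟨Ex, hE1, hE2, hE3⟩ := h K hK (Fin (2 * g + 1)) (Fintype.card_fin _) Unit {()} (by simp)
    (fun _ p _ φ r => SO α p φ r) (fun _ _ p _ φ r => SO_le α p φ r)
    (fun _ _ p _ φ => by
      rw [SO_mean, abs_zero]
      positivity) (𝒮.image ind)
    (by
      intro w hw v
      rw [Finset.mem_image] at hw
      obtain ⟨S, _, rfl⟩ := hw
      rw [hind]
      simp only
      split_ifs
      · rw [norm_one]
      · rw [norm_zero]
        exact zero_le_one)
    (le_trans (by exact_mod_cast Finset.card_image_le) h𝒮)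
  refine ⟨Ex, hE1, hE2, fun c hc S hS X hX => ?_⟩
  set c' : Fin (2 * g + 1) → 𝓞 K := fun i => α i + (c i : 𝓞 K) with hc'
  have h1 := hE3 c hc (ind S) (Finset.mem_image_of_mem ind hS) () (Finset.mem_singleton_self _) (GO c') (GO_le c')
    (fun p hfp φ => by
      have hpr : (nm (kerPrime p φ).1.1).Prime := by
        rw [nm_kerPrime]
        exact hfp.out
      unfold GO SO
      rw [if_pos hpr, nm_kerPrime]
      have h2 := OV_prime c' p φ
      have h3 : (fun i => φ (c' i)) = red (p : ℕ) c + fun i => φ (α i) := by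
        funext i
        rw [hc', Pi.add_apply]
        simp only [map_add, map_intCast]
        rw [add_comm]
        rfl
      rw [h3] at h2
      by_cases h4 : OV (kerPrime p φ).1.1 c'
      · rw [if_pos h4, if_pos (h2.1 h4)]
      · rw [if_neg h4, if_neg (fun h' => h4 (h2.2 h'))]) X hX 0 (by
      rw [abs_zero]
      positivity)
  set V : Finset (HeightOneSpectrum (𝓞 K)) := (finite_low (K := K) X).toFinset with hV
  have hmemV : ∀ v, v ∈ V ↔ nm v ≤ X := by
    intro v
    rw [hV, Set.Finite.mem_toFinset, Set.mem_setOf_eq]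
  have h2 : (∑' v : HeightOneSpectrum (𝓞 K), if nm v ≤ X then
      ind S v * (GO c' v : ℂ) * ((nm v : ℕ) : ℂ) ^ (-(((0 : ℝ) : ℂ) * Complex.I)) else 0) =
      ((∑ v ∈ V.filter (fun v => v ∈ S), GO c' v : ℝ) : ℂ) := by
    rw [tsum_eq_sum (s := V)]
    · rw [Finset.sum_filter]
      push_cast
      refine Finset.sum_congr rfl fun v hv => ?_
      rw [if_pos ((hmemV v).1 hv), hind]
      simp only [Complex.ofReal_zero, zero_mul, neg_zero, Complex.cpow_zero, mul_one]
      split_ifs
      · rw [one_mul]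
      · rw [zero_mul, Complex.ofReal_zero]
    · intro v hv
      rw [hmemV] at hv
      rw [if_neg hv]
  rw [h2, Complex.norm_real, Real.norm_eq_abs] at h1
  set Q : ℝ := (X : ℝ) ^ (1 / 2 + ε) + Real.log H ^ (4 / ε) with hQ
  have hXQ : Real.sqrt X ≤ Q := by
    have hL0 : 0 ≤ Real.log H ^ (4 / ε) := by
      have : 0 ≤ Real.log H := Real.log_natCast_nonneg H
      positivity
    have hX2 : Real.sqrt X ≤ (X : ℝ) ^ (1 / 2 + ε) := by
      rcases Nat.eq_zero_or_pos X with h0 | h0
      · rw [h0]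
        simp only [Nat.cast_zero, Real.sqrt_zero]
        positivity
      · rw [Real.sqrt_eq_rpow]
        exact Real.rpow_le_rpow_of_exponent_le (by exact_mod_cast h0) (by linarith)
    rw [hQ]
    linarith
  have hQ0 : 0 ≤ Q := (Real.sqrt_nonneg _).trans hXQ
  have h3 : -(50 * (d : ℝ) * Q) ≤ ∑ v ∈ V.filter (fun v => v ∈ S), GO c' v := by
    have := (abs_le.1 h1).1
    linarith
  -- the counts
  set VS := V.filter (fun v => v ∈ S) with hVS
  have hcA : (Nat.card {v : HeightOneSpectrum (𝓞 K) // v ∈ S ∧ nm v ≤ X} : ℝ) = VS.card := by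
    have : Nat.card {v : HeightOneSpectrum (𝓞 K) // v ∈ S ∧ nm v ≤ X} = VS.card := by
      refine Nat.subtype_card VS fun v => ?_
      rw [hVS, Finset.mem_filter, hmemV]
      exact and_comm
    exact_mod_cast this
  have hcB : (Nat.card {v : HeightOneSpectrum (𝓞 K) // (v ∈ S ∧ nm v ≤ X) ∧ OV v c'} : ℝ) = (VS.filter (fun v => OV v c')).card := by
    have : Nat.card {v : HeightOneSpectrum (𝓞 K) // (v ∈ S ∧ nm v ≤ X) ∧ OV v c'} = (VS.filter (fun v => OV v c')).card := by
      refine Nat.subtype_card (VS.filter (fun v => OV v c')) fun v => ?_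
      rw [Finset.mem_filter, hVS, Finset.mem_filter, hmemV, and_comm (a := v ∈ S)]
    exact_mod_cast this
  rw [hcA, hcB]
  have h4 : ∀ v ∈ VS, GO c' v ≤ (if OV v c' then (1 : ℝ) else 0) - (1 / 2 : ℝ) ^ g +
      (2 * g + 2) * (if (nm v).Prime then (1 : ℝ) / nm v else 1) := by
    intro v _
    have h5 : (0 : ℝ) ≤ if OV v c' then (1 : ℝ) else 0 := by split_ifs <;> norm_num
    unfold GO
    by_cases hp : (nm v).Prime
    · rw [if_pos hp, if_pos hp]
      have h6 := dl_ge g (nm v) hp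
      have e : (2 * (g : ℝ) + 2) * (1 / nm v) = (2 * g + 2) / nm v := by ring
      rw [e]
      linarith
    · rw [if_neg hp, if_neg hp]
      have h6 : (1 / 2 : ℝ) ^ g ≤ 1 := pow_le_one₀ (by norm_num) (by norm_num)
      have h7 : (0 : ℝ) ≤ g := Nat.cast_nonneg _
      linarith
  have h5 := Finset.sum_le_sum h4
  rw [Finset.sum_add_distrib, Finset.sum_sub_distrib, Finset.sum_const, nsmul_eq_mul, ← Finset.mul_sum, Finset.sum_boole] at h5
  have h6 := small_sum (K := K) X VS (fun v hv => by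
    rw [hVS, Finset.mem_filter, hmemV] at hv
    exact hv.1)
  rw [hK] at h6
  have h7 : (2 * (g : ℝ) + 2) * ∑ v ∈ VS, (if (nm v).Prime then (1 : ℝ) / nm v else 1) ≤ (2 * g + 2) * (d * (4 * Q)) := by
    apply mul_le_mul_of_nonneg_left _ (by positivity)
    refine h6.trans ?_
    gcongr
  have h8 : (50 * ((d : ℝ) + 1) + d * (4 * (2 * g + 2))) * Q = 50 * d * Q + (2 * g + 2) * (d * (4 * Q)) + 50 * Q := by ring
  rw [h8]
  linarith

end Run7.h328.ORD
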