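import Pool.Agent.Run7.h328.ORD.Fun

/-! # The Hasse-Witt determinants of triple planes -/

set_option autoImplicit false

namespace Run7.h328.ORD.Pla

open Finset
open Run7.h328.ORD Run7.h328.ORD.Fn

/-- exponents in three variables -/
noncomputable def E3 (i j k : ℕ) : Fin 3 →₀ ℕ := Finsupp.single 0 i + Finsupp.single 1 j + Finsupp.single 2 k

@[simp] theorem E3_zero (i j k : ℕ) : E3 i j k 0 = i := by
  unfold E3
  simp

@[simp] theorem E3_one (i j k : ℕ) : E3 i j k 1 = j := by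
  unfold E3
  simp

@[simp] theorem E3_two (i j k : ℕ) : E3 i j k 2 = k := by
  unfold E3
  simp

theorem ext3 {a b : Fin 3 →₀ ℕ} (h0 : a 0 = b 0) (h1 : a 1 = b 1) (h2 : a 2 = b 2) : a = b := by
  ext s
  fin_cases s
  · exact h0
  · exact h1
  · exact h2

variable (m : ℕ)

/-- the exponents of the polynomials of degree at most `m` in two variables -/
def E : Finset (ℕ × ℕ) := ((range (m + 1)) ×ˢ (range (m + 1))).filter fun t => t.1 + t.2 ≤ m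

theorem mem_E {t : ℕ × ℕ} : t ∈ E m ↔ t.1 + t.2 ≤ m := by
  unfold E
  rw [Finset.mem_filter, Finset.mem_product, Finset.mem_range, Finset.mem_range]
  omega

/-- the interior points of the tetrahedron -/
def U : Finset (ℕ × ℕ × ℕ) := ((Icc 1 2) ×ˢ (Icc 1 m) ×ˢ (Icc 1 m)).filter fun u => m * u.1 + 3 * (u.2.1 + u.2.2) < 3 * m

theorem mem_U {u : ℕ × ℕ × ℕ} : u ∈ U m ↔
    (u.1 = 1 ∨ u.1 = 2) ∧ 1 ≤ u.2.1 ∧ 1 ≤ u.2.2 ∧ m * u.1 + 3 * (u.2.1 + u.2.2) < 3 * m := by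
  unfold U
  rw [Finset.mem_filter, Finset.mem_product, Finset.mem_product, Finset.mem_Icc, Finset.mem_Icc, Finset.mem_Icc]
  constructor
  · rintro ⟨⟨h1, h2, h3⟩, h4⟩
    exact ⟨by omega, h2.1, h3.1, h4⟩
  · rintro ⟨h1, h2, h3, h4⟩
    refine ⟨⟨by omega, ⟨h2, ?_⟩, ⟨h3, ?_⟩⟩, h4⟩
    · rcases h1 with h | h <;> rw [h] at h4 <;> omega
    · rcases h1 with h | h <;> rw [h] at h4 <;> omega

/-- the atoms -/
abbrev At := Option (Fin 2 × E m) ⊕ E m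

/-- the exponents of the atoms -/
noncomputable def ex : At m → Fin 3 →₀ ℕ
  | Sum.inl none => E3 3 0 0
  | Sum.inl (some (i, j)) => E3 (i + 1) j.1.1 j.1.2
  | Sum.inr t => E3 0 t.1.1 t.1.2

/-- the coefficients -/
def co {R : Type} [One R] (a : Fin 2 × E m → R) (c : E m → R) : At m → R
  | Sum.inl none => 1
  | Sum.inl (some s) => a s
  | Sum.inr t => c t

/-- the points of the matrix -/
noncomputable def uu (u : U m) : Fin 3 →₀ ℕ := E3 u.1.1 u.1.2.1 u.1.2.2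

/-- the factor: `6` or `3` -/
def fa (u : ℕ × ℕ × ℕ) : ℕ := if u.1 = 2 then 6 else 3

/-- twice the centre, first coordinate -/
def X2 (u : ℕ × ℕ × ℕ) : ℕ := fa u * u.2.1
/-- twice the centre, second coordinate -/
def Z2 (u : ℕ × ℕ × ℕ) : ℕ := fa u * u.2.2

theorem fa_spec {u : ℕ × ℕ × ℕ} (hu : u.1 = 1 ∨ u.1 = 2) : (3 - u.1) * fa u = 6 := by
  unfold fa
  rcases hu with h | h <;> rw [h] <;> simp

theorem fa_cases (u : ℕ × ℕ × ℕ) : fa u = 6 ∨ fa u = 3 := by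
  unfold fa
  split_ifs
  · left; rfl
  · right; rfl

theorem X2_dvd (u : ℕ × ℕ × ℕ) : 3 ∣ X2 u := by
  unfold X2
  rcases fa_cases u with h | h <;> rw [h] <;> omega

theorem Z2_dvd (u : ℕ × ℕ × ℕ) : 3 ∣ Z2 u := by
  unfold Z2
  rcases fa_cases u with h | h <;> rw [h] <;> omega

theorem sum_lt {u : ℕ × ℕ × ℕ} (hu : u ∈ U m) : X2 u + Z2 u < 2 * m := by
  rw [mem_U] at hu
  unfold X2 Z2 fa
  rcases hu.1 with h | h
  · rw [h] at hu ⊢
    simp only [OfNat.one_ne_ofNat, if_false]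
    omega
  · rw [h] at hu ⊢
    simp only [if_true]
    omega

theorem X2_ge {u : ℕ × ℕ × ℕ} (hu : u ∈ U m) : 3 ≤ X2 u := by
  rw [mem_U] at hu
  unfold X2
  rcases fa_cases u with h | h <;> rw [h] <;> omega

theorem Z2_ge {u : ℕ × ℕ × ℕ} (hu : u ∈ U m) : 3 ≤ Z2 u := by
  rw [mem_U] at hu
  unfold Z2
  rcases fa_cases u with h | h <;> rw [h] <;> omega

/-- the direction, first coordinate -/
def dx (u : ℕ × ℕ × ℕ) : ℤ := if X2 u % 2 = 0 then (if Z2 u % 2 = 0 then 2 else 0) else 1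
/-- the direction, second coordinate -/
def dz (u : ℕ × ℕ × ℕ) : ℤ := if X2 u % 2 = 0 then (if Z2 u % 2 = 0 then 0 else 1) else (if Z2 u % 2 = 0 then 0 else -1)

theorem d_cases (u : ℕ × ℕ × ℕ) :
    (X2 u % 2 = 0 ∧ Z2 u % 2 = 0 ∧ dx u = 2 ∧ dz u = 0) ∨ (X2 u % 2 = 1 ∧ Z2 u % 2 = 0 ∧ dx u = 1 ∧ dz u = 0) ∨
    (X2 u % 2 = 0 ∧ Z2 u % 2 = 1 ∧ dx u = 0 ∧ dz u = 1) ∨ (X2 u % 2 = 1 ∧ Z2 u % 2 = 1 ∧ dx u = 1 ∧ dz u = -1) := by
  unfold dx dz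
  rcases Nat.mod_two_eq_zero_or_one (X2 u) with h1 | h1 <;> rcases Nat.mod_two_eq_zero_or_one (Z2 u) with h2 | h2 <;>
    simp [h1, h2]

/-- the quadratic form -/
def Q (x z : ℤ) : ℤ := 2 * x ^ 2 + x * z + 3 * z ^ 2

/-- the real quadratic form -/
def Qr (x z : ℝ) : ℝ := 2 * x ^ 2 + x * z + 3 * z ^ 2

theorem Q_cast (x z : ℤ) : ((Q x z : ℤ) : ℝ) = Qr x z := by
  unfold Q Qr
  push_cast
  ring

/-- the point with the sign `s` -/
def tx (s : ℤ) (u : ℕ × ℕ × ℕ) : ℕ := (((X2 u : ℤ) + s * dx u) / 2).toNat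
/-- the point with the sign `s` -/
def tz (s : ℤ) (u : ℕ × ℕ × ℕ) : ℕ := (((Z2 u : ℤ) + s * dz u) / 2).toNat

theorem tx_spec {u : ℕ × ℕ × ℕ} (hu : u ∈ U m) {s : ℤ} (hs : s = 1 ∨ s = -1) : 2 * (tx s u : ℤ) = X2 u + s * dx u := by
  have h1 := X2_ge m hu
  unfold tx
  rcases d_cases u with h | h | h | h <;> rw [h.2.2.1] <;> rcases hs with h' | h' <;> rw [h'] <;> omega

theorem tz_spec {u : ℕ × ℕ × ℕ} (hu : u ∈ U m) {s : ℤ} (hs : s = 1 ∨ s = -1) : 2 * (tz s u : ℤ) = Z2 u + s * dz u := by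
  have h1 := Z2_ge m hu
  unfold tz
  rcases d_cases u with h | h | h | h <;> rw [h.2.2.2] <;> rcases hs with h' | h' <;> rw [h'] <;> omega

theorem t_mem {u : ℕ × ℕ × ℕ} (hu : u ∈ U m) {s : ℤ} (hs : s = 1 ∨ s = -1) : (tx s u, tz s u) ∈ E m := by
  rw [mem_E]
  show tx s u + tz s u ≤ m
  have h1 := tx_spec m hu hs
  have h2 := tz_spec m hu hs
  have h3 := sum_lt m hu
  rcases d_cases u with h | h | h | h <;> rw [h.2.2.1] at h1 <;> rw [h.2.2.2] at h2 <;> rcases hs with rfl | rfl <;> omega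

/-- the constant -/
noncomputable def W : ℝ := 40 * (m : ℝ) ^ 2 + 20

/-- the weights -/
noncomputable def w (t : E m) : ℝ := W m - Qr t.1.1 t.1.2 - (if 3 ∣ t.1.1 ∧ 3 ∣ t.1.2 then 4 else 0)

theorem Qr_nonneg (x z : ℝ) : 0 ≤ Qr x z := by
  unfold Qr
  nlinarith [sq_nonneg (x + z), sq_nonneg x, sq_nonneg z]

theorem Qr_le {x z M : ℝ} (hx : 0 ≤ x) (hz : 0 ≤ z) (hxM : x ≤ M) (hzM : z ≤ M) : Qr x z ≤ 6 * M ^ 2 := by
  unfold Qr
  have h1 : x ^ 2 ≤ M ^ 2 := by gcongr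
  have h2 : z ^ 2 ≤ M ^ 2 := by gcongr
  have h3 : x * z ≤ M * M := mul_le_mul hxM hzM hz (hx.trans hxM)
  nlinarith

theorem w_pos (t : E m) : 0 < w m t := by
  have ht := (mem_E m).1 t.2
  have h1 : ((t.1.1 : ℕ) : ℝ) ≤ m := by exact_mod_cast (by omega : t.1.1 ≤ m)
  have h2 : ((t.1.2 : ℕ) : ℝ) ≤ m := by exact_mod_cast (by omega : t.1.2 ≤ m)
  have h3 := Qr_le (Nat.cast_nonneg t.1.1) (Nat.cast_nonneg t.1.2) h1 h2
  unfold w W
  have h4 : (0 : ℝ) ≤ (m : ℝ) ^ 2 := by positivity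
  split_ifs <;> linarith

/-- the weights of the atoms -/
noncomputable def om : At m → ℝ
  | Sum.inl _ => 0
  | Sum.inr t => w m t

/-- the constant term -/
noncomputable def kk (u : ℕ × ℕ × ℕ) : ℝ := W m + Qr (X2 u) (Z2 u) / 4 - Qr (dx u) (dz u) / 4

/-- the slopes -/
noncomputable def gg (u : ℕ × ℕ × ℕ) : Fin 3 → ℝ := ![-(kk m u) / 3, -(2 * X2 u + Z2 u / 2), -(3 * Z2 u + X2 u / 2)]

/-- the defects -/
noncomputable def DD (u : ℕ × ℕ × ℕ) (a : At m) : ℝ := Lf (kk m u) (gg m u) (ex m a) - om m a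

theorem Lf_E3 (u : ℕ × ℕ × ℕ) (i j k : ℕ) : Lf (kk m u) (gg m u) (E3 i j k) =
    kk m u - kk m u / 3 * i - (2 * X2 u + Z2 u / 2) * j - (3 * Z2 u + X2 u / 2) * k := by
  unfold Lf gg
  rw [Fin.sum_univ_three]
  simp only [Matrix.cons_val_zero, Matrix.cons_val_one, Matrix.cons_val_two, Matrix.head_cons, Matrix.tail_cons,
    E3_zero, E3_one, E3_two]
  simp
  ring

theorem DD_none (u : ℕ × ℕ × ℕ) : DD m u (Sum.inl none) = 0 := by
  unfold DD ex om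
  simp only
  rw [Lf_E3]
  push_cast
  ring

theorem Qd_le (u : ℕ × ℕ × ℕ) : Qr (dx u) (dz u) ≤ 8 := by
  rcases d_cases u with h | h | h | h <;> rw [h.2.2.1, h.2.2.2] <;> unfold Qr <;> norm_num

theorem kk_ge (u : ℕ × ℕ × ℕ) : W m - 2 ≤ kk m u := by
  unfold kk
  have h1 := Qr_nonneg (X2 u) (Z2 u)
  have h2 := Qd_le u
  linarith

theorem DD_some (u : ℕ × ℕ × ℕ) (hu : u ∈ U m) (s : Fin 2 × E m) : 0 < DD m u (Sum.inl (some s)) := by
  obtain ⟨i, j⟩ := s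
  unfold DD ex om
  simp only
  rw [Lf_E3]
  have h1 := kk_ge m u
  have h3 := sum_lt m hu
  have hx : (X2 u : ℝ) ≤ 2 * m := by exact_mod_cast (by omega : X2 u ≤ 2 * m)
  have hz : (Z2 u : ℝ) ≤ 2 * m := by exact_mod_cast (by omega : Z2 u ≤ 2 * m)
  have hx0 : (0 : ℝ) ≤ X2 u := Nat.cast_nonneg _
  have hz0 : (0 : ℝ) ≤ Z2 u := Nat.cast_nonneg _
  have hj := (mem_E m).1 j.2
  have h4 : ((j.1.1 : ℕ) : ℝ) ≤ m := by exact_mod_cast (by omega : j.1.1 ≤ m)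
  have h5 : ((j.1.2 : ℕ) : ℝ) ≤ m := by exact_mod_cast (by omega : j.1.2 ≤ m)
  have h40 : (0 : ℝ) ≤ ((j.1.1 : ℕ) : ℝ) := Nat.cast_nonneg _
  have h50 : (0 : ℝ) ≤ ((j.1.2 : ℕ) : ℝ) := Nat.cast_nonneg _
  have h7 : (((i : ℕ) + 1 : ℕ) : ℝ) ≤ 2 := by
    have := i.2
    exact_mod_cast (by omega : (i : ℕ) + 1 ≤ 2)
  have hm0 : (0 : ℝ) ≤ m := Nat.cast_nonneg _
  have h8 : (2 * (X2 u : ℝ) + Z2 u / 2) * (j.1.1 : ℕ) ≤ (5 * m) * m := by
    have : 2 * (X2 u : ℝ) + Z2 u / 2 ≤ 5 * m := by linarith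
    exact mul_le_mul this h4 h40 (by positivity)
  have h9 : (3 * (Z2 u : ℝ) + X2 u / 2) * (j.1.2 : ℕ) ≤ (7 * m) * m := by
    have : 3 * (Z2 u : ℝ) + X2 u / 2 ≤ 7 * m := by linarith
    exact mul_le_mul this h5 h50 (by positivity)
  have h11 : 0 < kk m u := lt_of_lt_of_le (by unfold W; nlinarith [sq_nonneg (m : ℝ)]) h1
  have h10 : kk m u / 3 * (((i : ℕ) + 1 : ℕ) : ℝ) ≤ kk m u / 3 * 2 := by gcongr
  unfold W at h1
  nlinarith [sq_nonneg (m : ℝ)]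

theorem DD_inr (u : ℕ × ℕ × ℕ) (t : E m) : 4 * DD m u (Sum.inr t) =
    Qr (2 * t.1.1 - X2 u) (2 * t.1.2 - Z2 u) - Qr (dx u) (dz u) + (if 3 ∣ t.1.1 ∧ 3 ∣ t.1.2 then 16 else 0) := by
  unfold DD ex om w
  simp only
  rw [Lf_E3]
  unfold kk Qr
  split_ifs
  · push_cast
    ring
  · push_cast
    ring

theorem Q_big {x z : ℤ} {k : ℤ} (hk : 0 < k) (h : k ≤ |x| ∨ k ≤ |z|) : k ^ 2 < Q x z + 1 ∧ k ^ 2 ≤ Q x z := by
  have h1 : k ^ 2 ≤ x ^ 2 ∨ k ^ 2 ≤ z ^ 2 := by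
    rcases h with h | h
    · left
      rw [← sq_abs x]
      nlinarith
    · right
      rw [← sq_abs z]
      nlinarith
  have h2 : Q x z = x ^ 2 + 2 * z ^ 2 + (x ^ 2 + x * z + z ^ 2) := by unfold Q; ring
  have h3 : 0 ≤ x ^ 2 + x * z + z ^ 2 := by nlinarith [sq_nonneg (x + z), sq_nonneg x, sq_nonneg z]
  rcases h1 with h1 | h1
  · constructor <;> nlinarith [sq_nonneg z]
  · constructor <;> nlinarith [sq_nonneg x, sq_nonneg z]

/-- the values of the form on a coset -/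
theorem Q_min (u : ℕ × ℕ × ℕ) (x z : ℤ) (hx : (x - X2 u) % 2 = 0) (hz : (z - Z2 u) % 2 = 0) (hne : ¬ (x = 0 ∧ z = 0)) :
    Q (dx u) (dz u) ≤ Q x z ∧ (Q x z = Q (dx u) (dz u) → (x = dx u ∧ z = dz u) ∨ (x = -dx u ∧ z = -dz u)) := by
  by_cases hbig : 4 ≤ |x| ∨ 4 ≤ |z|
  · have h1 := (Q_big (by norm_num : (0 : ℤ) < 4) hbig).2
    have h2 : Q (dx u) (dz u) ≤ 8 := by
      rcases d_cases u with h | h | h | h <;> rw [h.2.2.1, h.2.2.2] <;> unfold Q <;> norm_num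
    exact ⟨by linarith, fun h => by exfalso; linarith⟩
  · push Not at hbig
    have hx1 := abs_lt.1 hbig.1
    have hz1 := abs_lt.1 hbig.2
    rcases d_cases u with h | h | h | h <;> rw [h.2.2.1, h.2.2.2] <;> unfold Q <;>
      (obtain ⟨hx2, hx3⟩ := hx1; obtain ⟨hz2, hz3⟩ := hz1; interval_cases x <;> first | (exfalso; omega) | (interval_cases z <;>
        first | (exfalso; omega) | (constructor <;> norm_num)))

theorem DD_inr_int (u : ℕ × ℕ × ℕ) (t : E m) : 0 ≤ DD m u (Sum.inr t) ∧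
    (DD m u (Sum.inr t) = 0 → ∃ s : ℤ, (s = 1 ∨ s = -1) ∧ 2 * (t.1.1 : ℤ) = X2 u + s * dx u ∧ 2 * (t.1.2 : ℤ) = Z2 u + s * dz u) := by
  have h := DD_inr m u t
  set x : ℤ := 2 * (t.1.1 : ℤ) - X2 u with hx
  set z : ℤ := 2 * (t.1.2 : ℤ) - Z2 u with hz
  have e1 : Qr (2 * (t.1.1 : ℝ) - X2 u) (2 * (t.1.2 : ℝ) - Z2 u) = ((Q x z : ℤ) : ℝ) := by
    rw [Q_cast, hx, hz]
    push_cast
    rfl
  rw [e1, ← Q_cast] at h
  have d1 := X2_dvd u
  have d2 := Z2_dvd u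
  have hd8 : Q (dx u) (dz u) ≤ 8 := by
    rcases d_cases u with h | h | h | h <;> rw [h.2.2.1, h.2.2.2] <;> unfold Q <;> norm_num
  by_cases h0 : x = 0 ∧ z = 0
  · have h3 : 3 ∣ t.1.1 ∧ 3 ∣ t.1.2 := by
      constructor <;> omega
    rw [if_pos h3, h0.1, h0.2] at h
    have e2 : Q 0 0 = 0 := by unfold Q; norm_num
    rw [e2] at h
    have h4 : ((Q (dx u) (dz u) : ℤ) : ℝ) ≤ 8 := by exact_mod_cast hd8
    constructor
    · push_cast at h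
      linarith
    · intro h5
      rw [h5] at h
      push_cast at h
      exfalso
      linarith
  · have h4 := Q_min u x z (by omega) (by omega) h0
    have h5 : ((Q (dx u) (dz u) : ℤ) : ℝ) ≤ ((Q x z : ℤ) : ℝ) := by exact_mod_cast h4.1
    have h6 : (0 : ℝ) ≤ (if 3 ∣ t.1.1 ∧ 3 ∣ t.1.2 then 16 else 0) := by split_ifs <;> norm_num
    refine ⟨by linarith, fun h7 => ?_⟩
    rw [h7, mul_zero] at h
    have h8 : ((Q x z : ℤ) : ℝ) = ((Q (dx u) (dz u) : ℤ) : ℝ) := by linarith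
    have h9 : Q x z = Q (dx u) (dz u) := by exact_mod_cast h8
    rcases h4.2 h9 with h10 | h10
    · exact ⟨1, Or.inl rfl, by omega, by omega⟩
    · exact ⟨-1, Or.inr rfl, by omega, by omega⟩

theorem DD_nonneg (u : ℕ × ℕ × ℕ) (hu : u ∈ U m) (a : At m) : 0 ≤ DD m u a := by
  rcases a with a | t
  · rcases a with _ | s
    · exact (DD_none m u).ge
    · exact (DD_some m u hu s).le
  · exact (DD_inr_int m u t).1

theorem DD_zero (u : ℕ × ℕ × ℕ) (t : E m) {s : ℤ} (hs : s = 1 ∨ s = -1) (h1 : 2 * (t.1.1 : ℤ) = X2 u + s * dx u)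
    (h2 : 2 * (t.1.2 : ℤ) = Z2 u + s * dz u) : DD m u (Sum.inr t) = 0 := by
  have h := DD_inr m u t
  have d1 := X2_dvd u
  have d2 := Z2_dvd u
  have h5 : ¬ (3 ∣ t.1.1 ∧ 3 ∣ t.1.2) := by
    rintro ⟨g1, g2⟩
    rcases d_cases u with h | h | h | h <;> rw [h.2.2.1] at h1 <;> rw [h.2.2.2] at h2 <;> rcases hs with h' | h' <;>
      rw [h'] at h1 h2 <;> omega
  rw [if_neg h5, add_zero] at h
  have e1 : 2 * (t.1.1 : ℝ) - X2 u = s * dx u := by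
    have : ((2 * (t.1.1 : ℤ) : ℤ) : ℝ) = ((X2 u + s * dx u : ℤ) : ℝ) := by rw [h1]
    push_cast at this
    linarith
  have e2 : 2 * (t.1.2 : ℝ) - Z2 u = s * dz u := by
    have : ((2 * (t.1.2 : ℤ) : ℤ) : ℝ) = ((Z2 u + s * dz u : ℤ) : ℝ) := by rw [h2]
    push_cast at this
    linarith
  rw [e1, e2] at h
  have e3 : Qr (s * dx u) (s * dz u) = Qr (dx u) (dz u) := by
    unfold Qr
    rcases hs with h' | h' <;> rw [h'] <;> push_cast <;> ring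
  rw [e3] at h
  linarith

end Run7.h328.ORD.Pla
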