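import Pool.Agent.Run7.h328.ORD.Pla

/-! # The Hasse-Witt determinants of triple planes: the leading terms -/

set_option autoImplicit false

namespace Run7.h328.ORD.Pla

open Finset
open Run7.h328.ORD Run7.h328.ORD.Fn

variable (m ℓ : ℕ)

/-- the lower index -/
def im (u : U m) : E m := ⟨(tx (-1) u.1, tz (-1) u.1), t_mem m u.2 (Or.inr rfl)⟩
/-- the upper index -/
def ip (u : U m) : E m := ⟨(tx 1 u.1, tz 1 u.1), t_mem m u.2 (Or.inl rfl)⟩

theorem im_ne_ip (u : U m) : im m u ≠ ip m u := by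
  intro h
  have h1 : tx (-1) u.1 = tx 1 u.1 := congrArg (fun t : E m => t.1.1) h
  have h2 : tz (-1) u.1 = tz 1 u.1 := congrArg (fun t : E m => t.1.2) h
  have a1 := tx_spec m u.2 (s := 1) (Or.inl rfl)
  have a2 := tx_spec m u.2 (s := -1) (Or.inr rfl)
  have b1 := tz_spec m u.2 (s := 1) (Or.inl rfl)
  have b2 := tz_spec m u.2 (s := -1) (Or.inr rfl)
  rcases d_cases u.1 with h | h | h | h <;> omega

/-- the exponents of the leading term -/
def e0 (u : U m) : At m → ℕ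
  | Sum.inl none => 2 * ℓ * u.1.1
  | Sum.inl (some _) => 0
  | Sum.inr t => if t = im m u ∨ t = ip m u then ℓ * (3 - u.1.1) else 0

theorem sum_At {A : Type} [AddCommMonoid A] (f : At m → A) :
    ∑ a, f a = f (Sum.inl none) + ∑ s, f (Sum.inl (some s)) + ∑ t, f (Sum.inr t) := by
  rw [Fintype.sum_sum_type, Fintype.sum_option]

theorem sum_two {A : Type} [AddCommMonoid A] (u : U m) (f : E m → A) (hf : ∀ t, t ≠ im m u → t ≠ ip m u → f t = 0) :
    ∑ t, f t = f (im m u) + f (ip m u) := by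
  rw [← Finset.sum_pair (im_ne_ip m u)]
  symm
  refine Finset.sum_subset (Finset.subset_univ _) fun t _ ht => ?_
  rw [Finset.mem_insert, Finset.mem_singleton, not_or] at ht
  exact hf t ht.1 ht.2

theorem nat_sum {A : Type} [AddCommMonoid A] (u : U m) (f : E m → ℕ → A) (hf : ∀ t, f t 0 = 0) :
    ∑ t, f t (e0 m ℓ u (Sum.inr t)) = f (im m u) (ℓ * (3 - u.1.1)) + f (ip m u) (ℓ * (3 - u.1.1)) := by
  rw [sum_two m u]
  · have h1 : e0 m ℓ u (Sum.inr (im m u)) = ℓ * (3 - u.1.1) := by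
      unfold e0
      simp
    have h2 : e0 m ℓ u (Sum.inr (ip m u)) = ℓ * (3 - u.1.1) := by
      unfold e0
      simp
    rw [h1, h2]
  · intro t h1 h2
    have h3 : e0 m ℓ u (Sum.inr t) = 0 := by
      unfold e0
      simp [h1, h2]
    rw [h3, hf]

/-- membership in the set of exponents, in coordinates -/
theorem mem_EE3 (n : ℕ) (N : Fin 3 →₀ ℕ) (e : At m → ℕ) : e ∈ EE (ex m) n N ↔
    (e (Sum.inl none) + ∑ s, e (Sum.inl (some s)) + ∑ t, e (Sum.inr t) = n) ∧
    (3 * e (Sum.inl none) + ∑ s : Fin 2 × E m, ((s.1 : ℕ) + 1) * e (Sum.inl (some s)) = N 0) ∧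
    (∑ s : Fin 2 × E m, s.2.1.1 * e (Sum.inl (some s)) + ∑ t : E m, t.1.1 * e (Sum.inr t) = N 1) ∧
    (∑ s : Fin 2 × E m, s.2.1.2 * e (Sum.inl (some s)) + ∑ t : E m, t.1.2 * e (Sum.inr t) = N 2) := by
  rw [mem_EE, sum_At, sum_At]
  have h0 : (e (Sum.inl none) • ex m (Sum.inl none) + ∑ s, e (Sum.inl (some s)) • ex m (Sum.inl (some s)) +
      ∑ t, e (Sum.inr t) • ex m (Sum.inr t)) 0 = 3 * e (Sum.inl none) +
      ∑ s : Fin 2 × E m, ((s.1 : ℕ) + 1) * e (Sum.inl (some s)) := by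
    rw [Finsupp.add_apply, Finsupp.add_apply, Finsupp.finsetSum_apply, Finsupp.finsetSum_apply]
    simp only [Finsupp.smul_apply, ex, E3_zero, smul_eq_mul, mul_zero, Finset.sum_const_zero, add_zero]
    rw [mul_comm]
    congr 1
    exact Finset.sum_congr rfl fun s _ => mul_comm _ _
  have h1 : (e (Sum.inl none) • ex m (Sum.inl none) + ∑ s, e (Sum.inl (some s)) • ex m (Sum.inl (some s)) +
      ∑ t, e (Sum.inr t) • ex m (Sum.inr t)) 1 =
      ∑ s : Fin 2 × E m, s.2.1.1 * e (Sum.inl (some s)) + ∑ t : E m, t.1.1 * e (Sum.inr t) := by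
    rw [Finsupp.add_apply, Finsupp.add_apply, Finsupp.finsetSum_apply, Finsupp.finsetSum_apply]
    simp only [Finsupp.smul_apply, ex, E3_one, smul_eq_mul, mul_zero, zero_add]
    congr 1
    · exact Finset.sum_congr rfl fun s _ => mul_comm _ _
    · exact Finset.sum_congr rfl fun s _ => mul_comm _ _
  have h2 : (e (Sum.inl none) • ex m (Sum.inl none) + ∑ s, e (Sum.inl (some s)) • ex m (Sum.inl (some s)) +
      ∑ t, e (Sum.inr t) • ex m (Sum.inr t)) 2 =
      ∑ s : Fin 2 × E m, s.2.1.2 * e (Sum.inl (some s)) + ∑ t : E m, t.1.2 * e (Sum.inr t) := by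
    rw [Finsupp.add_apply, Finsupp.add_apply, Finsupp.finsetSum_apply, Finsupp.finsetSum_apply]
    simp only [Finsupp.smul_apply, ex, E3_two, smul_eq_mul, mul_zero, zero_add]
    congr 1
    · exact Finset.sum_congr rfl fun s _ => mul_comm _ _
    · exact Finset.sum_congr rfl fun s _ => mul_comm _ _
  constructor
  · rintro ⟨h, h'⟩
    refine ⟨h, ?_, ?_, ?_⟩
    · rw [← h', h0]
    · rw [← h', h1]
    · rw [← h', h2]
  · rintro ⟨h, h', h'', h'''⟩
    refine ⟨h, ?_⟩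
    apply ext3
    · rw [h0, h']
    · rw [h1, h'']
    · rw [h2, h''']

theorem uu_sub (u v : U m) (p : ℕ) : (p • uu m u - uu m v : Fin 3 →₀ ℕ) =
    E3 (p * u.1.1 - v.1.1) (p * u.1.2.1 - v.1.2.1) (p * u.1.2.2 - v.1.2.2) := by
  apply ext3
  · rw [Finsupp.tsub_apply, Finsupp.smul_apply, smul_eq_mul]
    unfold uu
    rw [E3_zero, E3_zero, E3_zero]
  · rw [Finsupp.tsub_apply, Finsupp.smul_apply, smul_eq_mul]
    unfold uu
    rw [E3_one, E3_one, E3_one]
  · rw [Finsupp.tsub_apply, Finsupp.smul_apply, smul_eq_mul]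
    unfold uu
    rw [E3_two, E3_two, E3_two]

theorem t_sum (u : U m) : tx (-1) u.1 + tx 1 u.1 = X2 u.1 ∧ tz (-1) u.1 + tz 1 u.1 = Z2 u.1 := by
  have a1 := tx_spec m u.2 (s := 1) (Or.inl rfl)
  have a2 := tx_spec m u.2 (s := -1) (Or.inr rfl)
  have b1 := tz_spec m u.2 (s := 1) (Or.inl rfl)
  have b2 := tz_spec m u.2 (s := -1) (Or.inr rfl)
  constructor <;> omega

theorem e0_mem (u : U m) : e0 m ℓ u ∈ EE (ex m) (6 * ℓ) ((6 * ℓ + 1) • uu m u - uu m u) := by
  have h1 := (mem_U m).1 u.2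
  have hf := fa_spec h1.1
  have ht := t_sum m u
  rw [mem_EE3, uu_sub, E3_zero, E3_one, E3_two]
  have hs0 : ∀ s, e0 m ℓ u (Sum.inl (some s)) = 0 := fun _ => rfl
  have hn : e0 m ℓ u (Sum.inl none) = 2 * ℓ * u.1.1 := rfl
  simp only [hs0, hn, mul_zero, Finset.sum_const_zero, add_zero, zero_add]
  rw [nat_sum m ℓ u (fun _ x => x) (fun _ => rfl), nat_sum m ℓ u (fun t x => t.1.1 * x) (fun _ => mul_zero _),
    nat_sum m ℓ u (fun t x => t.1.2 * x) (fun _ => mul_zero _)]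
  have e1 : (im m u).1.1 = tx (-1) u.1 := rfl
  have e2 : (ip m u).1.1 = tx 1 u.1 := rfl
  have e1' : (im m u).1.2 = tz (-1) u.1 := rfl
  have e2' : (ip m u).1.2 = tz 1 u.1 := rfl
  rw [e1, e2, e1', e2']
  have e3 : ∀ x : ℕ, (6 * ℓ + 1) * x - x = 6 * ℓ * x := by
    intro x
    rw [add_mul, one_mul, Nat.add_sub_cancel]
  rw [e3, e3, e3]
  refine ⟨?_, by ring, ?_, ?_⟩
  · rcases h1.1 with h | h <;> rw [h] <;> omega
  · calc tx (-1) u.1 * (ℓ * (3 - u.1.1)) + tx 1 u.1 * (ℓ * (3 - u.1.1)) = ℓ * (3 - u.1.1) * (tx (-1) u.1 + tx 1 u.1) := by ring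
      _ = ℓ * ((3 - u.1.1) * fa u.1) * u.1.2.1 := by rw [ht.1]; unfold X2; ring
      _ = 6 * ℓ * u.1.2.1 := by rw [hf]; ring
  · calc tz (-1) u.1 * (ℓ * (3 - u.1.1)) + tz 1 u.1 * (ℓ * (3 - u.1.1)) = ℓ * (3 - u.1.1) * (tz (-1) u.1 + tz 1 u.1) := by ring
      _ = ℓ * ((3 - u.1.1) * fa u.1) * u.1.2.2 := by rw [ht.2]; unfold Z2; ring
      _ = 6 * ℓ * u.1.2.2 := by rw [hf]; ring

theorem sum_zero_imp {e : At m → ℕ} {u : ℕ × ℕ × ℕ} (hu : u ∈ U m) (h : ∑ a, (e a : ℝ) * DD m u a ≤ 0) (a : At m) :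
    e a = 0 ∨ DD m u a = 0 := by
  have h1 : ∀ a ∈ (univ : Finset (At m)), 0 ≤ (e a : ℝ) * DD m u a := fun a _ => mul_nonneg (Nat.cast_nonneg _) (DD_nonneg m u hu a)
  have h2 := (Finset.sum_eq_zero_iff_of_nonneg h1).1 (le_antisymm h (Finset.sum_nonneg h1)) a (Finset.mem_univ a)
  rcases mul_eq_zero.1 h2 with h3 | h3
  · left; exact_mod_cast h3
  · right; exact h3

theorem idx (u : U m) (t : E m) {s : ℤ} (hs : s = 1 ∨ s = -1) (h1 : 2 * (t.1.1 : ℤ) = X2 u.1 + s * dx u.1)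
    (h2 : 2 * (t.1.2 : ℤ) = Z2 u.1 + s * dz u.1) : t = im m u ∨ t = ip m u := by
  have a1 := tx_spec m u.2 hs
  have b1 := tz_spec m u.2 hs
  have g1 : t.1.1 = tx s u.1 := by omega
  have g2 : t.1.2 = tz s u.1 := by omega
  rcases hs with rfl | rfl
  · right
    exact Subtype.ext (Prod.ext g1 g2)
  · left
    exact Subtype.ext (Prod.ext g1 g2)

theorem diag (u : U m) (e : At m → ℕ) (he : e ∈ EE (ex m) (6 * ℓ) ((6 * ℓ + 1) • uu m u - uu m u)) (hne : e ≠ e0 m ℓ u) :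
    0 < ∑ a, (e a : ℝ) * (Lf (kk m u.1) (gg m u.1) (ex m a) - om m a) := by
  by_contra hcon
  push Not at hcon
  apply hne
  have hz := sum_zero_imp m u.2 (e := e) hcon
  have hs0 : ∀ s, e (Sum.inl (some s)) = 0 := by
    intro s
    rcases hz (Sum.inl (some s)) with h | h
    · exact h
    · exact absurd h (DD_some m u.1 u.2 s).ne'
  have ht0 : ∀ t, t ≠ im m u → t ≠ ip m u → e (Sum.inr t) = 0 := by
    intro t h1 h2
    rcases hz (Sum.inr t) with h | h
    · exact h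
    · obtain ⟨s, hs, g1, g2⟩ := (DD_inr_int m u.1 t).2 h
      rcases idx m u t hs g1 g2 with h' | h'
      · exact absurd h' h1
      · exact absurd h' h2
  rw [mem_EE3, uu_sub, E3_zero, E3_one, E3_two] at he
  simp only [hs0, mul_zero, Finset.sum_const_zero, add_zero, zero_add] at he
  rw [sum_two m u (fun t => e (Sum.inr t)) ht0, sum_two m u (fun t => t.1.1 * e (Sum.inr t)) (fun t h1 h2 => by rw [ht0 t h1 h2, mul_zero]),
    sum_two m u (fun t => t.1.2 * e (Sum.inr t)) (fun t h1 h2 => by rw [ht0 t h1 h2, mul_zero])] at he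
  have e1 : (im m u).1.1 = tx (-1) u.1 := rfl
  have e2 : (ip m u).1.1 = tx 1 u.1 := rfl
  have e1' : (im m u).1.2 = tz (-1) u.1 := rfl
  have e2' : (ip m u).1.2 = tz 1 u.1 := rfl
  rw [e1, e2, e1', e2'] at he
  have e3 : ∀ x : ℕ, (6 * ℓ + 1) * x - x = 6 * ℓ * x := by
    intro x
    rw [add_mul, one_mul, Nat.add_sub_cancel]
  have h1 := (mem_U m).1 u.2
  have hf := fa_spec h1.1
  rw [e3, e3, e3] at he
  obtain ⟨he1, he2, he3, he4⟩ := he
  set x := e (Sum.inr (im m u)) with hx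
  set y := e (Sum.inr (ip m u)) with hy
  have e7 : e (Sum.inl none) = 2 * ℓ * u.1.1 := by
    have : 3 * e (Sum.inl none) = 3 * (2 * ℓ * u.1.1) := by rw [he2]; ring
    omega
  have e8 : x + y = 2 * (ℓ * (3 - u.1.1)) := by
    rw [e7] at he1
    rcases h1.1 with h | h <;> rw [h] at he1 ⊢ <;> omega
  have a1 := tx_spec m u.2 (s := 1) (Or.inl rfl)
  have a2 := tx_spec m u.2 (s := -1) (Or.inr rfl)
  have b1 := tz_spec m u.2 (s := 1) (Or.inl rfl)
  have b2 := tz_spec m u.2 (s := -1) (Or.inr rfl)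
  have ex1 : 2 * ((tx (-1) u.1 : ℤ) * x + tx 1 u.1 * y) = X2 u.1 * (x + y) := by
    have g1 : (tx (-1) u.1 : ℤ) * x + tx 1 u.1 * y = 6 * ℓ * u.1.2.1 := by exact_mod_cast he3
    have g2 : (X2 u.1 : ℤ) * (x + y) = 2 * (ℓ * (((3 - u.1.1 : ℕ) : ℤ) * fa u.1) * u.1.2.1) := by
      have : ((x : ℤ) + y) = 2 * (ℓ * ((3 - u.1.1 : ℕ) : ℤ)) := by exact_mod_cast e8
      rw [this]
      unfold X2
      push_cast
      ring
    have g3 : (((3 - u.1.1 : ℕ) : ℤ) * fa u.1) = 6 := by exact_mod_cast hf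
    rw [g1, g2, g3]
    ring
  have ez1 : 2 * ((tz (-1) u.1 : ℤ) * x + tz 1 u.1 * y) = Z2 u.1 * (x + y) := by
    have g1 : (tz (-1) u.1 : ℤ) * x + tz 1 u.1 * y = 6 * ℓ * u.1.2.2 := by exact_mod_cast he4
    have g2 : (Z2 u.1 : ℤ) * (x + y) = 2 * (ℓ * (((3 - u.1.1 : ℕ) : ℤ) * fa u.1) * u.1.2.2) := by
      have : ((x : ℤ) + y) = 2 * (ℓ * ((3 - u.1.1 : ℕ) : ℤ)) := by exact_mod_cast e8
      rw [this]
      unfold Z2
      push_cast
      ring
    have g3 : (((3 - u.1.1 : ℕ) : ℤ) * fa u.1) = 6 := by exact_mod_cast hf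
    rw [g1, g2, g3]
    ring
  have k1 : dx u.1 * ((y : ℤ) - x) = 0 := by
    have : 2 * ((tx (-1) u.1 : ℤ) * x + tx 1 u.1 * y) = (2 * (tx (-1) u.1 : ℤ)) * x + (2 * (tx 1 u.1 : ℤ)) * y := by ring
    rw [this, a1, a2] at ex1
    linarith
  have k2 : dz u.1 * ((y : ℤ) - x) = 0 := by
    have : 2 * ((tz (-1) u.1 : ℤ) * x + tz 1 u.1 * y) = (2 * (tz (-1) u.1 : ℤ)) * x + (2 * (tz 1 u.1 : ℤ)) * y := by ring
    rw [this, b1, b2] at ez1
    linarith
  have e9 : x = y := by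
    have : (y : ℤ) - x = 0 := by
      rcases d_cases u.1 with h | h | h | h
      · rw [h.2.2.1] at k1; omega
      · rw [h.2.2.1] at k1; omega
      · rw [h.2.2.2] at k2; omega
      · rw [h.2.2.1] at k1; omega
    omega
  funext a
  rcases a with a | t
  · rcases a with _ | s
    · exact e7
    · exact hs0 s
  · by_cases h6 : t = im m u
    · have h7 : e0 m ℓ u (Sum.inr t) = ℓ * (3 - u.1.1) := by
        unfold e0
        simp [h6]
      rw [h7, h6]
      show x = _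
      omega
    · by_cases h8 : t = ip m u
      · have h7 : e0 m ℓ u (Sum.inr t) = ℓ * (3 - u.1.1) := by
          unfold e0
          simp [h8]
        rw [h7, h8]
        show y = _
        omega
      · have h7 : e0 m ℓ u (Sum.inr t) = 0 := by
          unfold e0
          simp [h6, h8]
        rw [h7, ht0 t h6 h8]

/-- the exponents of the leading monomial -/
noncomputable def MM (u : U m) : E m →₀ ℕ := Finsupp.equivFunOnFinite.symm fun t => e0 m ℓ u (Sum.inr t)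

theorem MM_apply (u : U m) (t : E m) : MM m ℓ u t = if t = im m u ∨ t = ip m u then ℓ * (3 - u.1.1) else 0 := rfl

theorem term_e0 {K : Type} [Field K] (a : Fin 2 × E m → K) (u : U m) :
    Fn.term (co m (fun s => MvPolynomial.C (σ := E m) (a s)) MvPolynomial.X) (e0 m ℓ u) =
      MvPolynomial.monomial (MM m ℓ u) (Nat.multinomial univ (e0 m ℓ u) : K) := by
  unfold Fn.term
  rw [Fintype.prod_sum_type, Fintype.prod_option]
  have h1 : ∀ s, (co m (fun s => MvPolynomial.C (σ := E m) (a s)) MvPolynomial.X) (Sum.inl (some s)) ^ e0 m ℓ u (Sum.inl (some s)) = 1 := by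
    intro s
    show _ ^ 0 = _
    exact pow_zero _
  have h2 : (co m (fun s => MvPolynomial.C (σ := E m) (a s)) MvPolynomial.X) (Sum.inl none) ^ e0 m ℓ u (Sum.inl none) = 1 := by
    show (1 : MvPolynomial (E m) K) ^ _ = 1
    exact one_pow _
  rw [h2, Finset.prod_congr rfl fun s _ => h1 s, Finset.prod_const_one, one_mul, one_mul]
  have h3 : ∏ t, (co m (fun s => MvPolynomial.C (σ := E m) (a s)) MvPolynomial.X) (Sum.inr t) ^ e0 m ℓ u (Sum.inr t) =
      (MvPolynomial.monomial (MM m ℓ u) 1 : MvPolynomial (E m) K) := by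
    rw [MvPolynomial.monomial_eq, map_one, one_mul, Finsupp.prod_fintype _ _ (fun _ => pow_zero _)]
    rfl
  rw [h3, ← map_natCast (MvPolynomial.C (σ := E m) (R := K)), MvPolynomial.C_mul_monomial, mul_one]

theorem om_LE {K : Type} [Field K] (a : Fin 2 × E m → K) (x : At m) :
    LE (w m) (co m (fun s => MvPolynomial.C (σ := E m) (a s)) MvPolynomial.X x) (om m x) := by
  rcases x with x | t
  · rcases x with _ | s
    · exact LE.one
    · show LE (w m) (MvPolynomial.C (a s)) 0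
      rw [← MvPolynomial.monomial_zero']
      refine LE.monomial ?_ _
      unfold Wt
      simp
  · show LE (w m) (MvPolynomial.X t) (w m t)
    rw [MvPolynomial.X]
    refine LE.monomial ?_ _
    unfold Wt
    rw [Finset.sum_eq_single t]
    · rw [Finsupp.single_eq_same, Nat.cast_one, mul_one]
    · intro j _ hj
      rw [Finsupp.single_eq_of_ne hj, Nat.cast_zero, mul_zero]
    · intro h
      exact absurd (Finset.mem_univ _) h

end Run7.h328.ORD.Pla
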