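import Pool.Agent.Run7.h328.ORD.Pla2

/-! # The Hasse-Witt determinants of triple planes: the theorem -/

set_option autoImplicit false

namespace Run7.h328.ORD.Pla

open Finset
open Run7.h328.ORD Run7.h328.ORD.Fn

variable (m ℓ : ℕ)

theorem Wt_MM (u : U m) : Wt (w m) (MM m ℓ u) = Fn.TT (6 * ℓ + 1) (6 * ℓ) (uu m) (fun u : U m => kk m u.1) (fun u => gg m u.1) (fun _ => 0) u u := by
  have h1 := wt_id (ex m) (6 * ℓ) (om m) (kk m u.1) (gg m u.1) _ _ (e0_mem m ℓ u)
  have h2 : ∑ a, (e0 m ℓ u a : ℝ) * (Lf (kk m u.1) (gg m u.1) (ex m a) - om m a) = 0 := by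
    refine Finset.sum_eq_zero fun a _ => ?_
    rcases a with a | t
    · rcases a with _ | s
      · have := DD_none m u.1
        unfold DD at this
        rw [this, mul_zero]
      · have : e0 m ℓ u (Sum.inl (some s)) = 0 := rfl
        rw [this, Nat.cast_zero, zero_mul]
    · by_cases h : t = im m u ∨ t = ip m u
      · have h5 : DD m u.1 (Sum.inr t) = 0 := by
          rcases h with h | h
          · rw [h]
            exact DD_zero m u.1 _ (Or.inr rfl) (tx_spec m u.2 (Or.inr rfl)) (tz_spec m u.2 (Or.inr rfl))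
          · rw [h]
            exact DD_zero m u.1 _ (Or.inl rfl) (tx_spec m u.2 (Or.inl rfl)) (tz_spec m u.2 (Or.inl rfl))
        unfold DD at h5
        rw [h5, mul_zero]
      · have : e0 m ℓ u (Sum.inr t) = 0 := by
          unfold e0
          simp [h]
        rw [this, Nat.cast_zero, zero_mul]
  have h3 : ∑ a, (e0 m ℓ u a : ℝ) * om m a = Wt (w m) (MM m ℓ u) := by
    rw [sum_At]
    have e1 : om m (Sum.inl none) = 0 := rfl
    have e2 : ∀ s, om m (Sum.inl (some s)) = 0 := fun _ => rfl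
    simp only [e1, e2, mul_zero, Finset.sum_const_zero, zero_add]
    unfold Wt MM
    exact Finset.sum_congr rfl fun t _ => mul_comm _ _
  rw [← h3, h1, h2]
  unfold Fn.TT
  congr 2
  exact Finset.sum_congr rfl fun s _ => by rw [sub_cast (le_smul (Nat.succ_pos _) _)]

/-- the differences -/
theorem diff_eq (u v : U m) : Lf (kk m v.1) (gg m v.1) (uu m u) - Lf (kk m u.1) (gg m u.1) (uu m u) =
    (3 - (u.1.1 : ℝ)) / 12 * (Qr ((X2 v.1 : ℝ) - X2 u.1) ((Z2 v.1 : ℝ) - Z2 u.1) + Qr (dx u.1) (dz u.1) - Qr (dx v.1) (dz v.1)) := by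
  unfold uu
  rw [Lf_E3, Lf_E3]
  have h1 := (mem_U m).1 u.2
  have hf := fa_spec h1.1
  have h3 : (3 - (u.1.1 : ℝ)) * fa u.1 = 6 := by
    rcases h1.1 with h | h
    · rw [h] at hf ⊢
      have : ((3 - 1 : ℕ) : ℝ) * fa u.1 = 6 := by exact_mod_cast hf
      push_cast at this ⊢
      linarith
    · rw [h] at hf ⊢
      have : ((3 - 2 : ℕ) : ℝ) * fa u.1 = 6 := by exact_mod_cast hf
      push_cast at this ⊢
      linarith
  have h4 : (u.1.2.1 : ℝ) = (3 - (u.1.1 : ℝ)) * X2 u.1 / 6 := by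
    unfold X2
    push_cast
    have : (3 - (u.1.1 : ℝ)) * ((fa u.1 : ℝ) * u.1.2.1) = ((3 - (u.1.1 : ℝ)) * fa u.1) * u.1.2.1 := by ring
    rw [this, h3]
    ring
  have h5 : (u.1.2.2 : ℝ) = (3 - (u.1.1 : ℝ)) * Z2 u.1 / 6 := by
    unfold Z2
    push_cast
    have : (3 - (u.1.1 : ℝ)) * ((fa u.1 : ℝ) * u.1.2.2) = ((3 - (u.1.1 : ℝ)) * fa u.1) * u.1.2.2 := by ring
    rw [this, h3]
    ring
  unfold kk
  rw [h4, h5]
  unfold Qr
  ring

theorem diff_nonneg (u v : U m) : 0 ≤ Lf (kk m v.1) (gg m v.1) (uu m u) - Lf (kk m u.1) (gg m u.1) (uu m u) ∧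
    (¬ (X2 v.1 = X2 u.1 ∧ Z2 v.1 = Z2 u.1) → 0 < Lf (kk m v.1) (gg m v.1) (uu m u) - Lf (kk m u.1) (gg m u.1) (uu m u)) := by
  rw [diff_eq]
  have h1 := (mem_U m).1 u.2
  have hpos : 0 < (3 - (u.1.1 : ℝ)) / 12 := by
    rcases h1.1 with h | h <;> rw [h] <;> norm_num
  have d1 := X2_dvd u.1
  have d2 := X2_dvd v.1
  have d3 := Z2_dvd u.1
  have d4 := Z2_dvd v.1
  by_cases h : X2 v.1 = X2 u.1 ∧ Z2 v.1 = Z2 u.1
  · have h3 : dx v.1 = dx u.1 ∧ dz v.1 = dz u.1 := by
      unfold dx dz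
      rw [h.1, h.2]
      exact ⟨rfl, rfl⟩
    rw [h.1, h.2, h3.1, h3.2]
    refine ⟨?_, fun h' => absurd ⟨rfl, rfl⟩ h'⟩
    have : Qr ((X2 u.1 : ℝ) - X2 u.1) ((Z2 u.1 : ℝ) - Z2 u.1) = 0 := by
      unfold Qr
      ring
    rw [this]
    simp
  · have h6 : 3 ≤ |(X2 v.1 : ℤ) - X2 u.1| ∨ 3 ≤ |(Z2 v.1 : ℤ) - Z2 u.1| := by
      by_cases hx : X2 v.1 = X2 u.1
      · right
        have : Z2 v.1 ≠ Z2 u.1 := fun h' => h ⟨hx, h'⟩
        rw [le_abs]
        omega
      · left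
        rw [le_abs]
        omega
    have h7 := (Q_big (by norm_num : (0 : ℤ) < 3) h6).2
    have h8 : Qr ((X2 v.1 : ℝ) - X2 u.1) ((Z2 v.1 : ℝ) - Z2 u.1) = ((Q ((X2 v.1 : ℤ) - X2 u.1) ((Z2 v.1 : ℤ) - Z2 u.1) : ℤ) : ℝ) := by
      rw [Q_cast]
      push_cast
      rfl
    have h9 : (9 : ℝ) ≤ Qr ((X2 v.1 : ℝ) - X2 u.1) ((Z2 v.1 : ℝ) - Z2 u.1) := by
      rw [h8]
      have : (9 : ℤ) ≤ Q ((X2 v.1 : ℤ) - X2 u.1) ((Z2 v.1 : ℤ) - Z2 u.1) := by linarith
      exact_mod_cast this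
    have h10 := Qd_le v.1
    have h11 := Qr_nonneg (dx u.1) (dz u.1)
    have h5 := mul_pos hpos (show (0 : ℝ) < Qr ((X2 v.1 : ℝ) - X2 u.1) ((Z2 v.1 : ℝ) - Z2 u.1) + Qr (dx u.1) (dz u.1) -
      Qr (dx v.1) (dz v.1) by linarith)
    exact ⟨h5.le, fun _ => h5⟩

theorem perm (σ : Equiv.Perm (U m)) (hσ : σ ≠ 1) :
    ∑ i, Fn.TT (6 * ℓ + 1) (6 * ℓ) (uu m) (fun u : U m => kk m u.1) (fun u => gg m u.1) (fun _ => 0) (σ i) i <
      ∑ i, Fn.TT (6 * ℓ + 1) (6 * ℓ) (uu m) (fun u : U m => kk m u.1) (fun u => gg m u.1) (fun _ => 0) i i ∨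
      (∑ i, Fn.TT (6 * ℓ + 1) (6 * ℓ) (uu m) (fun u : U m => kk m u.1) (fun u => gg m u.1) (fun _ => 0) (σ i) i ≤
        ∑ i, Fn.TT (6 * ℓ + 1) (6 * ℓ) (uu m) (fun u : U m => kk m u.1) (fun u => gg m u.1) (fun _ => 0) i i ∧
        ∃ i, uu m i ≤ (6 * ℓ + 1) • uu m (σ i) →
        ∀ e ∈ EE (ex m) (6 * ℓ) ((6 * ℓ + 1) • uu m (σ i) - uu m i),
          (0 : ℝ) < ∑ a, e a * (Lf (kk m (σ i).1) (gg m (σ i).1) (ex m a) - om m a)) := by
  have hd := TT_diff (6 * ℓ + 1) (6 * ℓ) (uu m) (fun u : U m => kk m u.1) (fun u => gg m u.1) (fun _ => 0) σ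
  by_cases hC : ∃ i : U m, ¬ (X2 (σ i).1 = X2 i.1 ∧ Z2 (σ i).1 = Z2 i.1)
  · left
    obtain ⟨i, hi⟩ := hC
    have h1 : 0 < ∑ i, (Lf (kk m (σ i).1) (gg m (σ i).1) (uu m i) - Lf (kk m i.1) (gg m i.1) (uu m i)) :=
      Finset.sum_pos' (fun i _ => (diff_nonneg m i (σ i)).1) ⟨i, Finset.mem_univ i, (diff_nonneg m i (σ i)).2 hi⟩
    linarith
  · right
    have hC' : ∀ i : U m, X2 (σ i).1 = X2 i.1 ∧ Z2 (σ i).1 = Z2 i.1 := by
      intro i
      by_contra h
      exact hC ⟨i, h⟩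
    have h1 : 0 ≤ ∑ i, (Lf (kk m (σ i).1) (gg m (σ i).1) (uu m i) - Lf (kk m i.1) (gg m i.1) (uu m i)) :=
      Finset.sum_nonneg fun i _ => (diff_nonneg m i (σ i)).1
    refine ⟨by linarith, ?_⟩
    have hne : ∃ i, σ i ≠ i := by
      by_contra hcon
      push Not at hcon
      exact hσ (Equiv.ext hcon)
    obtain ⟨i, hi⟩ := hne
    refine ⟨i, fun hle e he => ?_⟩
    have hle0 : i.1.1 ≤ (6 * ℓ + 1) * (σ i).1.1 := by
      have := hle 0
      rw [Finsupp.smul_apply, smul_eq_mul] at this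
      unfold uu at this
      rwa [E3_zero, E3_zero] at this
    have hCi := hC' i
    have m1 := (mem_U m).1 i.2
    have m2 := (mem_U m).1 (σ i).2
    have hy : (σ i).1.1 ≠ i.1.1 := by
      intro hy
      apply hi
      apply Subtype.ext
      have hfa : fa (σ i).1 = fa i.1 := by
        unfold fa
        rw [hy]
      unfold X2 Z2 at hCi
      rw [hfa] at hCi
      have hfp : 0 < fa i.1 := by
        rcases fa_cases i.1 with h | h <;> rw [h] <;> norm_num
      have g1 := Nat.eq_of_mul_eq_mul_left hfp hCi.1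
      have g2 := Nat.eq_of_mul_eq_mul_left hfp hCi.2
      exact Prod.ext hy (Prod.ext g1 g2)
    by_contra hcon
    push Not at hcon
    have hz := sum_zero_imp m (σ i).2 (e := e) hcon
    have hs0 : ∀ s, e (Sum.inl (some s)) = 0 := by
      intro s
      rcases hz (Sum.inl (some s)) with h | h
      · exact h
      · exact absurd h (DD_some m (σ i).1 (σ i).2 s).ne'
    rw [mem_EE3, uu_sub, E3_zero, E3_one, E3_two] at he
    simp only [hs0, mul_zero, Finset.sum_const_zero, add_zero, zero_add] at he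
    have h3 := he.2.1
    rcases m1.1 with h4 | h4 <;> rcases m2.1 with h5 | h5
    · exact hy (h5.trans h4.symm)
    · rw [h4, h5] at h3 hle0
      omega
    · rw [h4, h5] at h3 hle0
      omega
    · exact hy (h5.trans h4.symm)

/-- the exponents -/
theorem MM_sum (t : E m) : (∑ u, MM m ℓ u : E m →₀ ℕ) t ≤ 5 * ℓ := by
  classical
  rw [Finsupp.finsetSum_apply]
  set P : ℕ × ℕ × ℕ → Prop := fun v => ∃ s : ℤ, (s = 1 ∨ s = -1) ∧ 2 * (t.1.1 : ℤ) = X2 v + s * dx v ∧ 2 * (t.1.2 : ℤ) = Z2 v + s * dz v with hP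
  set f : ℕ × ℕ × ℕ → ℕ := fun v => if P v then ℓ * (3 - v.1) else 0 with hf
  have h1 : ∀ u : U m, MM m ℓ u t ≤ f u.1 := by
    intro u
    rw [MM_apply, hf]
    simp only
    by_cases h : t = im m u ∨ t = ip m u
    · have hPu : P u.1 := by
        rcases h with h | h
        · exact ⟨-1, Or.inr rfl, by rw [h]; exact tx_spec m u.2 (Or.inr rfl), by rw [h]; exact tz_spec m u.2 (Or.inr rfl)⟩
        · exact ⟨1, Or.inl rfl, by rw [h]; exact tx_spec m u.2 (Or.inl rfl), by rw [h]; exact tz_spec m u.2 (Or.inl rfl)⟩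
      rw [if_pos h, if_pos hPu]
    · rw [if_neg h]
      exact Nat.zero_le _
  refine (Finset.sum_le_sum fun u _ => h1 u).trans ?_
  rw [Finset.sum_coe_sort (U m) f]
  have hval : ∀ v ∈ U m, f v ≠ 0 → P v := by
    intro v _ h
    rw [hf] at h
    simp only at h
    by_contra h'
    rw [if_neg h'] at h
    exact h rfl
  have hb : ∀ (i j k : ℕ), f (i, j, k) ≤ ℓ * (3 - i) := by
    intro i j k
    rw [hf]
    simp only
    split_ifs
    · exact le_rfl
    · exact Nat.zero_le _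
  set q := t.1.1 / 3 with hq
  set r := t.1.2 / 3 with hr
  by_cases c1 : t.1.1 % 3 = 1 ∧ t.1.2 % 3 = 0
  · have h5 : ∑ v ∈ U m, f v ≤ ∑ v ∈ ({(2, q, r), (1, 2 * q, 2 * r), (1, 2 * q + 1, 2 * r)} : Finset (ℕ × ℕ × ℕ)), f v := by
      refine Finset.sum_le_sum_of_ne_zero fun v hv h => ?_
      obtain ⟨s, hs, g1, g2⟩ := hval v hv h
      have h6 := (mem_U m).1 hv
      have h7 := d_cases v
      simp only [Finset.mem_insert, Finset.mem_singleton, Prod.ext_iff]
      unfold X2 fa at g1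
      unfold Z2 fa at g2
      unfold X2 Z2 fa at h7
      rcases h6.1 with h8 | h8
      · rw [h8] at g1 g2 h7 ⊢
        simp only [OfNat.one_ne_ofNat, if_false] at g1 g2 h7
        rcases hs with rfl | rfl <;> omega
      · rw [h8] at g1 g2 h7 ⊢
        simp only [if_true] at g1 g2 h7
        rcases hs with rfl | rfl <;> omega
    refine h5.trans ?_
    rw [Finset.sum_insert (by simp), Finset.sum_insert (by simp), Finset.sum_singleton]
    have b1 := hb 2 q r
    have b2 := hb 1 (2 * q) (2 * r)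
    have b3 := hb 1 (2 * q + 1) (2 * r)
    omega
  · by_cases c2 : t.1.1 % 3 = 2 ∧ t.1.2 % 3 = 0
    · have h5 : ∑ v ∈ U m, f v ≤ ∑ v ∈ ({(2, q + 1, r), (1, 2 * q + 2, 2 * r), (1, 2 * q + 1, 2 * r)} : Finset (ℕ × ℕ × ℕ)), f v := by
        refine Finset.sum_le_sum_of_ne_zero fun v hv h => ?_
        obtain ⟨s, hs, g1, g2⟩ := hval v hv h
        have h6 := (mem_U m).1 hv
        have h7 := d_cases v
        simp only [Finset.mem_insert, Finset.mem_singleton, Prod.ext_iff]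
        unfold X2 fa at g1
        unfold Z2 fa at g2
        unfold X2 Z2 fa at h7
        rcases h6.1 with h8 | h8
        · rw [h8] at g1 g2 h7 ⊢
          simp only [OfNat.one_ne_ofNat, if_false] at g1 g2 h7
          rcases hs with rfl | rfl <;> omega
        · rw [h8] at g1 g2 h7 ⊢
          simp only [if_true] at g1 g2 h7
          rcases hs with rfl | rfl <;> omega
      refine h5.trans ?_
      rw [Finset.sum_insert (by simp), Finset.sum_insert (by simp), Finset.sum_singleton]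
      have b1 := hb 2 (q + 1) r
      have b2 := hb 1 (2 * q + 2) (2 * r)
      have b3 := hb 1 (2 * q + 1) (2 * r)
      omega
    · have h5 : ∑ v ∈ U m, f v ≤ ∑ v ∈ ({(1, 2 * q, 2 * r + 1), (1, 2 * q + 1, 2 * r + 1)} : Finset (ℕ × ℕ × ℕ)), f v := by
        refine Finset.sum_le_sum_of_ne_zero fun v hv h => ?_
        obtain ⟨s, hs, g1, g2⟩ := hval v hv h
        have h6 := (mem_U m).1 hv
        have h7 := d_cases v
        simp only [Finset.mem_insert, Finset.mem_singleton, Prod.ext_iff]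
        unfold X2 fa at g1
        unfold Z2 fa at g2
        unfold X2 Z2 fa at h7
        rcases h6.1 with h8 | h8
        · rw [h8] at g1 g2 h7 ⊢
          simp only [OfNat.one_ne_ofNat, if_false] at g1 g2 h7
          rcases hs with rfl | rfl <;> omega
        · rw [h8] at g1 g2 h7 ⊢
          simp only [if_true] at g1 g2 h7
          rcases hs with rfl | rfl <;> omega
      refine h5.trans ?_
      rw [Finset.sum_insert (by simp), Finset.sum_singleton]
      have b2 := hb 1 (2 * q) (2 * r + 1)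
      have b3 := hb 1 (2 * q + 1) (2 * r + 1)
      omega

/-- **Many ordinary triple planes.** -/
theorem count_pla {p : ℕ} [hp : Fact p.Prime] (h3 : p % 3 = 1) (a : Fin 2 × E m → ZMod p) :
    (1 / 36 : ℝ) ^ (U m).card * (p : ℝ) ^ (E m).card ≤
      Nat.card {r : E m → ZMod p // (HWm p (p - 1) (ex m) (uu m) (co m a r)).det ≠ 0} := by
  classical
  have h2 : p ≠ 2 := by omega
  obtain ⟨n, hn⟩ := hp.out.odd_of_ne_two h2
  obtain ⟨ℓ, hℓ⟩ : ∃ ℓ, p = 6 * ℓ + 1 := ⟨p / 6, by omega⟩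
  subst hℓ
  have hfin := count (p := 6 * ℓ + 1) (6 * ℓ) (ex m) (uu m) (co m (fun s => MvPolynomial.C (σ := E m) (a s)) MvPolynomial.X)
    (w m) (w_pos m) (om m) (om_LE m a) (fun u : U m => kk m u.1) (fun u => gg m u.1) (fun _ => 0)
    (fun i j _ e _ => Finset.sum_nonneg fun x _ => mul_nonneg (Nat.cast_nonneg _) (DD_nonneg m i.1 i.2 x))
    (e0 m ℓ) (e0_mem m ℓ) (fun i e he hne => diag m ℓ i e he hne) (MM m ℓ) (fun i => (Nat.multinomial univ (e0 m ℓ i) : ZMod (6 * ℓ + 1)))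
    (fun i => multinomial_ne (e0 m ℓ i) (by
      rw [((mem_EE _ _).1 (e0_mem m ℓ i)).1]
      omega)) (fun i => term_e0 m ℓ a i) (fun i => Wt_MM m ℓ i) (fun σ hσ => perm m ℓ σ hσ)
    (fun s => lt_of_le_of_lt (MM_sum m ℓ s) (by omega))
  have e1 : ∀ r : E m → ZMod (6 * ℓ + 1), (fun x => MvPolynomial.eval r
      (co m (fun s => MvPolynomial.C (σ := E m) (a s)) MvPolynomial.X x)) = co m a r := by
    intro r
    funext x
    rcases x with x | t
    · rcases x with _ | s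
      · exact map_one _
      · exact MvPolynomial.eval_C _
    · exact MvPolynomial.eval_X _
  simp only [e1] at hfin
  have e2 : 6 * ℓ + 1 - 1 = 6 * ℓ := rfl
  rw [e2]
  have hfin' : ((∏ s, (6 * ℓ + 1 - (∑ i, MM m ℓ i : E m →₀ ℕ) s) : ℕ) : ℝ) ≤
      Nat.card {r : E m → ZMod (6 * ℓ + 1) // (HWm (6 * ℓ + 1) (6 * ℓ) (ex m) (uu m) (co m a r)).det ≠ 0} := by
    exact_mod_cast hfin
  refine le_trans ?_ hfin'
  set I : Finset (E m) := univ.image (im m) ∪ univ.image (ip m) with hI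
  have hIc : I.card ≤ 2 * (U m).card := by
    have g1 : (univ.image (im m)).card ≤ (U m).card := by
      refine Finset.card_image_le.trans (le_of_eq ?_)
      rw [Finset.card_univ, Fintype.card_coe]
    have g2 : (univ.image (ip m)).card ≤ (U m).card := by
      refine Finset.card_image_le.trans (le_of_eq ?_)
      rw [Finset.card_univ, Fintype.card_coe]
    have g3 := Finset.card_union_le (univ.image (im m)) (univ.image (ip m))
    rw [hI]
    omega
  have e4 : (1 / 36 : ℝ) ^ (U m).card ≤ ∏ t : E m, (if t ∈ I then (1 / 6 : ℝ) else 1) := by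
    rw [Finset.prod_ite, Finset.prod_const, Finset.prod_const_one, mul_one, Finset.filter_mem_eq_inter, Finset.univ_inter]
    have : (1 / 36 : ℝ) ^ (U m).card = (1 / 6 : ℝ) ^ (2 * (U m).card) := by
      rw [pow_mul]
      norm_num
    rw [this]
    exact pow_le_pow_of_le_one (by norm_num) (by norm_num) hIc
  have e3 : ((6 * ℓ + 1 : ℕ) : ℝ) ^ (E m).card = ∏ _t : E m, ((6 * ℓ + 1 : ℕ) : ℝ) := by
    rw [Finset.prod_const, Finset.card_univ, Fintype.card_coe]
  refine (mul_le_mul_of_nonneg_right e4 (by positivity)).trans ?_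
  rw [e3, ← Finset.prod_mul_distrib, Nat.cast_prod]
  refine Finset.prod_le_prod (fun t _ => by split_ifs <;> positivity) fun t _ => ?_
  have h5 := MM_sum m ℓ t
  split_ifs with h6
  · have h7 : 6 * ℓ + 1 ≤ 6 * (6 * ℓ + 1 - (∑ i, MM m ℓ i : E m →₀ ℕ) t) := by omega
    have h8 : ((6 * ℓ + 1 : ℕ) : ℝ) ≤ 6 * ((6 * ℓ + 1 - (∑ i, MM m ℓ i : E m →₀ ℕ) t : ℕ) : ℝ) := by exact_mod_cast h7
    linarith
  · have h7 : (∑ i, MM m ℓ i : E m →₀ ℕ) t = 0 := by
      rw [Finsupp.finsetSum_apply]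
      refine Finset.sum_eq_zero fun u _ => ?_
      rw [MM_apply, if_neg]
      rintro (h | h)
      · apply h6
        rw [hI, h]
        exact Finset.mem_union_left _ (Finset.mem_image_of_mem _ (Finset.mem_univ _))
      · apply h6
        rw [hI, h]
        exact Finset.mem_union_right _ (Finset.mem_image_of_mem _ (Finset.mem_univ _))
    rw [h7, Nat.sub_zero, one_mul]

end Run7.h328.ORD.Pla
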