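import Pool.Agent.Run7.h328.ORD.Fun

/-! # The Hasse-Witt blocks of superelliptic curves -/

set_option autoImplicit false

namespace Run7.h328.ORD.Fn

open Finset
open Run7.h328.ORD

variable {ρ : Type} [Fintype ρ] {α : Type} [Fintype α] [DecidableEq α]
variable {ι : Type} [Fintype ι] [DecidableEq ι] {κ : Type} [Fintype κ] [DecidableEq κ] {K : Type} [Field K]

/-- the leading term of the determinant of a Hasse-Witt matrix -/
theorem lead_det (p n : ℕ) (hp : 0 < p) (ex : α → ρ →₀ ℕ) (u : κ → ρ →₀ ℕ) (cf : α → MvPolynomial ι K)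
    (w : ι → ℝ) (ω : α → ℝ) (hω : ∀ a, LE w (cf a) (ω a)) (k : κ → ℝ) (g : κ → ρ → ℝ) (τ : κ → ℝ)
    (hle : ∀ i j, u j ≤ p • u i → ∀ e ∈ EE ex n (p • u i - u j), τ i ≤ ∑ a, e a * (Lf (k i) (g i) (ex a) - ω a))
    (e0 : κ → α → ℕ) (h0 : ∀ i, e0 i ∈ EE ex n (p • u i - u i))
    (hdiag : ∀ i, ∀ e ∈ EE ex n (p • u i - u i), e ≠ e0 i → τ i < ∑ a, e a * (Lf (k i) (g i) (ex a) - ω a))
    (M : κ → ι →₀ ℕ) (c : κ → K) (hM : ∀ i, Fn.term cf (e0 i) = MvPolynomial.monomial (M i) (c i))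
    (hWt : ∀ i, Wt w (M i) = Fn.TT p n u k g τ i i)
    (hσ : ∀ σ : Equiv.Perm κ, σ ≠ 1 → ∑ i, Fn.TT p n u k g τ (σ i) i < ∑ i, Fn.TT p n u k g τ i i) :
    ∃ R, (HWm p n ex u cf).det = MvPolynomial.monomial (∑ i, M i) (∏ i, c i) + R ∧ LT w R (Wt w (∑ i, M i : ι →₀ ℕ)) := by
  classical
  set A : Matrix κ κ (MvPolynomial ι K) := HWm p n ex u cf with hA
  have hT : ∀ i j, u j ≤ p • u i → n * k i + ∑ s, g i s * ((p • u i - u j : ρ →₀ ℕ) s : ℕ) - τ i = Fn.TT p n u k g τ i j := by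
    intro i j h
    unfold Fn.TT
    congr 2
    exact Finset.sum_congr rfl fun s _ => by rw [sub_cast h]
  have h1 : ∀ i j, LE w (A i j) (Fn.TT p n u k g τ i j) := by
    intro i j
    rw [hA]
    unfold HWm
    rw [Matrix.of_apply]
    split_ifs with h
    · rw [← hT i j h]
      exact coeff_LE ex n cf ω hω _ _ _ _ (hle i j h)
    · exact LE.zero _
  have h2 : ∀ i, ∃ R, A i i = MvPolynomial.monomial (M i) (c i) + R ∧ LT w R (Fn.TT p n u k g τ i i) := by
    intro i
    obtain ⟨R, hR1, hR2⟩ := coeff_lead ex n cf ω hω (k i) (g i) (τ i) (p • u i - u i) (e0 i) (h0 i) (hdiag i)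
    refine ⟨R, ?_, ?_⟩
    · rw [hA]
      unfold HWm
      rw [Matrix.of_apply, if_pos (le_smul hp _), hR1, hM]
    · rwa [hT i i (le_smul hp _)] at hR2
  exact det_lead A (Fn.TT p n u k g τ) M c h1 h2 hWt (fun σ hσ1 => Or.inl (hσ σ hσ1))

end Run7.h328.ORD.Fn

namespace Run7.h328.ORD.Sup

open Finset
open Run7.h328.ORD Run7.h328.ORD.Fn

variable (m k i ℓ : ℕ)

/-- the exponents -/
noncomputable def S1 (t : ℕ) : Fin 1 →₀ ℕ := Finsupp.single 0 t

@[simp] theorem S1_zero (t : ℕ) : S1 t 0 = t := by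
  unfold S1
  simp

theorem ext1 {a b : Fin 1 →₀ ℕ} (h : a 0 = b 0) : a = b := by
  refine Finsupp.ext fun s => ?_
  rw [Subsingleton.elim s 0]
  exact h

/-- the atoms -/
noncomputable def ex (t : Fin (m + 1)) : Fin 1 →₀ ℕ := S1 t

/-- the indices of the block `i` -/
def U : Finset ℕ := (Icc 1 m).filter fun u => k * u < i * m

/-- the points of the block -/
noncomputable def uu (u : U m k i) : Fin 1 →₀ ℕ := S1 u.1

/-- the constant -/
noncomputable def W : ℝ := (m : ℝ) ^ 2 + 1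

/-- the weights -/
noncomputable def w (t : Fin (m + 1)) : ℝ := W m - ((t : ℕ) : ℝ) ^ 2

theorem w_pos (t : Fin (m + 1)) : 0 < w m t := by
  unfold w W
  have h1 : ((t : ℕ) : ℝ) ≤ m := by exact_mod_cast Nat.lt_succ_iff.1 t.2
  have h2 : (0 : ℝ) ≤ ((t : ℕ) : ℝ) := Nat.cast_nonneg _
  have h3 : ((t : ℕ) : ℝ) ^ 2 ≤ (m : ℝ) ^ 2 := by gcongr
  linarith

/-- the lower neighbour -/
def t0 (u : ℕ) : ℕ := k * u / i

/-- the constants -/
noncomputable def kk (u : ℕ) : ℝ := W m + (t0 k i u : ℝ) * ((t0 k i u : ℝ) + 1)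

/-- the slopes -/
noncomputable def gg (u : ℕ) : Fin 1 → ℝ := fun _ => -(2 * (t0 k i u : ℝ) + 1)

theorem DD (u : ℕ) (t : Fin (m + 1)) : Lf (kk m k i u) (gg k i u) (ex m t) - w m t =
    (((t : ℕ) : ℝ) - t0 k i u) * (((t : ℕ) : ℝ) - t0 k i u - 1) := by
  unfold Lf gg kk w ex
  rw [Fin.sum_univ_one, S1_zero]
  ring

theorem DD_int (u : ℕ) (t : Fin (m + 1)) : 0 ≤ Lf (kk m k i u) (gg k i u) (ex m t) - w m t ∧
    (Lf (kk m k i u) (gg k i u) (ex m t) - w m t = 0 → (t : ℕ) = t0 k i u ∨ (t : ℕ) = t0 k i u + 1) := by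
  rw [DD]
  have e : (((t : ℕ) : ℝ) - t0 k i u) * (((t : ℕ) : ℝ) - t0 k i u - 1) =
      (((((t : ℕ) : ℤ) - t0 k i u) * (((t : ℕ) : ℤ) - t0 k i u - 1) : ℤ) : ℝ) := by push_cast; ring
  rw [e]
  set z : ℤ := ((t : ℕ) : ℤ) - t0 k i u with hz
  constructor
  · have : 0 ≤ z * (z - 1) := by
      rcases le_or_gt z 0 with h | h
      · nlinarith
      · have : 1 ≤ z := h
        nlinarith
    exact_mod_cast this
  · intro h
    have h1 : z * (z - 1) = 0 := by exact_mod_cast h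
    rcases mul_eq_zero.1 h1 with h2 | h2
    · left; omega
    · right; omega

variable {m k i}

theorem t0_lt (hi : 0 < i) (u : U m k i) : t0 k i u.1 < m := by
  have h := (Finset.mem_filter.1 u.2).2
  unfold t0
  rw [Nat.div_lt_iff_lt_mul hi]
  rw [mul_comm m i]
  exact h

/-- the index of the lower neighbour -/
def ia (hi : 0 < i) (u : U m k i) : Fin (m + 1) := ⟨t0 k i u.1, by have := t0_lt hi u; omega⟩
/-- the index of the upper neighbour -/
def ib (hi : 0 < i) (u : U m k i) : Fin (m + 1) := ⟨t0 k i u.1 + 1, by have := t0_lt hi u; omega⟩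

theorem ia_ne (hi : 0 < i) (u : U m k i) : ia hi u ≠ ib hi u := by
  intro h
  have : t0 k i u.1 = t0 k i u.1 + 1 := congrArg Fin.val h
  omega

/-- the exponents of the leading term -/
def e0 (hi : 0 < i) (u : U m k i) (t : Fin (m + 1)) : ℕ :=
  if t = ia hi u then ℓ * (i - k * u.1 % i) else if t = ib hi u then ℓ * (k * u.1 % i) else 0

theorem sum_two {A : Type} [AddCommMonoid A] (hi : 0 < i) (u : U m k i) (f : Fin (m + 1) → A)
    (hf : ∀ t, t ≠ ia hi u → t ≠ ib hi u → f t = 0) : ∑ t, f t = f (ia hi u) + f (ib hi u) := by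
  rw [← Finset.sum_pair (ia_ne hi u)]
  symm
  refine Finset.sum_subset (Finset.subset_univ _) fun t _ ht => ?_
  rw [Finset.mem_insert, Finset.mem_singleton, not_or] at ht
  exact hf t ht.1 ht.2

theorem nat_sum {A : Type} [AddCommMonoid A] (hi : 0 < i) (u : U m k i) (f : Fin (m + 1) → ℕ → A) (hf : ∀ t, f t 0 = 0) :
    ∑ t, f t (e0 ℓ hi u t) = f (ia hi u) (ℓ * (i - k * u.1 % i)) + f (ib hi u) (ℓ * (k * u.1 % i)) := by
  rw [sum_two hi u]
  · unfold e0
    rw [if_pos rfl, if_neg (ia_ne hi u).symm, if_pos rfl]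
  · intro t h1 h2
    unfold e0
    rw [if_neg h1, if_neg h2, hf]

theorem mem_EE1 (n : ℕ) (N : Fin 1 →₀ ℕ) (e : Fin (m + 1) → ℕ) : e ∈ EE (ex m) n N ↔
    (∑ t, e t = n) ∧ (∑ t : Fin (m + 1), (t : ℕ) * e t = N 0) := by
  rw [mem_EE]
  have h0 : (∑ t, e t • ex m t) 0 = ∑ t : Fin (m + 1), (t : ℕ) * e t := by
    rw [Finsupp.finsetSum_apply]
    refine Finset.sum_congr rfl fun t _ => ?_
    rw [Finsupp.smul_apply, smul_eq_mul]
    unfold ex
    rw [S1_zero, mul_comm]
  constructor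
  · rintro ⟨h, h'⟩
    exact ⟨h, by rw [← h', h0]⟩
  · rintro ⟨h, h'⟩
    exact ⟨h, ext1 (by rw [h0, h'])⟩

theorem uu_sub (u v : U m k i) (p : ℕ) : (p • uu m k i u - uu m k i v : Fin 1 →₀ ℕ) = S1 (p * u.1 - v.1) := by
  apply ext1
  rw [Finsupp.tsub_apply, Finsupp.smul_apply, smul_eq_mul]
  unfold uu
  rw [S1_zero, S1_zero, S1_zero]

theorem moment (hi : 0 < i) (u : ℕ) : i * t0 k i u + k * u % i = k * u := by
  unfold t0
  exact Nat.div_add_mod _ _

theorem e0_mem (hi : 0 < i) (u : U m k i) : e0 ℓ hi u ∈ EE (ex m) (i * ℓ) ((k * ℓ + 1) • uu m k i u - uu m k i u) := by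
  rw [mem_EE1, uu_sub, S1_zero, nat_sum ℓ hi u (fun _ x => x) (fun _ => rfl), nat_sum ℓ hi u (fun t x => (t : ℕ) * x) (fun _ => mul_zero _)]
  have e1 : ((ia hi u : Fin (m + 1)) : ℕ) = t0 k i u.1 := rfl
  have e2 : ((ib hi u : Fin (m + 1)) : ℕ) = t0 k i u.1 + 1 := rfl
  rw [e1, e2]
  have h1 := moment (k := k) hi u.1
  have h2 : k * u.1 % i < i := Nat.mod_lt _ hi
  set r := k * u.1 % i with hr
  obtain ⟨s, hs⟩ : ∃ s, i = r + s := ⟨i - r, by omega⟩
  have h3 : i - r = s := by omega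
  rw [h3]
  have e4 : (k * ℓ + 1) * u.1 - u.1 = ℓ * (k * u.1) := by
    rw [add_mul, one_mul, Nat.add_sub_cancel]
    ring
  rw [e4, ← h1]
  constructor
  · rw [← mul_add, add_comm s r, ← hs, mul_comm]
  · have : i * t0 k i u.1 = (r + s) * t0 k i u.1 := by rw [← hs]
    rw [this]
    ring

theorem diag (hi : 0 < i) (u : U m k i) (e : Fin (m + 1) → ℕ)
    (he : e ∈ EE (ex m) (i * ℓ) ((k * ℓ + 1) • uu m k i u - uu m k i u)) (hne : e ≠ e0 ℓ hi u) :
    0 < ∑ t, (e t : ℝ) * (Lf (kk m k i u.1) (gg k i u.1) (ex m t) - w m t) := by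
  by_contra hcon
  push Not at hcon
  apply hne
  have h1 : ∀ t ∈ (univ : Finset (Fin (m + 1))), 0 ≤ (e t : ℝ) * (Lf (kk m k i u.1) (gg k i u.1) (ex m t) - w m t) :=
    fun t _ => mul_nonneg (Nat.cast_nonneg _) (DD_int m k i u.1 t).1
  have hz := (Finset.sum_eq_zero_iff_of_nonneg h1).1 (le_antisymm hcon (Finset.sum_nonneg h1))
  have ht0 : ∀ t, t ≠ ia hi u → t ≠ ib hi u → e t = 0 := by
    intro t g1 g2
    rcases mul_eq_zero.1 (hz t (Finset.mem_univ t)) with h3 | h3
    · exact_mod_cast h3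
    · rcases (DD_int m k i u.1 t).2 h3 with h4 | h4
      · exact absurd (Fin.ext h4) g1
      · exact absurd (Fin.ext h4) g2
  rw [mem_EE1, uu_sub, S1_zero, sum_two hi u e ht0,
    sum_two hi u (fun t => (t : ℕ) * e t) (fun t g1 g2 => by rw [ht0 t g1 g2, mul_zero])] at he
  have e1 : ((ia hi u : Fin (m + 1)) : ℕ) = t0 k i u.1 := rfl
  have e2 : ((ib hi u : Fin (m + 1)) : ℕ) = t0 k i u.1 + 1 := rfl
  rw [e1, e2] at he
  have h1 := moment (k := k) hi u.1
  have h2 : k * u.1 % i < i := Nat.mod_lt _ hi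
  have e4 : (k * ℓ + 1) * u.1 - u.1 = ℓ * (k * u.1) := by
    rw [add_mul, one_mul, Nat.add_sub_cancel]
    ring
  rw [e4, ← h1] at he
  set r := k * u.1 % i with hr
  set x := e (ia hi u) with hx
  set y := e (ib hi u) with hy
  obtain ⟨g1, g2⟩ := he
  have h5 : y = ℓ * r := by
    have h6 : t0 k i u.1 * x + (t0 k i u.1 + 1) * y = t0 k i u.1 * (x + y) + y := by ring
    rw [h6, g1] at g2
    have h7 : ℓ * (i * t0 k i u.1 + r) = t0 k i u.1 * (i * ℓ) + ℓ * r := by ring
    rw [h7] at g2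
    omega
  have h6 : x = ℓ * (i - r) := by
    rw [Nat.mul_sub, ← h5, mul_comm ℓ i]
    omega
  funext t
  unfold e0
  split_ifs with g3 g4
  · rw [g3]; exact h6
  · rw [g4]; exact h5
  · exact ht0 t g3 g4

/-- the exponents of the leading monomial -/
noncomputable def MM (hi : 0 < i) (u : U m k i) : Fin (m + 1) →₀ ℕ := Finsupp.equivFunOnFinite.symm (e0 ℓ hi u)

theorem term_e0 {K : Type} [Field K] (hi : 0 < i) (u : U m k i) :
    Fn.term (MvPolynomial.X (R := K)) (e0 ℓ hi u) = MvPolynomial.monomial (MM ℓ hi u) (Nat.multinomial univ (e0 ℓ hi u) : K) := by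
  unfold Fn.term
  have h3 : ∏ t, (MvPolynomial.X t : MvPolynomial (Fin (m + 1)) K) ^ e0 ℓ hi u t = MvPolynomial.monomial (MM ℓ hi u) 1 := by
    rw [MvPolynomial.monomial_eq, map_one, one_mul, Finsupp.prod_fintype _ _ (fun _ => pow_zero _)]
    rfl
  rw [h3, ← map_natCast (MvPolynomial.C (σ := Fin (m + 1)) (R := K)), MvPolynomial.C_mul_monomial, mul_one]

theorem om_LE {K : Type} [Field K] (t : Fin (m + 1)) : LE (w m) (MvPolynomial.X (R := K) t) (w m t) := by
  rw [MvPolynomial.X]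
  refine LE.monomial ?_ _
  unfold Wt
  rw [Finset.sum_eq_single t]
  · rw [Finsupp.single_eq_same, Nat.cast_one, mul_one]
  · intro j _ hj
    rw [Finsupp.single_eq_of_ne hj, Nat.cast_zero, mul_zero]
  · intro h
    exact absurd (Finset.mem_univ _) h

theorem Wt_MM (hi : 0 < i) (u : U m k i) : Wt (w m) (MM ℓ hi u) =
    Fn.TT (k * ℓ + 1) (i * ℓ) (uu m k i) (fun u : U m k i => kk m k i u.1) (fun u => gg k i u.1) (fun _ => 0) u u := by
  have h1 := wt_id (ex m) (i * ℓ) (w m) (kk m k i u.1) (gg k i u.1) _ _ (e0_mem ℓ hi u)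
  have h2 : ∑ t, (e0 ℓ hi u t : ℝ) * (Lf (kk m k i u.1) (gg k i u.1) (ex m t) - w m t) = 0 := by
    refine Finset.sum_eq_zero fun t _ => ?_
    rw [DD]
    unfold e0
    split_ifs with g1 g2
    · have : ((t : ℕ) : ℝ) = t0 k i u.1 := by rw [g1]; rfl
      rw [this]
      ring
    · have : ((t : ℕ) : ℝ) = t0 k i u.1 + 1 := by
        rw [g2]
        have : ((ib hi u : Fin (m + 1)) : ℕ) = t0 k i u.1 + 1 := rfl
        rw [this]
        push_cast
        ring
      rw [this]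
      ring
    · rw [Nat.cast_zero, zero_mul]
  have h3 : ∑ t, (e0 ℓ hi u t : ℝ) * w m t = Wt (w m) (MM ℓ hi u) := by
    unfold Wt MM
    exact Finset.sum_congr rfl fun t _ => mul_comm _ _
  rw [← h3, h1, h2]
  unfold Fn.TT
  congr 2
  exact Finset.sum_congr rfl fun s _ => by rw [sub_cast (le_smul (Nat.succ_pos _) _)]

/-- the key inequality -/
theorem key (hi : 0 < i) (hik : i < k) (u v : ℕ) (huv : v ≠ u) :
    ((k * u : ℤ) - i * t0 k i u) * ((k * u : ℤ) - i * t0 k i u - i) < ((k * u : ℤ) - i * t0 k i v) * ((k * u : ℤ) - i * t0 k i v - i) := by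
  have h1 : (i : ℤ) * t0 k i u + (k * u % i : ℕ) = k * u := by exact_mod_cast moment (k := k) hi u
  have h2 : (i : ℤ) * t0 k i v + (k * v % i : ℕ) = k * v := by exact_mod_cast moment (k := k) hi v
  have h3 : ((k * u % i : ℕ) : ℤ) < i := by exact_mod_cast Nat.mod_lt _ hi
  have h4 : ((k * v % i : ℕ) : ℤ) < i := by exact_mod_cast Nat.mod_lt _ hi
  have h5 : (0 : ℤ) ≤ ((k * u % i : ℕ) : ℤ) := Int.natCast_nonneg _
  have h6 : (0 : ℤ) ≤ ((k * v % i : ℕ) : ℤ) := Int.natCast_nonneg _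
  set r : ℤ := ((k * u % i : ℕ) : ℤ) with hr
  set r' : ℤ := ((k * v % i : ℕ) : ℤ) with hr'
  have hi' : (0 : ℤ) < i := by exact_mod_cast hi
  have hik' : (i : ℤ) < k := by exact_mod_cast hik
  have e1 : (k * u : ℤ) - i * t0 k i u = r := by linarith
  have e2 : (k * u : ℤ) - i * t0 k i v = k * ((u : ℤ) - v) + r' := by
    have : (i : ℤ) * t0 k i v = k * v - r' := by linarith
    rw [this]
    ring
  rw [e1, e2]
  rcases Nat.lt_or_gt_of_ne huv with h | h
  · -- v < u
    have h7 : (1 : ℤ) ≤ (u : ℤ) - v := by omega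
    have h8 : (k : ℤ) ≤ k * ((u : ℤ) - v) := by nlinarith
    have h9 : (i : ℤ) < k * ((u : ℤ) - v) + r' := by linarith
    have h10 : 0 < (k * ((u : ℤ) - v) + r') * (k * ((u : ℤ) - v) + r' - i) := by
      apply mul_pos
      · linarith
      · linarith
    have h11 : r * (r - i) ≤ 0 := by nlinarith
    linarith
  · have h7 : (u : ℤ) - v ≤ -1 := by omega
    have h8 : k * ((u : ℤ) - v) ≤ -k := by nlinarith
    have h9 : k * ((u : ℤ) - v) + r' < 0 := by linarith
    have h10 : 0 < (k * ((u : ℤ) - v) + r') * (k * ((u : ℤ) - v) + r' - i) := by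
      apply mul_pos_of_neg_of_neg
      · exact h9
      · linarith
    have h11 : r * (r - i) ≤ 0 := by nlinarith
    linarith

theorem perm (hi : 0 < i) (hik : i < k) (σ : Equiv.Perm (U m k i)) (hσ : σ ≠ 1) :
    ∑ j, Fn.TT (k * ℓ + 1) (i * ℓ) (uu m k i) (fun u : U m k i => kk m k i u.1) (fun u => gg k i u.1) (fun _ => 0) (σ j) j <
      ∑ j, Fn.TT (k * ℓ + 1) (i * ℓ) (uu m k i) (fun u : U m k i => kk m k i u.1) (fun u => gg k i u.1) (fun _ => 0) j j := by
  have hd := TT_diff (k * ℓ + 1) (i * ℓ) (uu m k i) (fun u : U m k i => kk m k i u.1) (fun u => gg k i u.1) (fun _ => 0) σ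
  have hi0 : (0 : ℝ) < i := by exact_mod_cast hi
  have hk0 : (0 : ℝ) < k := by exact_mod_cast hi.trans hik
  have h1 : ∀ j : U m k i, Lf (kk m k i (σ j).1) (gg k i (σ j).1) (uu m k i j) - Lf (kk m k i j.1) (gg k i j.1) (uu m k i j) =
      ((((k * j.1 : ℤ) - i * t0 k i (σ j).1) * ((k * j.1 : ℤ) - i * t0 k i (σ j).1 - i) -
        ((k * j.1 : ℤ) - i * t0 k i j.1) * ((k * j.1 : ℤ) - i * t0 k i j.1 - i) : ℤ) : ℝ) / (i * k) +
      (1 - (i : ℝ) / k) * (((t0 k i (σ j).1 : ℝ) * (t0 k i (σ j).1 + 1)) - ((t0 k i j.1 : ℝ) * (t0 k i j.1 + 1))) := by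
    intro j
    unfold Lf gg kk uu
    rw [Fin.sum_univ_one, Fin.sum_univ_one, S1_zero]
    push_cast
    field_simp
    ring
  have h2 : ∑ j : U m k i, (((t0 k i (σ j).1 : ℝ) * (t0 k i (σ j).1 + 1)) - ((t0 k i j.1 : ℝ) * (t0 k i j.1 + 1))) = 0 := by
    rw [Finset.sum_sub_distrib, Equiv.sum_comp σ fun j : U m k i => (t0 k i j.1 : ℝ) * (t0 k i j.1 + 1), sub_self]
  simp only [h1] at hd
  rw [Finset.sum_add_distrib, ← Finset.mul_sum, h2, mul_zero, add_zero] at hd
  have hne : ∃ j, σ j ≠ j := by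
    by_contra hcon
    push Not at hcon
    exact hσ (Equiv.ext hcon)
  obtain ⟨j, hj⟩ := hne
  have hpos : ∀ j : U m k i, σ j ≠ j → (0 : ℝ) < ((((k * j.1 : ℤ) - i * t0 k i (σ j).1) * ((k * j.1 : ℤ) - i * t0 k i (σ j).1 - i) -
        ((k * j.1 : ℤ) - i * t0 k i j.1) * ((k * j.1 : ℤ) - i * t0 k i j.1 - i) : ℤ) : ℝ) / (i * k) := by
    intro j hj
    have h3 := key hi hik j.1 (σ j).1 (fun h => hj (Subtype.ext h))
    have h4 : (0 : ℤ) < ((k * j.1 : ℤ) - i * t0 k i (σ j).1) * ((k * j.1 : ℤ) - i * t0 k i (σ j).1 - i) -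
        ((k * j.1 : ℤ) - i * t0 k i j.1) * ((k * j.1 : ℤ) - i * t0 k i j.1 - i) := by linarith
    apply div_pos _ (by positivity)
    exact_mod_cast h4
  have h3 : 0 < ∑ j : U m k i, ((((k * j.1 : ℤ) - i * t0 k i (σ j).1) * ((k * j.1 : ℤ) - i * t0 k i (σ j).1 - i) -
        ((k * j.1 : ℤ) - i * t0 k i j.1) * ((k * j.1 : ℤ) - i * t0 k i j.1 - i) : ℤ) : ℝ) / (i * k) := by
    refine Finset.sum_pos' (fun j _ => ?_) ⟨j, Finset.mem_univ j, hpos j hj⟩
    by_cases h : σ j = j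
    · rw [h, sub_self, Int.cast_zero, zero_div]
    · exact (hpos j h).le
  linarith

theorem t0_mono (hi : 0 < i) (hik : i < k) {u v : ℕ} (h : u < v) : t0 k i u + 1 ≤ t0 k i v := by
  unfold t0
  have h1 : k * u + i ≤ k * v := by
    have : k * (u + 1) ≤ k * v := Nat.mul_le_mul_left k h
    rw [mul_add, mul_one] at this
    omega
  have h2 : (k * u + i) / i ≤ k * v / i := Nat.div_le_div_right h1
  rwa [Nat.add_div_right _ hi] at h2

theorem MM_sum (hi : 0 < i) (hik : i < k) (t : Fin (m + 1)) : (∑ u : U m k i, MM ℓ hi u : Fin (m + 1) →₀ ℕ) t ≤ i * ℓ := by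
  classical
  rw [Finsupp.finsetSum_apply]
  set f : ℕ → ℕ := fun u => if (t : ℕ) = t0 k i u then ℓ * (i - k * u % i) else if (t : ℕ) = t0 k i u + 1 then ℓ * (k * u % i) else 0 with hf
  have h1 : ∀ u : U m k i, MM ℓ hi u t = f u.1 := by
    intro u
    show e0 ℓ hi u t = _
    unfold e0
    rw [hf]
    simp only [Fin.ext_iff]
    rfl
  rw [Finset.sum_congr rfl fun u _ => h1 u, Finset.sum_coe_sort (U m k i) f]
  have hm : ∀ u, k * u % i < i := fun u => Nat.mod_lt _ hi
  by_cases ha : ∃ a ∈ U m k i, (t : ℕ) = t0 k i a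
  · obtain ⟨a, ha, hta⟩ := ha
    have hsub : ∑ u ∈ U m k i, f u ≤ ∑ u ∈ ({a, a - 1} : Finset ℕ), f u := by
      refine Finset.sum_le_sum_of_ne_zero fun u hu h => ?_
      rw [Finset.mem_insert, Finset.mem_singleton]
      rw [hf] at h
      simp only at h
      have hu1 := (Finset.mem_Icc.1 (Finset.mem_filter.1 hu).1).1
      rcases lt_trichotomy u a with h2 | h2 | h2
      · have h3 := t0_mono hi hik h2
        split_ifs at h with g1 g2
        · omega
        · by_contra hcon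
          push Not at hcon
          have h4 : u + 1 < a := by omega
          have h5 := t0_mono hi hik (Nat.lt_succ_self u)
          have h6 := t0_mono hi hik h4
          simp only [Nat.succ_eq_add_one] at h5
          omega
        · exact absurd rfl h
      · left; exact h2
      · have h3 := t0_mono hi hik h2
        split_ifs at h with g1 g2
        · omega
        · omega
        · exact absurd rfl h
    refine hsub.trans ?_
    have fa : f a = ℓ * (i - k * a % i) := by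
      rw [hf]
      simp only
      rw [if_pos hta]
    have ha1 := (Finset.mem_Icc.1 (Finset.mem_filter.1 ha).1).1
    have hne : a ≠ a - 1 := by omega
    rw [Finset.sum_pair hne, fa]
    have fb : f (a - 1) ≤ ℓ * (k * a % i) := by
      rw [hf]
      simp only
      have h3 := t0_mono (k := k) hi hik (show a - 1 < a by omega)
      split_ifs with g1 g2
      · omega
      · apply Nat.mul_le_mul_left
        have m1 := moment (k := k) hi a
        have m2 := moment (k := k) hi (a - 1)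
        have h5 : t0 k i a = t0 k i (a - 1) + 1 := by omega
        rw [h5, mul_add, mul_one] at m1
        have h6 : k * (a - 1) + k = k * a := by
          rw [← mul_add_one]
          congr 1
          omega
        omega
      · exact Nat.zero_le _
    have h4 : ℓ * (i - k * a % i) + ℓ * (k * a % i) = i * ℓ := by
      rw [← mul_add, Nat.sub_add_cancel (hm a).le, mul_comm]
    omega
  · push Not at ha
    by_cases hb : ∃ b ∈ U m k i, (t : ℕ) = t0 k i b + 1
    · obtain ⟨b, hb, htb⟩ := hb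
      have hsub : ∑ u ∈ U m k i, f u ≤ ∑ u ∈ ({b} : Finset ℕ), f u := by
        refine Finset.sum_le_sum_of_ne_zero fun u hu h => ?_
        rw [Finset.mem_singleton]
        rw [hf] at h
        simp only at h
        rw [if_neg (ha u hu)] at h
        split_ifs at h with g2
        · rcases lt_trichotomy u b with h2 | h2 | h2
          · have h3 := t0_mono hi hik h2
            omega
          · exact h2
          · have h3 := t0_mono hi hik h2
            omega
        · exact absurd rfl h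
      refine hsub.trans ?_
      rw [Finset.sum_singleton, hf]
      simp only
      have h5 := hm b
      split_ifs
      · rw [mul_comm i ℓ]
        exact Nat.mul_le_mul_left _ (Nat.sub_le _ _)
      · rw [mul_comm i ℓ]
        exact Nat.mul_le_mul_left _ h5.le
    · push Not at hb
      refine (Finset.sum_eq_zero fun u hu => ?_).le.trans (Nat.zero_le _)
      rw [hf]
      simp only
      rw [if_neg (ha u hu), if_neg (hb u hu)]

/-- the leading term of a block -/
theorem lead {K : Type} [Field K] (hi : 0 < i) (hik : i < k) :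
    ∃ R, (HWm (k * ℓ + 1) (i * ℓ) (ex m) (uu m k i) (MvPolynomial.X (R := K))).det =
      MvPolynomial.monomial (∑ u : U m k i, MM ℓ hi u) (∏ u : U m k i, (Nat.multinomial univ (e0 ℓ hi u) : K)) + R ∧
      LT (w m) R (Wt (w m) (∑ u : U m k i, MM ℓ hi u : Fin (m + 1) →₀ ℕ)) :=
  lead_det (k * ℓ + 1) (i * ℓ) (Nat.succ_pos _) (ex m) (uu m k i) (MvPolynomial.X) (w m) (w m) om_LE
    (fun u : U m k i => kk m k i u.1) (fun u => gg k i u.1) (fun _ => 0)
    (fun u v _ e _ => Finset.sum_nonneg fun x _ => mul_nonneg (Nat.cast_nonneg _) (DD_int m k i u.1 x).1)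
    (e0 ℓ hi) (e0_mem ℓ hi) (fun u e he hne => diag ℓ hi u e he hne) (MM ℓ hi) _ (fun u => term_e0 ℓ hi u) (fun u => Wt_MM ℓ hi u)
    (fun σ hσ => perm ℓ hi hik σ hσ)

end Run7.h328.ORD.Sup
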