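import Pool.Agent.Run7.h328.ORD.Sup

/-! # Several Hasse-Witt blocks of superelliptic curves at the same time -/

set_option autoImplicit false

namespace Run7.h328.ORD.Sup

open Finset
open Run7.h328.ORD Run7.h328.ORD.Fn

variable {m k : ℕ} (ℓ : ℕ)

theorem prod_monomial {K : Type} [Field K] {κ : Type} (I : Finset κ) (M : κ → Fin (m + 1) →₀ ℕ) (c : κ → K) :
    ∏ i ∈ I, MvPolynomial.monomial (M i) (c i) = (MvPolynomial.monomial (∑ i ∈ I, M i) (∏ i ∈ I, c i) : MvPolynomial (Fin (m + 1)) K) := by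
  classical
  induction I using Finset.induction_on with
  | empty => simp
  | insert a s ha ih =>
    rw [Finset.prod_insert ha, Finset.sum_insert ha, Finset.prod_insert ha, ih, MvPolynomial.monomial_mul]

theorem Wt_sumf' {κ : Type} (w : Fin (m + 1) → ℝ) (I : Finset κ) (M : κ → Fin (m + 1) →₀ ℕ) :
    Wt w (∑ i ∈ I, M i : Fin (m + 1) →₀ ℕ) = ∑ i ∈ I, Wt w (M i) := by
  classical
  induction I using Finset.induction_on with
  | empty => simp [Wt]
  | insert a s ha ih => rw [Finset.sum_insert ha, Finset.sum_insert ha, Wt_addf, ih]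

/-- **Many polynomials with invertible blocks.** -/
theorem count_sup {p : ℕ} [hp : Fact p.Prime] (hpk : p = k * ℓ + 1) (I : Finset ℕ) (hI : ∀ i ∈ I, 0 < i ∧ i < k)
    (hs : ∑ i ∈ I, i < k) :
    (1 - (∑ i ∈ I, i : ℕ) / (k : ℝ)) ^ (m + 1) * (p : ℝ) ^ (m + 1) ≤
      Nat.card {r : Fin (m + 1) → ZMod p // ∀ i ∈ I, (HWm p (i * ℓ) (ex m) (uu m k i) r).det ≠ 0} := by
  classical
  subst hpk
  have hk : 0 < k := by omega
  have h : ∀ i ∈ I, ∃ (M : Fin (m + 1) →₀ ℕ) (c : ZMod (k * ℓ + 1)) (R : MvPolynomial (Fin (m + 1)) (ZMod (k * ℓ + 1))),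
      (HWm (k * ℓ + 1) (i * ℓ) (ex m) (uu m k i) (MvPolynomial.X (R := ZMod (k * ℓ + 1)))).det = MvPolynomial.monomial M c + R ∧
      LT (w m) R (Wt (w m) M) ∧ c ≠ 0 ∧ ∀ t, M t ≤ i * ℓ := by
    intro i hi
    obtain ⟨h0, h1⟩ := hI i hi
    obtain ⟨R, hR1, hR2⟩ := lead (m := m) (K := ZMod (k * ℓ + 1)) ℓ h0 h1
    refine ⟨_, _, R, hR1, hR2, ?_, fun t => MM_sum ℓ h0 h1 t⟩
    refine Finset.prod_ne_zero_iff.2 fun u _ => multinomial_ne _ ?_
    rw [((mem_EE _ _).1 (e0_mem ℓ h0 u)).1]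
    have : i * ℓ ≤ k * ℓ := Nat.mul_le_mul_right _ h1.le
    omega
  choose! M c R h1 h2 h3 h4 using h
  set F : MvPolynomial (Fin (m + 1)) (ZMod (k * ℓ + 1)) := ∏ i ∈ I, (HWm (k * ℓ + 1) (i * ℓ) (ex m) (uu m k i)
    (MvPolynomial.X (R := ZMod (k * ℓ + 1)))).det with hF
  have hF1 : F = ∏ i ∈ I, (MvPolynomial.monomial (M i) (c i) + R i) := Finset.prod_congr rfl fun i hi => h1 i hi
  have hL := prod_lead (w := w m) I (fun i => MvPolynomial.monomial (M i) (c i)) R (fun i => Wt (w m) (M i))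
    (fun i _ => LE.monomial le_rfl _) (fun i hi => h2 i hi)
  rw [← hF1, prod_monomial, ← Wt_sumf'] at hL
  set Q : MvPolynomial (Fin (m + 1)) (ZMod (k * ℓ + 1)) := F - MvPolynomial.monomial (∑ i ∈ I, M i) (∏ i ∈ I, c i) with hQ
  have hFQ : F = MvPolynomial.monomial (∑ i ∈ I, M i) (∏ i ∈ I, c i) + Q := by rw [hQ]; ring
  have hprod : ∏ i ∈ I, c i ≠ 0 := Finset.prod_ne_zero_iff.2 fun i hi => h3 i hi
  have hcM : F.coeff (∑ i ∈ I, M i) ≠ 0 := by
    rw [hFQ, MvPolynomial.coeff_add, MvPolynomial.coeff_monomial, if_pos rfl]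
    have : Q.coeff (∑ i ∈ I, M i) = 0 := by
      by_contra h
      exact lt_irrefl _ (hL _ (MvPolynomial.mem_support_iff.2 h))
    rw [this, add_zero]
    exact hprod
  have hlt : ∀ b ∈ F.support, b ≠ ∑ i ∈ I, M i → Wt (w m) b < Wt (w m) (∑ i ∈ I, M i : Fin (m + 1) →₀ ℕ) := by
    intro b hb hne
    apply hL
    rw [MvPolynomial.mem_support_iff] at hb ⊢
    rw [hFQ, MvPolynomial.coeff_add, MvPolynomial.coeff_monomial, if_neg (fun h => hne h.symm), zero_add] at hb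
    exact hb
  have hMs : ∀ t, (∑ i ∈ I, M i : Fin (m + 1) →₀ ℕ) t ≤ (∑ i ∈ I, i) * ℓ := by
    intro t
    rw [Finsupp.finsetSum_apply, Finset.sum_mul]
    exact Finset.sum_le_sum fun i hi => h4 i hi t
  have hsl : (∑ i ∈ I, i) * ℓ ≤ k * ℓ := Nat.mul_le_mul_right _ hs.le
  have hfoot := foot' F (w m) (w_pos m) (∑ i ∈ I, M i) (fun t => by rw [ZMod.card]; have := hMs t; omega) hcM hlt
  rw [ZMod.card] at hfoot
  have e1 : Nat.card {x : Fin (m + 1) → ZMod (k * ℓ + 1) // MvPolynomial.eval x F ≠ 0} =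
      Nat.card {r : Fin (m + 1) → ZMod (k * ℓ + 1) // ∀ i ∈ I, (HWm (k * ℓ + 1) (i * ℓ) (ex m) (uu m k i) r).det ≠ 0} := by
    refine Nat.card_congr (Equiv.subtypeEquivRight fun r => ?_)
    rw [hF, map_prod, Finset.prod_ne_zero_iff]
    have e2 : ∀ i, MvPolynomial.eval r (HWm (k * ℓ + 1) (i * ℓ) (ex m) (uu m k i) (MvPolynomial.X (R := ZMod (k * ℓ + 1)))).det =
        (HWm (k * ℓ + 1) (i * ℓ) (ex m) (uu m k i) r).det := by
      intro i
      rw [RingHom.map_det, RingHom.mapMatrix_apply, ← HWm_map (MvPolynomial.eval r)]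
      congr 2
      funext a
      exact MvPolynomial.eval_X _
    simp only [e2]
  rw [← e1]
  have hfoot' : ((∏ t : Fin (m + 1), (k * ℓ + 1 - (∑ i ∈ I, M i : Fin (m + 1) →₀ ℕ) t) : ℕ) : ℝ) ≤
      Nat.card {x : Fin (m + 1) → ZMod (k * ℓ + 1) // MvPolynomial.eval x F ≠ 0} := by exact_mod_cast hfoot
  refine le_trans ?_ hfoot'
  have e3 : ((k * ℓ + 1 : ℕ) : ℝ) ^ (m + 1) = ∏ _t : Fin (m + 1), ((k * ℓ + 1 : ℕ) : ℝ) := by
    rw [Finset.prod_const, Finset.card_univ, Fintype.card_fin]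
  have e4 : (1 - (∑ i ∈ I, i : ℕ) / (k : ℝ)) ^ (m + 1) = ∏ _t : Fin (m + 1), (1 - (∑ i ∈ I, i : ℕ) / (k : ℝ)) := by
    rw [Finset.prod_const, Finset.card_univ, Fintype.card_fin]
  have hk' : (0 : ℝ) < k := by exact_mod_cast hk
  have hsk : ((∑ i ∈ I, i : ℕ) : ℝ) / k ≤ 1 := by
    rw [div_le_one hk']
    exact_mod_cast hs.le
  rw [e3, e4, ← Finset.prod_mul_distrib, Nat.cast_prod]
  refine Finset.prod_le_prod (fun t _ => mul_nonneg (by linarith) (by positivity)) fun t _ => ?_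
  have h5 := hMs t
  rw [Nat.cast_sub (by omega)]
  have h6 : (((∑ i ∈ I, M i : Fin (m + 1) →₀ ℕ) t : ℕ) : ℝ) ≤ (∑ i ∈ I, i : ℕ) * (ℓ : ℝ) := by exact_mod_cast h5
  have h7 : (1 - (∑ i ∈ I, i : ℕ) / (k : ℝ)) * ((k * ℓ + 1 : ℕ) : ℝ) = (k * ℓ + 1 : ℕ) - (∑ i ∈ I, i : ℕ) * (ℓ : ℝ) - (∑ i ∈ I, i : ℕ) / (k : ℝ) := by
    push_cast
    field_simp
    ring
  have h8 : (0 : ℝ) ≤ (∑ i ∈ I, i : ℕ) / (k : ℝ) := by positivity
  rw [h7]
  linarith

/-- coefficients -/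
theorem coeff_conv {K : Type} [Field K] (P : MvPolynomial (Fin 1) K) (t : ℕ) :
    MvPolynomial.coeff (S1 t) P = (MvPolynomial.aeval (fun _ => (Polynomial.X : Polynomial K)) P).coeff t := by
  classical
  induction P using MvPolynomial.induction_on' with
  | monomial a x =>
    rw [MvPolynomial.aeval_monomial, MvPolynomial.coeff_monomial, Finsupp.prod_fintype _ _ (fun _ => pow_zero _), Fin.prod_univ_one,
      Polynomial.algebraMap_eq, Polynomial.coeff_C_mul_X_pow]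
    by_cases h : a = S1 t
    · rw [if_pos h, h, S1_zero, if_pos rfl]
    · rw [if_neg h, if_neg]
      intro h'
      exact h (ext1 (by rw [S1_zero, h']))
  | add P Q hP hQ => rw [MvPolynomial.coeff_add, map_add, Polynomial.coeff_add, hP, hQ]

theorem aeval_PP {K : Type} [Field K] (c : Fin (m + 1) → K) :
    MvPolynomial.aeval (fun _ => (Polynomial.X : Polynomial K)) (PP (ex m) c) = ∑ j, Polynomial.C (c j) * Polynomial.X ^ (j : ℕ) := by
  unfold PP
  rw [map_sum]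
  refine Finset.sum_congr rfl fun j _ => ?_
  rw [MvPolynomial.aeval_monomial, Finsupp.prod_fintype _ _ (fun _ => pow_zero _), Fin.prod_univ_one, Polynomial.algebraMap_eq]
  unfold ex
  rw [S1_zero]

theorem HWm_conv {K : Type} [Field K] (p n i : ℕ) (c : Fin (m + 1) → K) :
    HWm p n (ex m) (uu m k i) c = Matrix.of fun u v => if v.1 ≤ p * u.1 then
      ((∑ j, Polynomial.C (c j) * Polynomial.X ^ (j : ℕ)) ^ n).coeff (p * u.1 - v.1) else 0 := by
  classical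
  ext u v
  unfold HWm
  rw [Matrix.of_apply, Matrix.of_apply]
  have h : uu m k i v ≤ p • uu m k i u ↔ v.1 ≤ p * u.1 := by
    constructor
    · intro h
      have h0 := h 0
      rw [Finsupp.smul_apply, smul_eq_mul] at h0
      unfold uu at h0
      rwa [S1_zero, S1_zero] at h0
    · intro h s
      rw [Finsupp.smul_apply, smul_eq_mul, Subsingleton.elim s 0]
      unfold uu
      rwa [S1_zero, S1_zero]
  rw [uu_sub, coeff_conv, map_pow, aeval_PP]
  by_cases hc : v.1 ≤ p * u.1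
  · rw [if_pos hc, if_pos (h.2 hc)]
  · rw [if_neg hc, if_neg (fun h' => hc (h.1 h'))]

end Run7.h328.ORD.Sup
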