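import Pool.Agent.Run7.h328.ORD.Fun

/-! # The Hasse-Witt determinants of trigonal curves -/

set_option autoImplicit false

namespace Run7.h328.ORD.Trig

open Finset
open Run7.h328.ORD Run7.h328.ORD.Fn

/-- exponents in two variables -/
noncomputable def E2 (i j : ℕ) : Fin 2 →₀ ℕ := Finsupp.single 0 i + Finsupp.single 1 j

@[simp] theorem E2_zero (i j : ℕ) : E2 i j 0 = i := by
  unfold E2
  simp

@[simp] theorem E2_one (i j : ℕ) : E2 i j 1 = j := by
  unfold E2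
  simp

theorem ext2 {a b : Fin 2 →₀ ℕ} (h0 : a 0 = b 0) (h1 : a 1 = b 1) : a = b := by
  ext s
  fin_cases s
  · exact h0
  · exact h1

variable (m : ℕ)

/-- the interior points of the triangle -/
def U : Finset (ℕ × ℕ) := ((Icc 1 2) ×ˢ (Icc 1 m)).filter fun u => m * u.1 + 3 * u.2 < 3 * m

theorem mem_U {u : ℕ × ℕ} : u ∈ U m ↔ (u.1 = 1 ∨ u.1 = 2) ∧ 1 ≤ u.2 ∧ m * u.1 + 3 * u.2 < 3 * m := by
  unfold U
  rw [Finset.mem_filter, Finset.mem_product, Finset.mem_Icc, Finset.mem_Icc]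
  constructor
  · rintro ⟨⟨h1, h2⟩, h3⟩
    exact ⟨by omega, h2.1, h3⟩
  · rintro ⟨h1, h2, h3⟩
    refine ⟨⟨by omega, h2, ?_⟩, h3⟩
    rcases h1 with h | h <;> rw [h] at h3 <;> omega

/-- the atoms -/
abbrev At := Option (Fin 2 × Fin (m + 1)) ⊕ Fin (m + 1)

/-- the exponents of the atoms -/
noncomputable def ex : At m → Fin 2 →₀ ℕ
  | Sum.inl none => E2 3 0
  | Sum.inl (some (i, j)) => E2 (i + 1) j
  | Sum.inr t => E2 0 t

/-- the coefficients -/
def co {R : Type} [One R] (a : Fin 2 × Fin (m + 1) → R) (c : Fin (m + 1) → R) : At m → R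
  | Sum.inl none => 1
  | Sum.inl (some s) => a s
  | Sum.inr t => c t

/-- the points of the matrix -/
noncomputable def uu (u : U m) : Fin 2 →₀ ℕ := E2 u.1.1 u.1.2

/-- twice the centre -/
def C2 (u : ℕ × ℕ) : ℕ := if u.1 = 2 then 6 * u.2 else 3 * u.2

/-- twice the half width -/
def h2 (u : ℕ × ℕ) : ℕ := if 2 ∣ C2 u then 2 else 1

theorem C2_spec {u : ℕ × ℕ} (hu : u.1 = 1 ∨ u.1 = 2) : (3 - u.1) * C2 u = 6 * u.2 := by
  unfold C2
  rcases hu with h | h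
  · rw [h]
    simp
    omega
  · rw [h]
    simp

theorem C2_dvd (u : ℕ × ℕ) : 3 ∣ C2 u := by
  unfold C2
  split_ifs <;> omega

theorem h2_cases (u : ℕ × ℕ) : (h2 u = 2 ∧ C2 u % 2 = 0) ∨ (h2 u = 1 ∧ C2 u % 2 = 1) := by
  unfold h2
  split_ifs with h
  · left; exact ⟨rfl, by omega⟩
  · right; exact ⟨rfl, by omega⟩

theorem C2_lt {u : ℕ × ℕ} (hu : u ∈ U m) : C2 u < 2 * m := by
  rw [mem_U] at hu
  unfold C2
  rcases hu.1 with h | h
  · rw [h] at hu ⊢
    simp only [OfNat.one_ne_ofNat, if_false]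
    omega
  · rw [h] at hu ⊢
    simp only [if_true]
    omega

theorem C2_ge {u : ℕ × ℕ} (hu : u ∈ U m) : 3 ≤ C2 u := by
  rw [mem_U] at hu
  unfold C2
  split_ifs <;> omega

/-- the lower exponent -/
def tm (u : ℕ × ℕ) : ℕ := (C2 u - h2 u) / 2
/-- the upper exponent -/
def tp (u : ℕ × ℕ) : ℕ := (C2 u + h2 u) / 2

theorem tm_spec {u : ℕ × ℕ} (hu : u ∈ U m) : 2 * tm u + h2 u = C2 u := by
  have h1 := C2_ge m hu
  have h3 := h2_cases u
  unfold tm
  omega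

theorem tp_spec {u : ℕ × ℕ} : 2 * tp u = C2 u + h2 u := by
  have h3 := h2_cases u
  unfold tp
  omega

theorem tp_le {u : ℕ × ℕ} (hu : u ∈ U m) : tp u < m + 1 := by
  have h1 := C2_lt m hu
  have h3 := h2_cases u
  unfold tp
  omega

theorem tm_le {u : ℕ × ℕ} (hu : u ∈ U m) : tm u < m + 1 := by
  have h1 := C2_lt m hu
  have h3 := h2_cases u
  unfold tm
  omega

/-- the constant -/
noncomputable def W : ℝ := 7 * (m : ℝ) ^ 2 + 10

/-- the weights -/
noncomputable def w (t : Fin (m + 1)) : ℝ := W m - (t : ℕ) ^ 2 - (if 3 ∣ (t : ℕ) then 2 else 0)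

theorem w_pos (t : Fin (m + 1)) : 0 < w m t := by
  unfold w W
  have h1 : ((t : ℕ) : ℝ) ≤ m := by exact_mod_cast Nat.lt_succ_iff.1 t.2
  have h2 : (0 : ℝ) ≤ ((t : ℕ) : ℝ) := Nat.cast_nonneg _
  have h3 : ((t : ℕ) : ℝ) ^ 2 ≤ (m : ℝ) ^ 2 := by gcongr
  have h4 : (0 : ℝ) ≤ (m : ℝ) ^ 2 := by positivity
  split_ifs <;> linarith

/-- the weights of the atoms -/
noncomputable def om : At m → ℝ
  | Sum.inl _ => 0
  | Sum.inr t => w m t

/-- the constant term -/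
noncomputable def kk (u : ℕ × ℕ) : ℝ := W m + (C2 u : ℝ) ^ 2 / 4 - (h2 u : ℝ) ^ 2 / 4

/-- the slopes -/
noncomputable def gg (u : ℕ × ℕ) : Fin 2 → ℝ := ![-(kk m u) / 3, -(C2 u : ℝ)]

/-- the defects -/
noncomputable def DD (u : ℕ × ℕ) (a : At m) : ℝ := Lf (kk m u) (gg m u) (ex m a) - om m a

theorem Lf_E2 (u : ℕ × ℕ) (i j : ℕ) : Lf (kk m u) (gg m u) (E2 i j) = kk m u - kk m u / 3 * i - C2 u * j := by
  unfold Lf gg
  rw [Fin.sum_univ_two]
  simp only [Matrix.cons_val_zero, Matrix.cons_val_one, E2_zero, E2_one]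
  ring

theorem DD_none (u : ℕ × ℕ) : DD m u (Sum.inl none) = 0 := by
  unfold DD ex om
  simp only
  rw [Lf_E2]
  push_cast
  ring

theorem kk_ge (u : ℕ × ℕ) (hu : u ∈ U m) : W m ≤ kk m u := by
  unfold kk
  have h1 := C2_ge m hu
  have h3 : h2 u ≤ C2 u := by
    rcases h2_cases u with h | h <;> omega
  have h4 : (h2 u : ℝ) ≤ C2 u := by exact_mod_cast h3
  have h5 : (0 : ℝ) ≤ h2 u := Nat.cast_nonneg _
  have h6 : (h2 u : ℝ) ^ 2 ≤ (C2 u : ℝ) ^ 2 := by gcongr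
  linarith

theorem DD_some (u : ℕ × ℕ) (hu : u ∈ U m) (s : Fin 2 × Fin (m + 1)) : 0 < DD m u (Sum.inl (some s)) := by
  obtain ⟨i, j⟩ := s
  unfold DD ex om
  simp only
  rw [Lf_E2]
  have h1 := kk_ge m u hu
  have h3 : (C2 u : ℝ) ≤ 2 * m := by exact_mod_cast (C2_lt m hu).le
  have h4 : ((j : ℕ) : ℝ) ≤ m := by exact_mod_cast Nat.lt_succ_iff.1 j.2
  have h5 : (0 : ℝ) ≤ ((j : ℕ) : ℝ) := Nat.cast_nonneg _
  have h6 : (0 : ℝ) ≤ C2 u := Nat.cast_nonneg _
  have h7 : (((i : ℕ) + 1 : ℕ) : ℝ) ≤ 2 := by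
    have := i.2
    exact_mod_cast (by omega : (i : ℕ) + 1 ≤ 2)
  have h8 : (C2 u : ℝ) * (j : ℕ) ≤ 2 * m * m := by gcongr
  have h9 : 0 < kk m u := lt_of_lt_of_le (by unfold W; positivity) h1
  have h10 : kk m u / 3 * (((i : ℕ) + 1 : ℕ) : ℝ) ≤ kk m u / 3 * 2 := by gcongr
  unfold W at h1
  nlinarith

theorem DD_inr (u : ℕ × ℕ) (t : Fin (m + 1)) : 4 * DD m u (Sum.inr t) =
    (2 * ((t : ℕ) : ℝ) - C2 u) ^ 2 - (h2 u : ℝ) ^ 2 + (if 3 ∣ (t : ℕ) then 8 else 0) := by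
  unfold DD ex om w
  simp only
  rw [Lf_E2]
  unfold kk
  split_ifs
  · push_cast
    ring
  · push_cast
    ring

theorem DD_inr_int (u : ℕ × ℕ) (t : Fin (m + 1)) : 0 ≤ DD m u (Sum.inr t) ∧
    (DD m u (Sum.inr t) = 0 → (2 * (t : ℕ) = C2 u + h2 u ∨ 2 * (t : ℕ) + h2 u = C2 u)) := by
  have h := DD_inr m u t
  have h3 := C2_dvd u
  have h4 := h2_cases u
  set z : ℤ := 2 * ((t : ℕ) : ℤ) - (C2 u : ℤ) with hz
  have hzr : (2 * ((t : ℕ) : ℝ) - C2 u) = (z : ℝ) := by rw [hz]; push_cast; ring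
  rw [hzr] at h
  set V : ℤ := z ^ 2 - (h2 u : ℤ) ^ 2 + (if 3 ∣ (t : ℕ) then 8 else 0) with hV
  have hVr : 4 * DD m u (Sum.inr t) = (V : ℝ) := by
    rw [h, hV]
    split_ifs <;> push_cast <;> ring
  have key : 0 ≤ V ∧ (V = 0 → z = h2 u ∨ z = -(h2 u : ℤ)) := by
    rcases h4 with ⟨e1, e2⟩ | ⟨e1, e2⟩
    · rw [hV, e1]
      push_cast
      have hzeven : z % 2 = 0 := by omega
      by_cases hz0 : z = 0
      · have h5 : 3 ∣ (t : ℕ) := by omega
        rw [if_pos h5, hz0]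
        norm_num
      · by_cases hz2 : z = 2 ∨ z = -2
        · refine ⟨?_, fun _ => hz2⟩
          rcases hz2 with h' | h' <;> rw [h'] <;> split_ifs <;> norm_num
        · have h6 : 4 ≤ z ∨ z ≤ -4 := by omega
          have h7 : 16 ≤ z ^ 2 := by
            rcases h6 with h' | h' <;> nlinarith
          constructor
          · split_ifs <;> linarith
          · intro h8
            split_ifs at h8 <;> omega
    · rw [hV, e1]
      push_cast
      by_cases hz1 : z = 1 ∨ z = -1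
      · refine ⟨?_, fun _ => hz1⟩
        rcases hz1 with h' | h' <;> rw [h'] <;> split_ifs <;> norm_num
      · have h6 : 2 ≤ z ∨ z ≤ -2 := by omega
        have h7 : 4 ≤ z ^ 2 := by
          rcases h6 with h' | h' <;> nlinarith
        constructor
        · split_ifs <;> linarith
        · intro h8
          split_ifs at h8 <;> omega
  constructor
  · have : (0 : ℝ) ≤ V := by exact_mod_cast key.1
    linarith
  · intro h0
    have h5 : (V : ℝ) = 0 := by rw [← hVr, h0, mul_zero]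
    have h6 : V = 0 := by exact_mod_cast h5
    rcases key.2 h6 with h' | h'
    · left; omega
    · right; omega

theorem DD_nonneg (u : ℕ × ℕ) (hu : u ∈ U m) (a : At m) : 0 ≤ DD m u a := by
  rcases a with a | t
  · rcases a with _ | s
    · exact (DD_none m u).ge
    · exact (DD_some m u hu s).le
  · exact (DD_inr_int m u t).1

theorem DD_zero {u : ℕ × ℕ} (hu : u ∈ U m) (t : Fin (m + 1)) (h : 2 * (t : ℕ) = C2 u + h2 u ∨ 2 * (t : ℕ) + h2 u = C2 u) :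
    DD m u (Sum.inr t) = 0 := by
  have h1 := DD_inr m u t
  have h3 := C2_dvd u
  have h4 := h2_cases u
  have h5 : ¬ 3 ∣ (t : ℕ) := by omega
  rw [if_neg h5, add_zero] at h1
  have h6 : (2 * ((t : ℕ) : ℝ) - C2 u) ^ 2 = (h2 u : ℝ) ^ 2 := by
    rcases h with h' | h'
    · have : 2 * ((t : ℕ) : ℝ) = C2 u + h2 u := by exact_mod_cast h'
      rw [this]
      ring
    · have : 2 * ((t : ℕ) : ℝ) + h2 u = C2 u := by exact_mod_cast h'
      rw [← this]
      ring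
  rw [h6] at h1
  linarith

end Run7.h328.ORD.Trig
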