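import Pool.Agent.Run7.h328.ORD.Trig

/-! # The Hasse-Witt determinants of trigonal curves: the count -/

set_option autoImplicit false

namespace Run7.h328.ORD.Trig

open Finset
open Run7.h328.ORD Run7.h328.ORD.Fn

variable (m ℓ : ℕ)

/-- the lower index -/
def im (u : U m) : Fin (m + 1) := ⟨tm u.1, tm_le m u.2⟩
/-- the upper index -/
def ip (u : U m) : Fin (m + 1) := ⟨tp u.1, tp_le m u.2⟩

theorem im_ne_ip (u : U m) : im m u ≠ ip m u := by
  intro h
  have h1 := congrArg Fin.val h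
  unfold im ip at h1
  simp only at h1
  have h2 := tm_spec m u.2
  have h3 := tp_spec (u := u.1)
  have h4 := h2_cases u.1
  omega

/-- the exponents of the leading term -/
def e0 (u : U m) : At m → ℕ
  | Sum.inl none => 2 * ℓ * u.1.1
  | Sum.inl (some _) => 0
  | Sum.inr t => if t = im m u ∨ t = ip m u then ℓ * (3 - u.1.1) else 0

theorem sum_At {A : Type} [AddCommMonoid A] (f : At m → A) :
    ∑ a, f a = f (Sum.inl none) + ∑ s, f (Sum.inl (some s)) + ∑ t, f (Sum.inr t) := by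
  rw [Fintype.sum_sum_type, Fintype.sum_option]

theorem sum_two {A : Type} [AddCommMonoid A] (u : U m) (f : Fin (m + 1) → A) (hf : ∀ t, t ≠ im m u → t ≠ ip m u → f t = 0) :
    ∑ t, f t = f (im m u) + f (ip m u) := by
  rw [← Finset.sum_pair (im_ne_ip m u)]
  symm
  refine Finset.sum_subset (Finset.subset_univ _) fun t _ ht => ?_
  rw [Finset.mem_insert, Finset.mem_singleton, not_or] at ht
  exact hf t ht.1 ht.2

theorem nat_sum {A : Type} [AddCommMonoid A] (u : U m) (f : Fin (m + 1) → ℕ → A) (hf : ∀ t, f t 0 = 0) :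
    ∑ t, f t (e0 m ℓ u (Sum.inr t)) = f (im m u) (ℓ * (3 - u.1.1)) + f (ip m u) (ℓ * (3 - u.1.1)) := by
  rw [sum_two m u]
  · have h1 : e0 m ℓ u (Sum.inr (im m u)) = ℓ * (3 - u.1.1) := by
      unfold e0
      simp
    have h2 : e0 m ℓ u (Sum.inr (ip m u)) = ℓ * (3 - u.1.1) := by
      unfold e0
      simp
    rw [h1, h2]
  · intro t h1 h2
    have h3 : e0 m ℓ u (Sum.inr t) = 0 := by
      unfold e0
      simp [h1, h2]
    rw [h3, hf]

/-- membership in the set of exponents, in coordinates -/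
theorem mem_EE2 (n : ℕ) (N : Fin 2 →₀ ℕ) (e : At m → ℕ) : e ∈ EE (ex m) n N ↔
    (e (Sum.inl none) + ∑ s, e (Sum.inl (some s)) + ∑ t, e (Sum.inr t) = n) ∧
    (3 * e (Sum.inl none) + ∑ s : Fin 2 × Fin (m + 1), ((s.1 : ℕ) + 1) * e (Sum.inl (some s)) = N 0) ∧
    (∑ s : Fin 2 × Fin (m + 1), (s.2 : ℕ) * e (Sum.inl (some s)) + ∑ t : Fin (m + 1), (t : ℕ) * e (Sum.inr t) = N 1) := by
  rw [mem_EE, sum_At, sum_At]
  have h0 : (e (Sum.inl none) • ex m (Sum.inl none) + ∑ s, e (Sum.inl (some s)) • ex m (Sum.inl (some s)) +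
      ∑ t, e (Sum.inr t) • ex m (Sum.inr t)) 0 = 3 * e (Sum.inl none) +
      ∑ s : Fin 2 × Fin (m + 1), ((s.1 : ℕ) + 1) * e (Sum.inl (some s)) := by
    rw [Finsupp.add_apply, Finsupp.add_apply, Finsupp.finsetSum_apply, Finsupp.finsetSum_apply]
    simp only [Finsupp.smul_apply, ex, E2_zero, smul_eq_mul, mul_zero, Finset.sum_const_zero, add_zero]
    rw [mul_comm]
    congr 1
    exact Finset.sum_congr rfl fun s _ => mul_comm _ _
  have h1 : (e (Sum.inl none) • ex m (Sum.inl none) + ∑ s, e (Sum.inl (some s)) • ex m (Sum.inl (some s)) +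
      ∑ t, e (Sum.inr t) • ex m (Sum.inr t)) 1 =
      ∑ s : Fin 2 × Fin (m + 1), (s.2 : ℕ) * e (Sum.inl (some s)) + ∑ t : Fin (m + 1), (t : ℕ) * e (Sum.inr t) := by
    rw [Finsupp.add_apply, Finsupp.add_apply, Finsupp.finsetSum_apply, Finsupp.finsetSum_apply]
    simp only [Finsupp.smul_apply, ex, E2_one, smul_eq_mul, mul_zero, zero_add]
    congr 1
    · exact Finset.sum_congr rfl fun s _ => mul_comm _ _
    · exact Finset.sum_congr rfl fun s _ => mul_comm _ _
  constructor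
  · rintro ⟨h, h'⟩
    refine ⟨h, ?_, ?_⟩
    · rw [← h', h0]
    · rw [← h', h1]
  · rintro ⟨h, h', h''⟩
    refine ⟨h, ?_⟩
    apply ext2
    · rw [h0, h']
    · rw [h1, h'']

theorem uu_sub (u v : U m) (p : ℕ) : (p • uu m u - uu m v : Fin 2 →₀ ℕ) = E2 (p * u.1.1 - v.1.1) (p * u.1.2 - v.1.2) := by
  apply ext2
  · rw [Finsupp.tsub_apply, Finsupp.smul_apply, smul_eq_mul]
    unfold uu
    rw [E2_zero, E2_zero, E2_zero]
  · rw [Finsupp.tsub_apply, Finsupp.smul_apply, smul_eq_mul]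
    unfold uu
    rw [E2_one, E2_one, E2_one]

theorem e0_mem (u : U m) : e0 m ℓ u ∈ EE (ex m) (6 * ℓ) ((6 * ℓ + 1) • uu m u - uu m u) := by
  have h1 := (mem_U m).1 u.2
  have h2 := C2_spec h1.1
  have h3 := tm_spec m u.2
  have h4 := tp_spec (u := u.1)
  rw [mem_EE2, uu_sub, E2_zero, E2_one]
  have hs0 : ∀ s, e0 m ℓ u (Sum.inl (some s)) = 0 := fun _ => rfl
  have hn : e0 m ℓ u (Sum.inl none) = 2 * ℓ * u.1.1 := rfl
  simp only [hs0, hn, mul_zero, Finset.sum_const_zero, add_zero, zero_add]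
  rw [nat_sum m ℓ u (fun _ x => x) (fun _ => rfl), nat_sum m ℓ u (fun t x => (t : ℕ) * x) (fun _ => mul_zero _)]
  have e1 : ((im m u : Fin (m + 1)) : ℕ) = tm u.1 := rfl
  have e2 : ((ip m u : Fin (m + 1)) : ℕ) = tp u.1 := rfl
  rw [e1, e2]
  have e3 : (6 * ℓ + 1) * u.1.1 - u.1.1 = 6 * ℓ * u.1.1 := by
    rw [add_mul, one_mul, Nat.add_sub_cancel]
  have e4 : (6 * ℓ + 1) * u.1.2 - u.1.2 = ℓ * (6 * u.1.2) := by
    rw [add_mul, one_mul, Nat.add_sub_cancel]
    ring
  rw [e3, e4, ← h2]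
  have e5 : tm u.1 * (ℓ * (3 - u.1.1)) + tp u.1 * (ℓ * (3 - u.1.1)) = ℓ * ((3 - u.1.1) * (tm u.1 + tp u.1)) := by ring
  have e6 : tm u.1 + tp u.1 = C2 u.1 := by omega
  rw [e5, e6]
  refine ⟨?_, by ring, rfl⟩
  rcases h1.1 with h | h <;> rw [h] <;> omega

theorem sum_zero_imp {e : At m → ℕ} {u : ℕ × ℕ} (hu : u ∈ U m) (h : ∑ a, (e a : ℝ) * DD m u a ≤ 0) (a : At m) :
    e a = 0 ∨ DD m u a = 0 := by
  have h1 : ∀ a ∈ (univ : Finset (At m)), 0 ≤ (e a : ℝ) * DD m u a := fun a _ => mul_nonneg (Nat.cast_nonneg _) (DD_nonneg m u hu a)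
  have h2 := (Finset.sum_eq_zero_iff_of_nonneg h1).1 (le_antisymm h (Finset.sum_nonneg h1)) a (Finset.mem_univ a)
  rcases mul_eq_zero.1 h2 with h3 | h3
  · left; exact_mod_cast h3
  · right; exact h3

theorem diag (u : U m) (e : At m → ℕ) (he : e ∈ EE (ex m) (6 * ℓ) ((6 * ℓ + 1) • uu m u - uu m u)) (hne : e ≠ e0 m ℓ u) :
    0 < ∑ a, (e a : ℝ) * (Lf (kk m u.1) (gg m u.1) (ex m a) - om m a) := by
  by_contra hcon
  push Not at hcon
  apply hne
  have hz := sum_zero_imp m u.2 (e := e) hcon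
  have hs0 : ∀ s, e (Sum.inl (some s)) = 0 := by
    intro s
    rcases hz (Sum.inl (some s)) with h | h
    · exact h
    · exact absurd h (DD_some m u.1 u.2 s).ne'
  have ht0 : ∀ t, t ≠ im m u → t ≠ ip m u → e (Sum.inr t) = 0 := by
    intro t h1 h2
    rcases hz (Sum.inr t) with h | h
    · exact h
    · have h3 := tm_spec m u.2
      have h4 := tp_spec (u := u.1)
      rcases (DD_inr_int m u.1 t).2 h with h5 | h5
      · exact absurd (Fin.ext (by show (t : ℕ) = tp u.1; omega)) h2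
      · exact absurd (Fin.ext (by show (t : ℕ) = tm u.1; omega)) h1
  rw [mem_EE2, uu_sub, E2_zero, E2_one] at he
  simp only [hs0, mul_zero, Finset.sum_const_zero, add_zero, zero_add] at he
  rw [sum_two m u (fun t => e (Sum.inr t)) ht0, sum_two m u (fun t => (t : ℕ) * e (Sum.inr t)) (fun t h1 h2 => by rw [ht0 t h1 h2, mul_zero])] at he
  have e1 : ((im m u : Fin (m + 1)) : ℕ) = tm u.1 := rfl
  have e2 : ((ip m u : Fin (m + 1)) : ℕ) = tp u.1 := rfl
  rw [e1, e2] at he
  have e3 : (6 * ℓ + 1) * u.1.1 - u.1.1 = 6 * ℓ * u.1.1 := by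
    rw [add_mul, one_mul, Nat.add_sub_cancel]
  have e4 : (6 * ℓ + 1) * u.1.2 - u.1.2 = ℓ * (6 * u.1.2) := by
    rw [add_mul, one_mul, Nat.add_sub_cancel]
    ring
  have h1 := (mem_U m).1 u.2
  have hC := C2_spec h1.1
  have h3 := tm_spec m u.2
  have h4 := tp_spec (u := u.1)
  have h5 := h2_cases u.1
  rw [e3, e4, ← hC] at he
  obtain ⟨he1, he2, he3⟩ := he
  set x := e (Sum.inr (im m u)) with hx
  set y := e (Sum.inr (ip m u)) with hy
  have e7 : e (Sum.inl none) = 2 * ℓ * u.1.1 := by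
    have : 3 * e (Sum.inl none) = 3 * (2 * ℓ * u.1.1) := by rw [he2]; ring
    omega
  have e8 : x + y = 2 * (ℓ * (3 - u.1.1)) := by
    rw [e7] at he1
    rcases h1.1 with h | h <;> rw [h] at he1 ⊢ <;> omega
  have e9 : x = y := by
    have h6 : 2 * (tm u.1 * x + tp u.1 * y) = C2 u.1 * (x + y) := by
      rw [he3, e8]
      ring
    have h7 : (2 * tm u.1 + h2 u.1) * x + (C2 u.1 + h2 u.1) * y = (C2 u.1) * (x + y) + h2 u.1 * x := by
      rw [← h4, ← h6]
      ring
    rw [h3] at h7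
    have h8 : h2 u.1 * y = h2 u.1 * x := by nlinarith
    have h9 : 0 < h2 u.1 := by omega
    exact (Nat.eq_of_mul_eq_mul_left h9 h8).symm
  funext a
  rcases a with a | t
  · rcases a with _ | s
    · exact e7
    · exact hs0 s
  · by_cases h6 : t = im m u
    · have h7 : e0 m ℓ u (Sum.inr t) = ℓ * (3 - u.1.1) := by
        unfold e0
        simp [h6]
      rw [h7, h6]
      show x = _
      omega
    · by_cases h8 : t = ip m u
      · have h7 : e0 m ℓ u (Sum.inr t) = ℓ * (3 - u.1.1) := by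
          unfold e0
          simp [h8]
        rw [h7, h8]
        show y = _
        omega
      · have h7 : e0 m ℓ u (Sum.inr t) = 0 := by
          unfold e0
          simp [h6, h8]
        rw [h7, ht0 t h6 h8]

/-- the exponents of the leading monomial -/
noncomputable def MM (u : U m) : Fin (m + 1) →₀ ℕ := Finsupp.equivFunOnFinite.symm fun t => e0 m ℓ u (Sum.inr t)

theorem MM_apply (u : U m) (t : Fin (m + 1)) : MM m ℓ u t = if t = im m u ∨ t = ip m u then ℓ * (3 - u.1.1) else 0 := rfl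

theorem term_e0 {K : Type} [Field K] (a : Fin 2 × Fin (m + 1) → K) (u : U m) :
    Fn.term (co m (fun s => MvPolynomial.C (σ := Fin (m + 1)) (a s)) MvPolynomial.X) (e0 m ℓ u) =
      MvPolynomial.monomial (MM m ℓ u) (Nat.multinomial univ (e0 m ℓ u) : K) := by
  unfold Fn.term
  rw [Fintype.prod_sum_type, Fintype.prod_option]
  have h1 : ∀ s, (co m (fun s => MvPolynomial.C (σ := Fin (m + 1)) (a s)) MvPolynomial.X) (Sum.inl (some s)) ^ e0 m ℓ u (Sum.inl (some s)) = 1 := by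
    intro s
    show _ ^ 0 = _
    exact pow_zero _
  have h2 : (co m (fun s => MvPolynomial.C (σ := Fin (m + 1)) (a s)) MvPolynomial.X) (Sum.inl none) ^ e0 m ℓ u (Sum.inl none) = 1 := by
    show (1 : MvPolynomial (Fin (m + 1)) K) ^ _ = 1
    exact one_pow _
  rw [h2, Finset.prod_congr rfl fun s _ => h1 s, Finset.prod_const_one, one_mul, one_mul]
  have h3 : ∏ t, (co m (fun s => MvPolynomial.C (σ := Fin (m + 1)) (a s)) MvPolynomial.X) (Sum.inr t) ^ e0 m ℓ u (Sum.inr t) =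
      (MvPolynomial.monomial (MM m ℓ u) 1 : MvPolynomial (Fin (m + 1)) K) := by
    rw [MvPolynomial.monomial_eq, map_one, one_mul, Finsupp.prod_fintype _ _ (fun _ => pow_zero _)]
    rfl
  rw [h3, ← map_natCast (MvPolynomial.C (σ := Fin (m + 1)) (R := K)), MvPolynomial.C_mul_monomial, mul_one]

theorem om_LE {K : Type} [Field K] (a : Fin 2 × Fin (m + 1) → K) (x : At m) :
    LE (w m) (co m (fun s => MvPolynomial.C (σ := Fin (m + 1)) (a s)) MvPolynomial.X x) (om m x) := by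
  rcases x with x | t
  · rcases x with _ | s
    · exact LE.one
    · show LE (w m) (MvPolynomial.C (a s)) 0
      rw [← MvPolynomial.monomial_zero']
      refine LE.monomial ?_ _
      unfold Wt
      simp
  · show LE (w m) (MvPolynomial.X t) (w m t)
    rw [MvPolynomial.X]
    refine LE.monomial ?_ _
    unfold Wt
    rw [Finset.sum_eq_single t]
    · rw [Finsupp.single_eq_same, Nat.cast_one, mul_one]
    · intro j _ hj
      rw [Finsupp.single_eq_of_ne hj, Nat.cast_zero, mul_zero]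
    · intro h
      exact absurd (Finset.mem_univ _) h

end Run7.h328.ORD.Trig
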