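import Pool.Agent.Run7.h328.ORD.Trig2

/-! # The Hasse-Witt determinants of trigonal curves: the theorem -/

set_option autoImplicit false

namespace Run7.h328.ORD.Trig

open Finset
open Run7.h328.ORD Run7.h328.ORD.Fn

variable (m ℓ : ℕ)

theorem Wt_MM (u : U m) : Wt (w m) (MM m ℓ u) = Fn.TT (6 * ℓ + 1) (6 * ℓ) (uu m) (fun u : U m => kk m u.1) (fun u => gg m u.1) (fun _ => 0) u u := by
  have h1 := wt_id (ex m) (6 * ℓ) (om m) (kk m u.1) (gg m u.1) _ _ (e0_mem m ℓ u)
  have h2 : ∑ a, (e0 m ℓ u a : ℝ) * (Lf (kk m u.1) (gg m u.1) (ex m a) - om m a) = 0 := by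
    refine Finset.sum_eq_zero fun a _ => ?_
    rcases a with a | t
    · rcases a with _ | s
      · have := DD_none m u.1
        unfold DD at this
        rw [this, mul_zero]
      · have : e0 m ℓ u (Sum.inl (some s)) = 0 := rfl
        rw [this, Nat.cast_zero, zero_mul]
    · by_cases h : t = im m u ∨ t = ip m u
      · have h3 := tm_spec m u.2
        have h4 := tp_spec (u := u.1)
        have h5 : DD m u.1 (Sum.inr t) = 0 := by
          apply DD_zero m u.2
          rcases h with h | h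
          · right; rw [h]; exact h3
          · left; rw [h]; exact h4
        unfold DD at h5
        rw [h5, mul_zero]
      · have : e0 m ℓ u (Sum.inr t) = 0 := by
          unfold e0
          simp [h]
        rw [this, Nat.cast_zero, zero_mul]
  have h3 : ∑ a, (e0 m ℓ u a : ℝ) * om m a = Wt (w m) (MM m ℓ u) := by
    rw [sum_At]
    have e1 : om m (Sum.inl none) = 0 := rfl
    have e2 : ∀ s, om m (Sum.inl (some s)) = 0 := fun _ => rfl
    simp only [e1, e2, mul_zero, Finset.sum_const_zero, zero_add]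
    unfold Wt MM
    exact Finset.sum_congr rfl fun t _ => mul_comm _ _
  rw [← h3, h1, h2]
  unfold Fn.TT
  congr 2
  exact Finset.sum_congr rfl fun s _ => by rw [sub_cast (le_smul (Nat.succ_pos _) _)]

/-- the differences -/
theorem diff_eq (u v : U m) : Lf (kk m v.1) (gg m v.1) (uu m u) - Lf (kk m u.1) (gg m u.1) (uu m u) =
    (3 - (u.1.1 : ℝ)) / 12 * (((C2 v.1 : ℝ) - C2 u.1) ^ 2 + (h2 u.1 : ℝ) ^ 2 - (h2 v.1 : ℝ) ^ 2) := by
  unfold uu
  rw [Lf_E2, Lf_E2]
  have h1 := (mem_U m).1 u.2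
  have hC := C2_spec h1.1
  have h3 : (3 - (u.1.1 : ℝ)) * C2 u.1 = 6 * u.1.2 := by
    rcases h1.1 with h | h
    · rw [h] at hC ⊢
      have : ((3 - 1 : ℕ) : ℝ) * C2 u.1 = 6 * u.1.2 := by exact_mod_cast hC
      push_cast at this ⊢
      linarith
    · rw [h] at hC ⊢
      have : ((3 - 2 : ℕ) : ℝ) * C2 u.1 = 6 * u.1.2 := by exact_mod_cast hC
      push_cast at this ⊢
      linarith
  unfold kk
  have h4 : (u.1.2 : ℝ) = (3 - (u.1.1 : ℝ)) * C2 u.1 / 6 := by linarith
  rw [h4]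
  ring

theorem diff_nonneg (u v : U m) : 0 ≤ Lf (kk m v.1) (gg m v.1) (uu m u) - Lf (kk m u.1) (gg m u.1) (uu m u) ∧
    (C2 v.1 ≠ C2 u.1 → 0 < Lf (kk m v.1) (gg m v.1) (uu m u) - Lf (kk m u.1) (gg m u.1) (uu m u)) := by
  rw [diff_eq]
  have h1 := (mem_U m).1 u.2
  have hpos : 0 < (3 - (u.1.1 : ℝ)) / 12 := by
    rcases h1.1 with h | h <;> rw [h] <;> norm_num
  have d1 := C2_dvd u.1
  have d2 := C2_dvd v.1
  by_cases h : C2 v.1 = C2 u.1
  · have h3 : h2 v.1 = h2 u.1 := by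
      rcases h2_cases u.1 with h4 | h4 <;> rcases h2_cases v.1 with h5 | h5 <;> omega
    rw [h, h3]
    refine ⟨?_, fun h' => absurd rfl h'⟩
    simp
  · have h3 : 0 < ((C2 v.1 : ℤ) - C2 u.1) ^ 2 + (h2 u.1 : ℤ) ^ 2 - (h2 v.1 : ℤ) ^ 2 := by
      have h6 : 3 ≤ (C2 v.1 : ℤ) - C2 u.1 ∨ (C2 v.1 : ℤ) - C2 u.1 ≤ -3 := by omega
      have h7 : 9 ≤ ((C2 v.1 : ℤ) - C2 u.1) ^ 2 := by
        rcases h6 with h' | h' <;> nlinarith
      have h8 : (h2 v.1 : ℤ) ^ 2 ≤ 4 := by
        rcases h2_cases v.1 with h5 | h5 <;> rw [h5.1] <;> norm_num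
      have h9 : (0 : ℤ) ≤ (h2 u.1 : ℤ) ^ 2 := by positivity
      linarith
    have h4 : (0 : ℝ) < ((C2 v.1 : ℝ) - C2 u.1) ^ 2 + (h2 u.1 : ℝ) ^ 2 - (h2 v.1 : ℝ) ^ 2 := by exact_mod_cast h3
    have h5 := mul_pos hpos h4
    exact ⟨h5.le, fun _ => h5⟩

theorem perm (σ : Equiv.Perm (U m)) (hσ : σ ≠ 1) :
    ∑ i, Fn.TT (6 * ℓ + 1) (6 * ℓ) (uu m) (fun u : U m => kk m u.1) (fun u => gg m u.1) (fun _ => 0) (σ i) i <
      ∑ i, Fn.TT (6 * ℓ + 1) (6 * ℓ) (uu m) (fun u : U m => kk m u.1) (fun u => gg m u.1) (fun _ => 0) i i ∨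
      (∑ i, Fn.TT (6 * ℓ + 1) (6 * ℓ) (uu m) (fun u : U m => kk m u.1) (fun u => gg m u.1) (fun _ => 0) (σ i) i ≤
        ∑ i, Fn.TT (6 * ℓ + 1) (6 * ℓ) (uu m) (fun u : U m => kk m u.1) (fun u => gg m u.1) (fun _ => 0) i i ∧
        ∃ i, uu m i ≤ (6 * ℓ + 1) • uu m (σ i) →
        ∀ e ∈ EE (ex m) (6 * ℓ) ((6 * ℓ + 1) • uu m (σ i) - uu m i),
          (0 : ℝ) < ∑ a, e a * (Lf (kk m (σ i).1) (gg m (σ i).1) (ex m a) - om m a)) := by
  have hd := TT_diff (6 * ℓ + 1) (6 * ℓ) (uu m) (fun u : U m => kk m u.1) (fun u => gg m u.1) (fun _ => 0) σ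
  by_cases hC : ∃ i, C2 (σ i).1 ≠ C2 i.1
  · left
    obtain ⟨i, hi⟩ := hC
    have h1 : 0 < ∑ i, (Lf (kk m (σ i).1) (gg m (σ i).1) (uu m i) - Lf (kk m i.1) (gg m i.1) (uu m i)) :=
      Finset.sum_pos' (fun i _ => (diff_nonneg m i (σ i)).1) ⟨i, Finset.mem_univ i, (diff_nonneg m i (σ i)).2 hi⟩
    linarith
  · right
    push Not at hC
    have h1 : 0 ≤ ∑ i, (Lf (kk m (σ i).1) (gg m (σ i).1) (uu m i) - Lf (kk m i.1) (gg m i.1) (uu m i)) :=
      Finset.sum_nonneg fun i _ => (diff_nonneg m i (σ i)).1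
    refine ⟨by linarith, ?_⟩
    have hne : ∃ i, σ i ≠ i := by
      by_contra hcon
      push Not at hcon
      exact hσ (Equiv.ext hcon)
    obtain ⟨i, hi⟩ := hne
    refine ⟨i, fun hle e he => ?_⟩
    have hle0 : i.1.1 ≤ (6 * ℓ + 1) * (σ i).1.1 := by
      have := hle 0
      rw [Finsupp.smul_apply, smul_eq_mul] at this
      unfold uu at this
      rwa [E2_zero, E2_zero] at this
    have hCi := hC i
    have m1 := (mem_U m).1 i.2
    have m2 := (mem_U m).1 (σ i).2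
    have hy : (σ i).1.1 ≠ i.1.1 := by
      intro hy
      apply hi
      apply Subtype.ext
      apply Prod.ext hy
      unfold C2 at hCi
      rw [hy] at hCi
      split_ifs at hCi <;> omega
    by_contra hcon
    push Not at hcon
    have hz := sum_zero_imp m (σ i).2 (e := e) hcon
    have hs0 : ∀ s, e (Sum.inl (some s)) = 0 := by
      intro s
      rcases hz (Sum.inl (some s)) with h | h
      · exact h
      · exact absurd h (DD_some m (σ i).1 (σ i).2 s).ne'
    rw [mem_EE2, uu_sub, E2_zero, E2_one] at he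
    simp only [hs0, mul_zero, Finset.sum_const_zero, add_zero, zero_add] at he
    have h3 := he.2.1
    rcases m1.1 with h4 | h4 <;> rcases m2.1 with h5 | h5
    · exact hy (h5.trans h4.symm)
    · rw [h4, h5] at h3 hle0
      omega
    · rw [h4, h5] at h3 hle0
      omega
    · exact hy (h5.trans h4.symm)

/-- the exponents -/
theorem MM_sum (t : Fin (m + 1)) : (∑ u, MM m ℓ u : Fin (m + 1) →₀ ℕ) t ≤ if 3 ∣ (t : ℕ) then 0 else 5 * ℓ := by
  rw [Finsupp.finsetSum_apply]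
  set f : ℕ × ℕ → ℕ := fun v => if 2 * (t : ℕ) = C2 v + h2 v ∨ 2 * (t : ℕ) + h2 v = C2 v then ℓ * (3 - v.1) else 0 with hf
  have h1 : ∀ u : U m, MM m ℓ u t = f u.1 := by
    intro u
    rw [MM_apply, hf]
    simp only
    have h3 := tm_spec m u.2
    have h4 := tp_spec (u := u.1)
    congr 1
    apply propext
    constructor
    · rintro (h | h)
      · right; rw [h]; exact h3
      · left; rw [h]; exact h4
    · rintro (h | h)
      · right; exact Fin.ext (by show (t : ℕ) = tp u.1; omega)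
      · left; exact Fin.ext (by show (t : ℕ) = tm u.1; omega)
  rw [Finset.sum_congr rfl fun u _ => h1 u, Finset.sum_coe_sort (U m) f]
  have hval : ∀ v ∈ U m, f v ≠ 0 → (2 * (t : ℕ) = C2 v + h2 v ∨ 2 * (t : ℕ) + h2 v = C2 v) := by
    intro v _ h
    rw [hf] at h
    simp only at h
    by_contra h'
    rw [if_neg h'] at h
    exact h rfl
  have hb : ∀ (i j : ℕ), 1 ≤ i → f (i, j) ≤ ℓ * (3 - i) := by
    intro i j _
    rw [hf]
    simp only
    split_ifs
    · exact le_rfl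
    · exact Nat.zero_le _
  split_ifs with h3
  · refine (Finset.sum_eq_zero fun v hv => ?_).le
    by_contra h
    have h4 := hval v hv h
    have h5 := h2_cases v
    have h6 := C2_dvd v
    omega
  · set q := (t : ℕ) / 3 with hq
    have hcase : (t : ℕ) = 3 * q + 1 ∨ (t : ℕ) = 3 * q + 2 := by omega
    rcases hcase with hc | hc
    · have h5 : ∑ v ∈ U m, f v ≤ ∑ v ∈ ({(2, q), (1, 2 * q), (1, 2 * q + 1)} : Finset (ℕ × ℕ)), f v := by
        refine Finset.sum_le_sum_of_ne_zero fun v hv h => ?_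
        have h4 := hval v hv h
        have h5 := h2_cases v
        have h6 := (mem_U m).1 hv
        simp only [Finset.mem_insert, Finset.mem_singleton, Prod.ext_iff]
        unfold C2 at h4 h5
        rcases h6.1 with h7 | h7
        · rw [h7] at h4 h5 ⊢
          simp only [OfNat.one_ne_ofNat, if_false] at h4 h5
          omega
        · rw [h7] at h4 h5 ⊢
          simp only [if_true] at h4 h5
          omega
      refine h5.trans ?_
      rw [Finset.sum_insert (by simp), Finset.sum_insert (by simp), Finset.sum_singleton]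
      have b1 := hb 2 q (by norm_num)
      have b2 := hb 1 (2 * q) (by norm_num)
      have b3 := hb 1 (2 * q + 1) (by norm_num)
      omega
    · have h5 : ∑ v ∈ U m, f v ≤ ∑ v ∈ ({(2, q + 1), (1, 2 * q + 2), (1, 2 * q + 1)} : Finset (ℕ × ℕ)), f v := by
        refine Finset.sum_le_sum_of_ne_zero fun v hv h => ?_
        have h4 := hval v hv h
        have h5 := h2_cases v
        have h6 := (mem_U m).1 hv
        simp only [Finset.mem_insert, Finset.mem_singleton, Prod.ext_iff]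
        unfold C2 at h4 h5
        rcases h6.1 with h7 | h7
        · rw [h7] at h4 h5 ⊢
          simp only [OfNat.one_ne_ofNat, if_false] at h4 h5
          omega
        · rw [h7] at h4 h5 ⊢
          simp only [if_true] at h4 h5
          omega
      refine h5.trans ?_
      rw [Finset.sum_insert (by simp), Finset.sum_insert (by simp), Finset.sum_singleton]
      have b1 := hb 2 (q + 1) (by norm_num)
      have b2 := hb 1 (2 * q + 2) (by norm_num)
      have b3 := hb 1 (2 * q + 1) (by norm_num)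
      omega

theorem prod_low (x : ℝ) : ∏ t : Fin (m + 1), (if 3 ∣ (t : ℕ) then (1 : ℝ) else x) = x ^ (m - m / 3) := by
  induction m with
  | zero => simp
  | succ m ih =>
    rw [Fin.prod_univ_castSucc]
    simp only [Fin.val_castSucc, Fin.val_last]
    rw [ih]
    split_ifs with h
    · have e : m + 1 - (m + 1) / 3 = m - m / 3 := by omega
      rw [mul_one, e]
    · have e : m + 1 - (m + 1) / 3 = m - m / 3 + 1 := by omega
      rw [e, pow_succ]

/-- **Many ordinary trigonal curves.** -/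
theorem count_trig {p : ℕ} [hp : Fact p.Prime] (h3 : p % 3 = 1) (a : Fin 2 × Fin (m + 1) → ZMod p) :
    (1 / 6 : ℝ) ^ (m - m / 3) * (p : ℝ) ^ (m + 1) ≤
      Nat.card {r : Fin (m + 1) → ZMod p // (HWm p (p - 1) (ex m) (uu m) (co m a r)).det ≠ 0} := by
  have h2 : p ≠ 2 := by omega
  obtain ⟨n, hn⟩ := hp.out.odd_of_ne_two h2
  obtain ⟨ℓ, hℓ⟩ : ∃ ℓ, p = 6 * ℓ + 1 := ⟨p / 6, by omega⟩
  subst hℓ
  have hfin := count (p := 6 * ℓ + 1) (6 * ℓ) (ex m) (uu m) (co m (fun s => MvPolynomial.C (σ := Fin (m + 1)) (a s)) MvPolynomial.X)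
    (w m) (w_pos m) (om m) (om_LE m a) (fun u : U m => kk m u.1) (fun u => gg m u.1) (fun _ => 0)
    (fun i j _ e _ => Finset.sum_nonneg fun x _ => mul_nonneg (Nat.cast_nonneg _) (DD_nonneg m i.1 i.2 x))
    (e0 m ℓ) (e0_mem m ℓ) (fun i e he hne => diag m ℓ i e he hne) (MM m ℓ) (fun i => (Nat.multinomial univ (e0 m ℓ i) : ZMod (6 * ℓ + 1)))
    (fun i => multinomial_ne (e0 m ℓ i) (by
      rw [((mem_EE _ _).1 (e0_mem m ℓ i)).1]
      omega)) (fun i => term_e0 m ℓ a i) (fun i => Wt_MM m ℓ i) (fun σ hσ => perm m ℓ σ hσ)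
    (fun s => lt_of_le_of_lt (MM_sum m ℓ s) (by split_ifs <;> omega))
  have e1 : ∀ r : Fin (m + 1) → ZMod (6 * ℓ + 1), (fun x => MvPolynomial.eval r
      (co m (fun s => MvPolynomial.C (σ := Fin (m + 1)) (a s)) MvPolynomial.X x)) = co m a r := by
    intro r
    funext x
    rcases x with x | t
    · rcases x with _ | s
      · exact map_one _
      · exact MvPolynomial.eval_C _
    · exact MvPolynomial.eval_X _
  simp only [e1] at hfin
  have e2 : 6 * ℓ + 1 - 1 = 6 * ℓ := rfl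
  rw [e2]
  have hfin' : ((∏ s, (6 * ℓ + 1 - (∑ i, MM m ℓ i : Fin (m + 1) →₀ ℕ) s) : ℕ) : ℝ) ≤
      Nat.card {r : Fin (m + 1) → ZMod (6 * ℓ + 1) // (HWm (6 * ℓ + 1) (6 * ℓ) (ex m) (uu m) (co m a r)).det ≠ 0} := by
    exact_mod_cast hfin
  refine le_trans ?_ hfin'
  rw [← prod_low m (1 / 6)]
  have e3 : ((6 * ℓ + 1 : ℕ) : ℝ) ^ (m + 1) = ∏ _t : Fin (m + 1), ((6 * ℓ + 1 : ℕ) : ℝ) := by
    rw [Finset.prod_const, Finset.card_univ, Fintype.card_fin]
  rw [e3, ← Finset.prod_mul_distrib, Nat.cast_prod]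
  refine Finset.prod_le_prod (fun t _ => by split_ifs <;> positivity) fun t _ => ?_
  have h5 := MM_sum m ℓ t
  split_ifs at h5 ⊢ with h6
  · have h7 : (∑ i, MM m ℓ i : Fin (m + 1) →₀ ℕ) t = 0 := Nat.le_zero.1 h5
    rw [h7, Nat.sub_zero, one_mul]
  · have h7 : 6 * ℓ + 1 ≤ 6 * (6 * ℓ + 1 - (∑ i, MM m ℓ i : Fin (m + 1) →₀ ℕ) t) := by omega
    have h8 : ((6 * ℓ + 1 : ℕ) : ℝ) ≤ 6 * ((6 * ℓ + 1 - (∑ i, MM m ℓ i : Fin (m + 1) →₀ ℕ) t : ℕ) : ℝ) := by exact_mod_cast h7
    linarith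

end Run7.h328.ORD.Trig
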